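import Pool.Agent.Helper365.AL.Trn

/-!
The number of loops with few turns.
-/

set_option autoImplicit false

namespace Pool.Agent.Helper365.AL

open Pool.Agent.Y981.L2 H981 Finset

theorem card_small {α : Type*} [DecidableEq α] (S : Finset α) (r : ℕ) :
    (S.powerset.filter (fun A => A.card ≤ r)).card ≤ (S.card + 1) ^ r := by
  induction r with
  | zero =>
    rw [pow_zero]
    have : S.powerset.filter (fun A => A.card ≤ 0) ⊆ {∅} := by
      intro A hA
      rw [mem_filter] at hA
      rw [mem_singleton, ← card_eq_zero]
      omega
    exact (card_le_card this).trans (by rw [card_singleton])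
  | succ r ih =>
    have h1 : S.powerset.filter (fun A => A.card ≤ r + 1) ⊆
        ((S.powerset.filter (fun A => A.card ≤ r)) ×ˢ (insertNone S)).image
          (fun p : Finset α × Option α => p.2.elim p.1 (fun x => insert x p.1)) := by
      intro A hA
      rw [mem_filter, mem_powerset] at hA
      rw [mem_image]
      by_cases h : A.card ≤ r
      · refine ⟨(A, none), ?_, rfl⟩
        rw [mem_product, mem_filter, mem_powerset]
        exact ⟨⟨hA.1, h⟩, none_mem_insertNone⟩
      · have hne : A.Nonempty := by
          rw [← card_pos]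
          omega
        obtain ⟨x, hx⟩ := hne
        refine ⟨(A.erase x, some x), ?_, ?_⟩
        · rw [mem_product, mem_filter, mem_powerset]
          refine ⟨⟨(erase_subset _ _).trans hA.1, ?_⟩, ?_⟩
          · simp only
            rw [card_erase_of_mem hx]
            omega
          · exact some_mem_insertNone.2 (hA.1 hx)
        · exact insert_erase hx
    refine (card_le_card h1).trans (card_image_le.trans ?_)
    rw [card_product, card_insertNone, pow_succ]
    exact Nat.mul_le_mul_right _ ih

variable {M : ℕ} [NeZero M]

/-- the turns with the directions after them -/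
noncomputable def cd (f : ZMod M → ℤ × ℤ) : Finset (ZMod M × (ℤ × ℤ)) := by
  classical
  exact insert (0, sd f 0) ((Tn M f).image (fun k => (k + 1, sd f (k + 1))))

theorem mem_cd {f : ZMod M → ℤ × ℤ} {p : ZMod M} {d : ℤ × ℤ} (h : (p, d) ∈ cd f) :
    d = sd f p := by
  classical
  unfold cd at h
  rw [mem_insert, mem_image] at h
  rcases h with h | ⟨k, -, h⟩
  · simp only [Prod.mk.injEq] at h
    rw [h.1, h.2]
  · simp only [Prod.mk.injEq] at h
    rw [← h.1, ← h.2]

theorem cd_sd {f g : ZMod M → ℤ × ℤ} (h : cd f = cd g) : sd f = sd g := by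
  classical
  have h0 : sd f 0 = sd g 0 := by
    apply mem_cd
    rw [← h]
    unfold cd
    exact mem_insert_self _ _
  have key : ∀ n : ℕ, sd f (n : ZMod M) = sd g (n : ZMod M) := by
    intro n
    induction n with
    | zero => rw [Nat.cast_zero]; exact h0
    | succ n ih =>
      push_cast
      by_cases h1 : (n : ZMod M) ∈ Tn M f
      · apply mem_cd
        rw [← h]
        unfold cd
        rw [mem_insert, mem_image]
        exact Or.inr ⟨_, h1, rfl⟩
      · by_cases h2 : (n : ZMod M) ∈ Tn M g
        · symm
          apply mem_cd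
          rw [h]
          unfold cd
          rw [mem_insert, mem_image]
          exact Or.inr ⟨_, h2, rfl⟩
        · unfold Tn at h1 h2
          rw [mem_filter, not_and, not_not] at h1 h2
          rw [← h1 (mem_univ _), ← h2 (mem_univ _)]
          exact ih
  funext i
  have := key i.val
  rw [ZMod.natCast_zmod_val] at this
  exact this

theorem card_few (F : Finset (ZMod M → ℤ × ℤ)) {R : ℕ}
    (hF : ∀ f ∈ F, IsLoop M f ∧ (Tn M f).card ≤ R) : F.card ≤ (4 * M + 1) ^ (R + 1) := by
  classical
  let D : Finset (ℤ × ℤ) := {(1, 0), (-1, 0), (0, 1), (0, -1)}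
  have hD : D.card ≤ 4 := by
    refine (card_insert_le _ _).trans ?_
    refine Nat.succ_le_succ ((card_insert_le _ _).trans ?_)
    refine Nat.succ_le_succ ((card_insert_le _ _).trans ?_)
    rw [card_singleton]
  have hsd : ∀ f ∈ F, ∀ i : ZMod M, sd f i ∈ D := by
    intro f hf i
    have h2 := (hF f hf).1.2.2 i
    unfold sd
    simp only [D, mem_insert, mem_singleton, Prod.mk.injEq]
    obtain ⟨x, hx⟩ : ∃ x, x = (f (i + 1)).1 - (f i).1 := ⟨_, rfl⟩
    obtain ⟨y, hy⟩ : ∃ y, y = (f (i + 1)).2 - (f i).2 := ⟨_, rfl⟩
    rw [← hx, ← hy] at h2 ⊢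
    rw [Int.abs_eq_natAbs, Int.abs_eq_natAbs] at h2
    omega
  let S : Finset (ZMod M × (ℤ × ℤ)) := univ ×ˢ D
  have hS : S.card ≤ 4 * M := by
    simp only [S]
    rw [card_product, card_univ, ZMod.card, mul_comm]
    exact Nat.mul_le_mul_right _ hD
  have h1 : F.card ≤ (S.powerset.filter (fun A => A.card ≤ R + 1)).card := by
    apply card_le_card_of_injOn cd
    · intro f hf
      rw [mem_coe] at hf
      rw [mem_coe, mem_filter, mem_powerset]
      constructor
      · intro p hp
        obtain ⟨p, d⟩ := p
        have := mem_cd hp
        simp only [S]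
        rw [mem_product]
        refine ⟨mem_univ _, ?_⟩
        rw [this]
        exact hsd f hf p
      · unfold cd
        refine (card_insert_le _ _).trans (Nat.succ_le_succ (card_image_le.trans (hF f hf).2))
    · intro f hf g hg hfg
      rw [mem_coe] at hf hg
      have hs := cd_sd hfg
      have hf0 := (hF f hf).1.1
      have hg0 := (hF g hg).1.1
      have h3 : ∀ n : ℕ, f (n : ZMod M) = g (n : ZMod M) := by
        intro n
        induction n with
        | zero => rw [Nat.cast_zero, hf0, hg0]
        | succ n ih =>
          have h4 := congrFun hs (n : ZMod M)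
          simp only [sd, Prod.mk.injEq] at h4
          rw [ih] at h4
          push_cast
          exact Prod.ext (by omega) (by omega)
      funext i
      have := h3 i.val
      rw [ZMod.natCast_zmod_val] at this
      exact this
  refine h1.trans ((card_small S (R + 1)).trans ?_)
  exact Nat.pow_le_pow_left (by omega) _

end Pool.Agent.Helper365.AL
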