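import Pool.Agent.Helper365.AL.Tot2

/-!
The rectangle without one corner.
-/

set_option autoImplicit false

namespace Pool.Agent.Helper365.AL

open Pool.Agent.Y981.L2 H981 Finset

/-- the rectangle with sides `s`, `m - s`, without the upper right corner -/
def kc (m s v : ℕ) : ℤ × ℤ := if v = m then ((s : ℤ) - 1, (m : ℤ) - s - 1) else rc m s v

/-- the loop around it -/
def kut (m s : ℕ) (i : ZMod (2 * m)) : ℤ × ℤ := kc m s i.val

theorem kut_next {m s : ℕ} [NeZero (2 * m)] (h1 : 2 ≤ s) (h2 : s + 2 ≤ m) (i : ZMod (2 * m)) :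
    kut m s (i + 1) = kc m s (i.val + 1) := by
  have hv := ZMod.val_lt i
  rcases Nat.lt_or_ge (i.val + 1) (2 * m) with h | h
  · unfold kut
    rw [val_succ i h]
  · have e1 : i.val + 1 = 2 * m := by omega
    unfold kut
    rw [val_last i e1, e1]
    unfold kc rc
    rw [if_neg (by omega), if_pos (Nat.zero_le _), if_neg (by omega), if_neg (by omega),
      if_neg (by omega), if_neg (by omega)]
    push_cast
    simp

theorem kut_loop {m s : ℕ} [NeZero (2 * m)] (h1 : 2 ≤ s) (h2 : s + 2 ≤ m) :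
    IsLoop (2 * m) (kut m s) := by
  refine ⟨?_, ?_, ?_⟩
  · unfold kut kc rc
    rw [ZMod.val_zero, if_neg (by omega), if_pos (Nat.zero_le _)]
    rfl
  · intro i j hij
    have hi := ZMod.val_lt i
    have hj := ZMod.val_lt j
    have h3 : i.val = j.val := by
      unfold kut kc rc at hij
      split_ifs at hij <;> simp only [Prod.mk.injEq] at hij <;> omega
    exact ZMod.val_injective _ h3
  · intro i
    rw [kut_next h1 h2]
    have hi := ZMod.val_lt i
    unfold kut kc rc
    split_ifs <;> simp only <;> push_cast <;> simp only [Int.abs_eq_natAbs] <;> omega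

theorem kut_above {m s : ℕ} [NeZero (2 * m)] (h1 : 2 ≤ s) (h2 : s + 2 ≤ m) {X Y : ℤ}
    (hX0 : 0 ≤ X) (hX : X < s) (hY0 : 0 ≤ Y) (hY : Y < (m : ℤ) - s) (k : ZMod (2 * m)) :
    Above (2 * m) (kut m s) X Y k ↔ (X < s - 1 ∧ (k.val : ℤ) = m + s - X - 1) ∨
      (X = s - 1 ∧ Y < (m : ℤ) - s - 1 ∧ (k.val : ℤ) = m - 1) := by
  unfold Above
  rw [kut_next h1 h2]
  have hk := ZMod.val_lt k
  unfold kut kc rc
  split_ifs <;> simp only <;> push_cast <;> omega

theorem kut_encl {m s : ℕ} [NeZero (2 * m)] (h1 : 2 ≤ s) (h2 : s + 2 ≤ m) {X Y : ℤ}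
    (hX0 : 0 ≤ X) (hX : X < s) (hY0 : 0 ≤ Y) (hY : Y < (m : ℤ) - s) :
    Encl (2 * m) (kut m s) (X, Y) ↔ ¬ (X = s - 1 ∧ Y = (m : ℤ) - s - 1) := by
  unfold Encl
  simp only
  by_cases hc : X = s - 1 ∧ Y = (m : ℤ) - s - 1
  · have e : Nat.card {k : ZMod (2 * m) // Above (2 * m) (kut m s) X Y k} = 0 := by
      have : IsEmpty {k : ZMod (2 * m) // Above (2 * m) (kut m s) X Y k} := by
        refine ⟨?_⟩
        rintro ⟨k, hk⟩
        rw [kut_above h1 h2 hX0 hX hY0 hY] at hk
        omega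
      exact Nat.card_of_isEmpty
    rw [e]
    constructor
    · intro h
      exact absurd h (by decide)
    · intro h
      exact absurd hc h
  · have e : Nat.card {k : ZMod (2 * m) // Above (2 * m) (kut m s) X Y k} = 1 := by
      rw [Nat.card_eq_one_iff_unique]
      obtain ⟨v, hv⟩ : ∃ v : ℕ, (v : ℤ) = if X < s - 1 then m + s - X - 1 else m - 1 := by
        refine ⟨(if X < s - 1 then (m : ℤ) + s - X - 1 else m - 1).toNat, ?_⟩
        split_ifs <;> omega
      have hvl : v < 2 * m := by split_ifs at hv <;> omega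
      refine ⟨⟨?_⟩, ⟨⟨(v : ZMod (2 * m)), ?_⟩⟩⟩
      · rintro ⟨k, hk⟩ ⟨l, hl'⟩
        rw [kut_above h1 h2 hX0 hX hY0 hY] at hk hl'
        apply Subtype.ext
        apply ZMod.val_injective
        show k.val = l.val
        omega
      · rw [kut_above h1 h2 hX0 hX hY0 hY, ZMod.val_natCast_of_lt hvl]
        split_ifs at hv <;> omega
    rw [e]
    constructor
    · intro _
      exact hc
    · intro _
      exact odd_one

theorem kut_area {m s : ℕ} [NeZero (2 * m)] (h1 : 2 ≤ s) (h2 : s + 2 ≤ m) :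
    area (2 * m) (kut m s) + 1 = s * (m - s) := by
  classical
  have hl := kut_loop h1 h2
  have hbx : ∀ i : ZMod (2 * m), (0 : ℤ) ≤ (kut m s i).1 ∧ (kut m s i).1 ≤ s := by
    intro i
    have hi := ZMod.val_lt i
    unfold kut kc rc
    split_ifs <;> simp only <;> push_cast <;>
      first | omega | exact ⟨trivial, by omega⟩
  have hby : ∀ i : ZMod (2 * m), (0 : ℤ) ≤ (kut m s i).2 ∧ (kut m s i).2 ≤ (m : ℤ) - s := by
    intro i
    have hi := ZMod.val_lt i
    unfold kut kc rc
    split_ifs <;> simp only <;> push_cast <;>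
      first | omega | exact ⟨trivial, by omega⟩
  have e1 : area (2 * m) (kut m s) = {c : ℤ × ℤ | Encl (2 * m) (kut m s) c}.ncard := rfl
  have e2 : {c : ℤ × ℤ | Encl (2 * m) (kut m s) c} =
      (((Finset.Ico (0 : ℤ) s ×ˢ Finset.Ico (0 : ℤ) ((m : ℤ) - s)).erase
        ((s : ℤ) - 1, (m : ℤ) - s - 1) : Finset (ℤ × ℤ)) : Set (ℤ × ℤ)) := by
    ext ⟨X, Y⟩
    rw [Finset.mem_coe, Finset.mem_erase, Finset.mem_product, Finset.mem_Ico, Finset.mem_Ico]
    constructor
    · intro hE
      have hE' : Encl (2 * m) (kut m s) (X, Y) := hE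
      have hb := encl_box hl.2.2 hbx hby hE'
      simp only at hb
      have := (kut_encl h1 h2 hb.1.1 hb.1.2 hb.2.1 hb.2.2).1 hE'
      refine ⟨?_, hb.1, hb.2⟩
      intro he
      rw [Prod.mk.injEq] at he
      exact this he
    · rintro ⟨hne, hb1, hb2⟩
      show Encl (2 * m) (kut m s) (X, Y)
      simp only at hb1 hb2
      rw [kut_encl h1 h2 hb1.1 hb1.2 hb2.1 hb2.2]
      rintro ⟨g1, g2⟩
      exact hne (by rw [g1, g2])
  rw [e1, e2, Set.ncard_coe_finset, Finset.card_erase_of_mem, Finset.card_product, Int.card_Ico,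
    Int.card_Ico]
  · have e3 : ((s : ℤ) - 0).toNat = s := by omega
    have e4 : ((m : ℤ) - s - 0).toNat = m - s := by omega
    rw [e3, e4]
    have : 1 ≤ s * (m - s) := Nat.mul_pos (by omega) (by omega)
    omega
  · rw [Finset.mem_product, Finset.mem_Ico, Finset.mem_Ico]
    simp only
    omega

/-- the number of loops whose area is one less than the largest -/
theorem card_sub {m : ℕ} (hm : 4 ≤ m) [NeZero (2 * m)] :
    2 * m ≤ {f : ZMod (2 * m) → ℤ × ℤ | IsLoop (2 * m) f ∧
      area (2 * m) f + 1 = m ^ 2 / 4}.ncard := by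
  classical
  have h1 : 2 ≤ m / 2 := by omega
  have h2 : m / 2 + 2 ≤ m := by omega
  have hl := kut_loop (m := m) (s := m / 2) h1 h2
  have ha : area (2 * m) (kut m (m / 2)) + 1 = m ^ 2 / 4 := by
    rw [kut_area h1 h2]
    rcases Nat.even_or_odd m with ⟨t, ht⟩ | ⟨t, ht⟩
    · have : m / 2 = t := by omega
      rw [this, ht]
      have e1 : t + t - t = t := by omega
      have e2 : (t + t) ^ 2 = 4 * (t * t) := by ring
      rw [e1, e2, Nat.mul_div_cancel_left _ (by norm_num)]
    · have : m / 2 = t := by omega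
      rw [this, ht]
      have e1 : 2 * t + 1 - t = t + 1 := by omega
      have e2 : (2 * t + 1) ^ 2 = 4 * (t * (t + 1)) + 1 := by ring
      rw [e1, e2]
      omega
  have hfin : {f : ZMod (2 * m) → ℤ × ℤ | IsLoop (2 * m) f ∧
      area (2 * m) f + 1 = m ^ 2 / 4}.Finite :=
    (loops_finite (n := m) (by omega)).subset (fun f hf => hf.1)
  have h3 : (Set.range (rot (kut m (m / 2)))).ncard ≤
      {f : ZMod (2 * m) → ℤ × ℤ | IsLoop (2 * m) f ∧ area (2 * m) f + 1 = m ^ 2 / 4}.ncard := by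
    apply Set.ncard_le_ncard _ hfin
    rintro g ⟨k, rfl⟩
    exact ⟨rot_loop hl k, by rw [rot_area, ha]⟩
  refine le_trans (le_of_eq ?_) h3
  rw [← Set.image_univ, Set.ncard_image_of_injective _ (rot_inj hl), Set.ncard_univ,
    Nat.card_zmod]

end Pool.Agent.Helper365.AL
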