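import Pool.Agent.Helper365.AL.Sum

/-!
The upper bound of the partition function.
-/

set_option autoImplicit false

namespace Pool.Agent.Helper365.AL

open Pool.Agent.Y981.L2 H981 Finset

theorem sum_union_le {α : Type*} [DecidableEq α] {g : α → ℝ} (hg : ∀ x, 0 ≤ g x)
    (A B : Finset α) : ∑ x ∈ A ∪ B, g x ≤ ∑ x ∈ A, g x + ∑ x ∈ B, g x := by
  rw [← sum_union_inter]
  have : 0 ≤ ∑ x ∈ A ∩ B, g x := sum_nonneg (fun x _ => hg x)
  linarith

theorem sum_biUnion_le {α ι : Type*} [DecidableEq α] {g : α → ℝ} (hg : ∀ x, 0 ≤ g x)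
    (s : Finset ι) (t : ι → Finset α) :
    ∑ x ∈ s.biUnion t, g x ≤ ∑ i ∈ s, ∑ x ∈ t i, g x := by
  classical
  induction s using Finset.induction_on with
  | empty => simp
  | insert i s hi ih =>
    rw [biUnion_insert, sum_insert hi]
    exact (sum_union_le hg _ _).trans (add_le_add le_rfl ih)

theorem area_top {m : ℕ} (hm : 1 ≤ m) [NeZero (2 * m)] {f : ZMod (2 * m) → ℤ × ℤ}
    (hf : IsLoop (2 * m) f) : area (2 * m) f ≤ m ^ 2 / 4 := by
  have h1 := two_width_le hm hf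
  have h2 := two_width_le hm (swp_loop hf)
  have h3 := hz_add hf
  have h4 := area_le_wh hm hf
  obtain ⟨a, ha⟩ : ∃ a, a = width (2 * m) f := ⟨_, rfl⟩
  obtain ⟨b, hb⟩ : ∃ b, b = width (2 * m) (swp f) := ⟨_, rfl⟩
  rw [← ha] at h1 h4
  rw [← hb] at h2 h4
  rw [Nat.le_div_iff_mul_le (by norm_num)]
  have h5 : a + b ≤ m := by omega
  calc area (2 * m) f * 4 ≤ a * b * 4 := Nat.mul_le_mul_right _ h4
    _ ≤ (a + b) ^ 2 := by
        have h6 : (a : ℤ) * b * 4 ≤ ((a : ℤ) + b) ^ 2 := by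
          nlinarith [sq_nonneg ((a : ℤ) - b)]
        exact_mod_cast h6
    _ ≤ _ := Nat.pow_le_pow_left h5 2

/-- the weights of the products -/
theorem prod_le {q : ℝ} (hq : 256 ≤ q) {m a : ℕ} (ha : a ≤ m) :
    q ^ (a * (m - a)) ≤ 4 * q ^ (m ^ 2 / 4) * (1 / 4) ^ ((m : ℤ) - 2 * a).natAbs := by
  have hq0 : 0 < q := by linarith
  obtain ⟨d, hd⟩ : ∃ d, d = ((m : ℤ) - 2 * a).natAbs := ⟨_, rfl⟩
  rw [← hd]
  have hd2 : (d : ℤ) ^ 2 = ((m : ℤ) - 2 * a) ^ 2 := by rw [hd, Int.natAbs_sq]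
  obtain ⟨b, hb⟩ : ∃ b, m = a + b := ⟨m - a, by omega⟩
  have e1 : m - a = b := by omega
  rw [e1]
  have h1 : 4 * (a * b) + d ^ 2 = m ^ 2 := by
    have : 4 * ((a : ℤ) * b) + (d : ℤ) ^ 2 = (m : ℤ) ^ 2 := by
      rw [hd2, hb]
      push_cast
      ring
    exact_mod_cast this
  have h2 : m ^ 2 ≤ 4 * (m ^ 2 / 4) + 1 := by
    have h3 : m ^ 2 % 4 ≤ 1 := by
      rw [Nat.pow_mod]
      have : m % 4 < 4 := Nat.mod_lt _ (by norm_num)
      interval_cases m % 4 <;> norm_num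
    omega
  have h3 : d ≤ d ^ 2 := by
    rcases Nat.eq_zero_or_pos d with h | h
    · rw [h]; norm_num
    · exact Nat.le_self_pow (by norm_num) d
  obtain ⟨j, hj⟩ : ∃ j, m ^ 2 / 4 = a * b + j := ⟨m ^ 2 / 4 - a * b, by omega⟩
  rw [hj]
  have h4 : d ≤ 4 * j + 1 := by omega
  have h5 : (1 : ℝ) ≤ 4 * q ^ j * (1 / 4) ^ d := by
    have g1 : (256 : ℝ) ^ j ≤ q ^ j := pow_le_pow_left₀ (by norm_num) hq j
    have g2 : (4 : ℝ) ^ (4 * j + 1) = 4 * 256 ^ j := by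
      rw [pow_succ, pow_mul, mul_comm]
      norm_num
    have g3 : (4 : ℝ) ^ d ≤ 4 ^ (4 * j + 1) := pow_le_pow_right₀ (by norm_num) h4
    have g4 : (4 : ℝ) ^ d * (1 / 4) ^ d = 1 := by
      rw [← mul_pow]
      norm_num
    calc (1 : ℝ) = (4 : ℝ) ^ d * (1 / 4) ^ d := g4.symm
      _ ≤ (4 * q ^ j) * (1 / 4) ^ d := by
          apply mul_le_mul_of_nonneg_right _ (by positivity)
          rw [g2] at g3
          linarith
  rw [pow_add]
  have h6 : 0 ≤ q ^ (a * b) := by positivity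
  calc q ^ (a * b) = q ^ (a * b) * 1 := (mul_one _).symm
    _ ≤ q ^ (a * b) * (4 * q ^ j * (1 / 4) ^ d) := mul_le_mul_of_nonneg_left h5 h6
    _ = _ := by ring

theorem sum_prod_le {q : ℝ} (hq : 256 ≤ q) (m : ℕ) :
    ∑ n ∈ range m, q ^ ((n + 1) * (m - (n + 1))) ≤ 8 * q ^ (m ^ 2 / 4) := by
  classical
  have hq0 : 0 < q := by linarith
  have h1 : ∑ n ∈ range m, q ^ ((n + 1) * (m - (n + 1))) ≤
      ∑ n ∈ range m, 4 * q ^ (m ^ 2 / 4) * (1 / 4) ^ ((m : ℤ) - 2 * ((n + 1 : ℕ) : ℤ)).natAbs := by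
    apply sum_le_sum
    intro n hn
    rw [mem_range] at hn
    exact prod_le hq (by omega)
  refine h1.trans ?_
  rw [← mul_sum]
  have h2 : ∑ n ∈ range m, (1 / 4 : ℝ) ^ ((m : ℤ) - 2 * ((n + 1 : ℕ) : ℤ)).natAbs ≤ 2 := by
    have h3 : ∑ n ∈ range m, (1 / 4 : ℝ) ^ ((m : ℤ) - 2 * ((n + 1 : ℕ) : ℤ)).natAbs =
        ∑ x ∈ (range m).image (fun n : ℕ => (m : ℤ) - 2 * ((n + 1 : ℕ) : ℤ)),
          (1 / 4 : ℝ) ^ x.natAbs := by
      rw [sum_image]
      intro a _ b _ hab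
      simp only at hab
      omega
    rw [h3]
    have h4 := geo_two (r := 1 / 4) (by norm_num) (by norm_num) m
    refine le_trans (sum_le_sum_of_subset_of_nonneg ?_ (fun _ _ _ => by positivity))
      (h4.trans (by norm_num))
    intro x hx
    rw [mem_image] at hx
    obtain ⟨n, hn, rfl⟩ := hx
    rw [mem_range] at hn
    rw [mem_Icc]
    omega
  have h5 : 0 ≤ 4 * q ^ (m ^ 2 / 4) := by positivity
  calc 4 * q ^ (m ^ 2 / 4) * ∑ n ∈ range m, (1 / 4 : ℝ) ^ ((m : ℤ) - 2 * ((n + 1 : ℕ) : ℤ)).natAbs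
      ≤ 4 * q ^ (m ^ 2 / 4) * 2 := mul_le_mul_of_nonneg_left h2 h5
    _ = _ := by ring

/-- the number of loops -/
theorem card_loops {M : ℕ} [NeZero M] (F : Finset (ZMod M → ℤ × ℤ))
    (hF : ∀ f ∈ F, IsLoop M f) : F.card ≤ 4 ^ M := by
  classical
  let D : Finset (ℤ × ℤ) := {(1, 0), (-1, 0), (0, 1), (0, -1)}
  have hD : D.card ≤ 4 := by
    refine (card_insert_le _ _).trans ?_
    refine Nat.succ_le_succ ((card_insert_le _ _).trans ?_)
    refine Nat.succ_le_succ ((card_insert_le _ _).trans ?_)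
    rw [card_singleton]
  let st : (ZMod M → ℤ × ℤ) → (ZMod M → ℤ × ℤ) := fun f i =>
    ((f (i + 1)).1 - (f i).1, (f (i + 1)).2 - (f i).2)
  have h1 : F.card ≤ (Fintype.piFinset (fun _ : ZMod M => D)).card := by
    apply card_le_card_of_injOn st
    · intro f hf
      rw [mem_coe] at hf ⊢
      rw [Fintype.mem_piFinset]
      intro i
      have h2 := (hF f hf).2.2 i
      simp only [st, D, mem_insert, mem_singleton, Prod.mk.injEq]
      obtain ⟨x, hx⟩ : ∃ x, x = (f (i + 1)).1 - (f i).1 := ⟨_, rfl⟩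
      obtain ⟨y, hy⟩ : ∃ y, y = (f (i + 1)).2 - (f i).2 := ⟨_, rfl⟩
      rw [← hx, ← hy] at h2 ⊢
      rw [Int.abs_eq_natAbs, Int.abs_eq_natAbs] at h2
      omega
    · intro f hf g hg hfg
      rw [mem_coe] at hf hg
      have hf0 := (hF f hf).1
      have hg0 := (hF g hg).1
      have h3 : ∀ n : ℕ, f (n : ZMod M) = g (n : ZMod M) := by
        intro n
        induction n with
        | zero => rw [Nat.cast_zero, hf0, hg0]
        | succ n ih =>
          have h4 := congrFun hfg (n : ZMod M)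
          simp only [st, Prod.mk.injEq] at h4
          rw [ih] at h4
          push_cast
          exact Prod.ext (by omega) (by omega)
      funext i
      have := h3 i.val
      rw [ZMod.natCast_zmod_val] at this
      exact this
  refine h1.trans ?_
  rw [Fintype.card_piFinset, prod_const, card_univ, ZMod.card]
  exact Nat.pow_le_pow_left hD M

/-- the small loops -/
theorem crude {q : ℝ} (hq : 256 ≤ q) {m : ℕ} (hm : 1 ≤ m) [NeZero (2 * m)]
    (F : Finset (ZMod (2 * m) → ℤ × ℤ))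
    (hF : ∀ f ∈ F, IsLoop (2 * m) f ∧ 4 * area (2 * m) f ≤ (m - 1) ^ 2) :
    ∑ f ∈ F, q ^ area (2 * m) f ≤ 16 * q ^ (m ^ 2 / 4) := by
  classical
  have hq0 : 0 < q := by linarith
  have h1 : ∀ f ∈ F, q ^ area (2 * m) f ≤ 16 * q ^ (m ^ 2 / 4) * (1 / 16) ^ m := by
    intro f hf
    obtain ⟨-, h2⟩ := hF f hf
    obtain ⟨p, hp⟩ : ∃ p, m = p + 1 := ⟨m - 1, by omega⟩
    have e1 : m - 1 = p := by omega
    rw [e1] at h2
    have h3 : m ^ 2 ≤ 4 * (m ^ 2 / 4) + 1 := by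
      have h3 : m ^ 2 % 4 ≤ 1 := by
        rw [Nat.pow_mod]
        have : m % 4 < 4 := Nat.mod_lt _ (by norm_num)
        interval_cases m % 4 <;> norm_num
      omega
    have h4 : m ^ 2 = p ^ 2 + 2 * p + 1 := by rw [hp]; ring
    obtain ⟨j, hj⟩ : ∃ j, m ^ 2 / 4 = area (2 * m) f + j := ⟨m ^ 2 / 4 - area (2 * m) f, by omega⟩
    rw [hj]
    have h5 : p ≤ 2 * j := by omega
    have h6 : (1 : ℝ) ≤ 16 * q ^ j * (1 / 16) ^ m := by
      have g1 : (256 : ℝ) ^ j ≤ q ^ j := pow_le_pow_left₀ (by norm_num) hq j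
      have g2 : (16 : ℝ) ^ (2 * j) = 256 ^ j := by
        rw [pow_mul]
        norm_num
      have g3 : (16 : ℝ) ^ p ≤ 16 ^ (2 * j) := pow_le_pow_right₀ (by norm_num) h5
      have g4 : (16 : ℝ) ^ m * (1 / 16) ^ m = 1 := by
        rw [← mul_pow]
        norm_num
      have g5 : (16 : ℝ) ^ m = 16 * 16 ^ p := by rw [hp, pow_succ, mul_comm]
      calc (1 : ℝ) = (16 : ℝ) ^ m * (1 / 16) ^ m := g4.symm
        _ ≤ (16 * q ^ j) * (1 / 16) ^ m := by
            apply mul_le_mul_of_nonneg_right _ (by positivity)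
            rw [g5]
            rw [g2] at g3
            linarith
    rw [pow_add]
    calc q ^ area (2 * m) f = q ^ area (2 * m) f * 1 := (mul_one _).symm
      _ ≤ q ^ area (2 * m) f * (16 * q ^ j * (1 / 16) ^ m) :=
          mul_le_mul_of_nonneg_left h6 (by positivity)
      _ = _ := by ring
  refine (sum_le_sum h1).trans ?_
  rw [sum_const, nsmul_eq_mul]
  have h2 : (F.card : ℝ) ≤ 16 ^ m := by
    have := card_loops F (fun f hf => (hF f hf).1)
    rw [pow_mul] at this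
    norm_num at this
    exact_mod_cast this
  have h3 : (16 : ℝ) ^ m * (1 / 16) ^ m = 1 := by
    rw [← mul_pow]
    norm_num
  calc (F.card : ℝ) * (16 * q ^ (m ^ 2 / 4) * (1 / 16) ^ m)
      ≤ 16 ^ m * (16 * q ^ (m ^ 2 / 4) * (1 / 16) ^ m) :=
        mul_le_mul_of_nonneg_right h2 (by positivity)
    _ = 16 * q ^ (m ^ 2 / 4) * (16 ^ m * (1 / 16) ^ m) := by ring
    _ = _ := by rw [h3, mul_one]

/-- **the partition function** -/
theorem total {q : ℝ} (hq : 256 ≤ q) {m : ℕ} (hm : 1 ≤ m) [NeZero (2 * m)]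
    (F : Finset (ZMod (2 * m) → ℤ × ℤ)) (hF : ∀ f ∈ F, IsLoop (2 * m) f) :
    ∑ f ∈ F, q ^ area (2 * m) f ≤ 208 * m * q ^ (m ^ 2 / 4) := by
  classical
  have hq0 : 0 < q := by linarith
  obtain ⟨F0, hF0⟩ : ∃ F0, F0 = F.filter (fun f => 4 * area (2 * m) f ≤ (m - 1) ^ 2) := ⟨_, rfl⟩
  obtain ⟨F1, hF1⟩ : ∃ F1 : ℕ → Finset (ZMod (2 * m) → ℤ × ℤ), F1 = fun n =>
    F.filter (fun f => width (2 * m) f = n + 1 ∧ hz (2 * m) f = 2 * (n + 1)) := ⟨_, rfl⟩
  have hsub : F ⊆ F0 ∪ (range m).biUnion F1 := by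
    intro f hf
    rw [mem_union]
    rcases dicho hm (hF f hf) with h | ⟨h1, h2⟩
    · left
      rw [hF0, mem_filter]
      exact ⟨hf, h⟩
    · right
      rw [mem_biUnion]
      have h3 := hz_add (hF f hf)
      refine ⟨width (2 * m) f - 1, ?_, ?_⟩
      · rw [mem_range]
        omega
      · rw [hF1]
        simp only
        rw [mem_filter]
        exact ⟨hf, by omega, by omega⟩
  have h0 : ∀ f : ZMod (2 * m) → ℤ × ℤ, 0 ≤ q ^ area (2 * m) f := fun f => by positivity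
  have h1 : ∑ f ∈ F, q ^ area (2 * m) f ≤ ∑ f ∈ F0, q ^ area (2 * m) f +
      ∑ n ∈ range m, ∑ f ∈ F1 n, q ^ area (2 * m) f := by
    refine (sum_le_sum_of_subset_of_nonneg hsub (fun f _ _ => h0 f)).trans ?_
    refine (sum_union_le h0 _ _).trans ?_
    exact add_le_add le_rfl (sum_biUnion_le h0 _ _)
  have h2 : ∑ f ∈ F0, q ^ area (2 * m) f ≤ 16 * q ^ (m ^ 2 / 4) := by
    apply crude hq hm
    intro f hf
    rw [hF0, mem_filter] at hf
    exact ⟨hF f hf.1, hf.2⟩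
  have h3 : ∑ n ∈ range m, ∑ f ∈ F1 n, q ^ area (2 * m) f ≤
      ∑ n ∈ range m, 24 * m * q ^ ((n + 1) * (m - (n + 1))) := by
    apply sum_le_sum
    intro n _
    apply fine hq hm
    intro f hf
    rw [hF1] at hf
    simp only at hf
    rw [mem_filter] at hf
    exact ⟨hF f hf.1, hf.2⟩
  rw [← mul_sum] at h3
  have h4 := sum_prod_le hq m
  have hm' : (1 : ℝ) ≤ m := by exact_mod_cast hm
  have h5 : (24 * m : ℝ) * ∑ n ∈ range m, q ^ ((n + 1) * (m - (n + 1))) ≤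
      24 * m * (8 * q ^ (m ^ 2 / 4)) := mul_le_mul_of_nonneg_left h4 (by positivity)
  have h6 : 16 * q ^ (m ^ 2 / 4) ≤ 16 * m * q ^ (m ^ 2 / 4) := by
    apply mul_le_mul_of_nonneg_right _ (by positivity)
    linarith
  calc ∑ f ∈ F, q ^ area (2 * m) f ≤ 16 * m * q ^ (m ^ 2 / 4) + 24 * m * (8 * q ^ (m ^ 2 / 4)) := by
        linarith
    _ = _ := by ring

end Pool.Agent.Helper365.AL
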