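import Pool.Agent.Helper365.AL.Cod
import Pool.Agent.Helper365.AL.Tot

/-!
The loops that cross some column four times, for all `q > 1`.
-/

set_option autoImplicit false

namespace Pool.Agent.Helper365.AL

open Pool.Agent.Y981.L2 H981 Finset Filter Topology

theorem sq_mod (m : ℕ) : m ^ 2 ≤ 4 * (m ^ 2 / 4) + 1 := by
  have h3 : m ^ 2 % 4 ≤ 1 := by
    rw [Nat.pow_mod]
    have : m % 4 < 4 := Nat.mod_lt _ (by norm_num)
    interval_cases m % 4 <;> norm_num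
  omega

/-- the loops of large area have few turns -/
theorem near_turns {m K : ℕ} (hm : 2 ≤ m) [NeZero (2 * m)] {f : ZMod (2 * m) → ℤ × ℤ}
    (hf : IsLoop (2 * m) f) (ha : m ^ 2 / 4 ≤ area (2 * m) f + K * m) :
    (Tn (2 * m) f).card ≤ 32 * (K + 1) * (Nat.sqrt m + 1) := by
  obtain ⟨i, j, h1, h2, h3⟩ := width_eq (by omega) hf
  obtain ⟨a, hwa⟩ : ∃ a, a = width (2 * m) f := ⟨_, rfl⟩
  obtain ⟨b, hwb⟩ : ∃ b, b = width (2 * m) (swp f) := ⟨_, rfl⟩
  obtain ⟨h, hh⟩ : ∃ h, h = hz (2 * m) f := ⟨_, rfl⟩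
  have t1 := two_width_le (by omega : 1 ≤ m) hf
  have t2 := two_width_le (by omega : 1 ≤ m) (swp_loop hf)
  have t3 := hz_add hf
  have t4 := area_le_wh (by omega : 1 ≤ m) hf
  have t5 := sq_mod m
  have hx : ∀ k, (f i).1 ≤ (f k).1 ∧ (f k).1 ≤ (f j).1 := fun k => ⟨h1 k, h2 k⟩
  have hE := energy_loop hf hx
  have hcard : (Ico (f i).1 (f j).1).card = a := by
    rw [Int.card_Ico, h3, hwa]
    omega
  have hT := turns (by omega : 3 ≤ 2 * m) hf (i := i) (j := j) rfl rfl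
  rw [hcard] at hE hT
  rw [← hwa] at t1 t4
  rw [← hwb] at t2 t4
  rw [← hh] at t1 t3 hE hT
  obtain ⟨A, hA⟩ : ∃ A, A = area (2 * m) f := ⟨_, rfl⟩
  rw [← hA] at ha t4 hE
  obtain ⟨S, hS⟩ : ∃ S, S = ∑ c ∈ Ico (f i).1 (f j).1,
    |(TL (2 * m) f c : ℤ) - TR (2 * m) f c| := ⟨_, rfl⟩
  rw [← hS] at hE
  have ht5 : ((m : ℤ)) ^ 2 ≤ 4 * A + 4 * K * m + 1 := by
    have : m ^ 2 ≤ 4 * (A + K * m) + 1 := by omega
    have h' : ((m ^ 2 : ℕ) : ℤ) ≤ ((4 * (A + K * m) + 1 : ℕ) : ℤ) := by exact_mod_cast this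
    push_cast at h'
    linarith
  have hh2m : h ≤ 2 * m := by omega
  have hS2 : S ≤ 2 * K * m := by
    have e1 : (a : ℤ) * ((2 * m : ℕ) - h) * 2 ≤ m ^ 2 := by
      push_cast
      have g1 : 0 ≤ 2 * (m : ℤ) - h := by omega
      have g2 : 2 * (a : ℤ) ≤ h := by omega
      have g3 := mul_nonneg (sub_nonneg.2 g2) g1
      have g4 := sq_nonneg ((m : ℤ) - h)
      linarith
    have e2 : 2 * S ≤ 4 * K * m + 1 := by linarith
    have e3 : S < 2 * K * m + 1 := by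
      by_contra hcon
      push Not at hcon
      linarith
    linarith [Int.lt_add_one_iff.1 e3]
  obtain ⟨s, hs⟩ : ∃ s, s = Nat.sqrt m := ⟨_, rfl⟩
  have hms : (m : ℤ) ≤ (s + 1) * (s + 1) := by
    have := Nat.lt_succ_sqrt m
    rw [← hs] at this
    have h' : m ≤ (s + 1) * (s + 1) := this.le
    exact_mod_cast h'
  have hX := few_lines hf hx (S := 2 * K * m) (by rw [← hS]; exact hS2) s
  obtain ⟨X, hXX⟩ : ∃ X, X = (Xp (2 * m) f).card := ⟨_, rfl⟩
  rw [← hXX] at hX hT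
  have hX2 : (X : ℤ) ≤ (2 + 2 * K) * (s + 1) := by
    have e1 : (X : ℤ) * (s + 1) ≤ ((2 + 2 * K) * (s + 1)) * (s + 1) := by
      have : (2 : ℤ) * K * m ≤ 2 * K * ((s + 1) * (s + 1)) :=
        mul_le_mul_of_nonneg_left hms (by positivity)
      linarith
    exact le_of_mul_le_mul_right e1 (by positivity)
  have he : (h : ℤ) - 2 * a ≤ 8 * K + 2 := by
    obtain ⟨e, he⟩ : ∃ e : ℤ, e = h - 2 * a := ⟨_, rfl⟩
    rw [← he]
    have g1 : 0 ≤ e := by omega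
    have g2 : e ≤ 2 * m := by omega
    have g3 : 2 * ((a : ℤ) + b) ≤ 2 * m - e := by omega
    have g4 : (4 : ℤ) * A ≤ (a + b) ^ 2 := by
      have : (A : ℤ) ≤ a * b := by exact_mod_cast t4
      have g := sq_nonneg ((a : ℤ) - b)
      linarith
    have g5 : (2 * ((a : ℤ) + b)) ^ 2 ≤ (2 * m - e) ^ 2 :=
      pow_le_pow_left₀ (by positivity) g3 2
    have g6 : 2 * (m : ℤ) * e ≤ 16 * K * m + 4 := by
      have : e * e ≤ 2 * m * e := mul_le_mul_of_nonneg_right g2 g1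
      linarith
    have hm' : (2 : ℤ) ≤ m := by exact_mod_cast hm
    have g7 : (m : ℤ) * e ≤ m * (8 * K + 2) := by linarith
    exact le_of_mul_le_mul_left g7 (by linarith)
  have hfin : ((Tn (2 * m) f).card : ℤ) ≤ 32 * (K + 1) * (s + 1) := by
    have h' : (((Tn (2 * m) f).card : ℤ)) + 4 * a ≤ 2 * h + 8 * X := by exact_mod_cast hT
    have g1 : (0 : ℤ) ≤ K := Nat.cast_nonneg _
    have g2 : (0 : ℤ) ≤ s := Nat.cast_nonneg _
    have g3 := mul_nonneg g1 g2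
    linarith
  rw [← hs]
  exact_mod_cast hfin

/-- powers of the square root against exponentials -/
theorem bdd_pow (A : ℕ) {τ : ℝ} (h0 : 0 < τ) (h1 : τ < 1) : ∃ C : ℝ, 0 ≤ C ∧
    ∀ y : ℕ, 1 ≤ y → (3 * (y : ℝ)) ^ (A * y) * τ ^ ((y - 1) ^ 2) ≤ C := by
  obtain ⟨l, hl⟩ : ∃ l, l = -Real.log τ := ⟨_, rfl⟩
  have hl0 : 0 < l := by
    rw [hl]
    have := Real.log_neg h0 h1
    linarith
  have hδ : 0 < l / (12 * (A + 1)) := by positivity
  have h2 : Tendsto (fun y : ℕ => 3 * (y : ℝ)) atTop atTop :=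
    tendsto_natCast_atTop_atTop.const_mul_atTop (by norm_num)
  have h3 := h2.eventually (Real.isLittleO_log_id_atTop.bound hδ)
  have h4 : ∀ᶠ y : ℕ in atTop, (3 * (y : ℝ)) ^ (A * y) * τ ^ ((y - 1) ^ 2) ≤ 1 := by
    filter_upwards [h3, eventually_ge_atTop 2] with y g1 g2
    have hy : (2 : ℝ) ≤ y := by exact_mod_cast g2
    have hy0 : (0 : ℝ) < 3 * y := by linarith
    rw [id, Real.norm_of_nonneg (Real.log_nonneg (by linarith)), Real.norm_of_nonneg hy0.le] at g1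
    have e1 : (3 * (y : ℝ)) ^ (A * y) = Real.exp (A * y * Real.log (3 * y)) := by
      rw [← Real.rpow_natCast, Real.rpow_def_of_pos hy0]
      congr 1
      push_cast
      ring
    have e2 : τ ^ ((y - 1) ^ 2) = Real.exp (-(l * ((y : ℝ) - 1) ^ 2)) := by
      rw [← Real.rpow_natCast, Real.rpow_def_of_pos h0]
      congr 1
      push_cast [Nat.cast_sub (by omega : 1 ≤ y)]
      rw [hl]
      ring
    rw [e1, e2, ← Real.exp_add]
    apply Real.exp_le_one_iff.2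
    have e3 : (A : ℝ) * y * Real.log (3 * y) ≤ A * y * (l / (12 * (A + 1)) * (3 * y)) :=
      mul_le_mul_of_nonneg_left g1 (by positivity)
    have e4 : (A : ℝ) * y * (l / (12 * (A + 1)) * (3 * y)) = (A / (A + 1)) * (l * y ^ 2 / 4) := by
      field_simp
      ring
    have e5 : (A : ℝ) / (A + 1) * (l * y ^ 2 / 4) ≤ 1 * (l * y ^ 2 / 4) := by
      apply mul_le_mul_of_nonneg_right _ (by positivity)
      rw [div_le_one (by positivity)]
      linarith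
    have e6 : (y : ℝ) ^ 2 / 4 ≤ ((y : ℝ) - 1) ^ 2 := by nlinarith
    have e7 : l * (y : ℝ) ^ 2 / 4 ≤ l * ((y : ℝ) - 1) ^ 2 := by
      calc l * (y : ℝ) ^ 2 / 4 = l * ((y : ℝ) ^ 2 / 4) := by ring
        _ ≤ _ := mul_le_mul_of_nonneg_left e6 hl0.le
    linarith
  rw [eventually_atTop] at h4
  obtain ⟨N, hN⟩ := h4
  have hpos : ∀ y : ℕ, 0 ≤ (3 * (y : ℝ)) ^ (A * y) * τ ^ ((y - 1) ^ 2) := fun y => by positivity
  refine ⟨1 + ∑ y ∈ range N, (3 * (y : ℝ)) ^ (A * y) * τ ^ ((y - 1) ^ 2),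
    add_nonneg zero_le_one (sum_nonneg (fun y _ => hpos y)), ?_⟩
  intro y _
  rcases Nat.lt_or_ge y N with h | h
  · have := single_le_sum (f := fun y : ℕ => (3 * (y : ℝ)) ^ (A * y) * τ ^ ((y - 1) ^ 2))
      (fun y _ => hpos y) (mem_range.2 h)
    linarith
  · have := hN y h
    have h5 : 0 ≤ ∑ y ∈ range N, (3 * (y : ℝ)) ^ (A * y) * τ ^ ((y - 1) ^ 2) :=
      sum_nonneg (fun y _ => hpos y)
    linarith

/-- the loops of small area, all `q > 1` -/
theorem crude_gen {q : ℝ} (hq : 1 < q) : ∃ C : ℝ, 0 ≤ C ∧ ∀ m : ℕ, 2 ≤ m → ∀ [NeZero (2 * m)]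
    (F : Finset (ZMod (2 * m) → ℤ × ℤ)),
    (∀ f ∈ F, IsLoop (2 * m) f ∧ 4 * area (2 * m) f ≤ (m - 1) ^ 2) →
    ∑ f ∈ F, q ^ area (2 * m) f ≤ C * q ^ (m ^ 2 / 4) := by
  classical
  have hq0 : 0 < q := by linarith
  obtain ⟨K, hK⟩ := pow_unbounded_of_one_lt (16 : ℝ) hq
  obtain ⟨τ, hτ0, hτ1, hτq⟩ : ∃ τ : ℝ, 0 < τ ∧ τ < 1 ∧ q * τ ^ 2 = 1 := by
    refine ⟨1 / √q, by positivity, ?_, ?_⟩
    · rw [div_lt_one (by positivity)]
      exact Real.lt_sqrt_of_sq_lt (by linarith)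
    · rw [div_pow, Real.sq_sqrt hq0.le]
      field_simp
  obtain ⟨C, hC0, hC⟩ := bdd_pow (66 * (K + 1)) hτ0 hτ1
  refine ⟨C / τ + 1, by positivity, ?_⟩
  intro m hm _ F hF
  obtain ⟨F1, hF1⟩ : ∃ F1, F1 = F.filter (fun f => m ^ 2 / 4 ≤ area (2 * m) f + K * m) := ⟨_, rfl⟩
  obtain ⟨F2, hF2⟩ : ∃ F2, F2 = F.filter (fun f => ¬ m ^ 2 / 4 ≤ area (2 * m) f + K * m) :=
    ⟨_, rfl⟩
  have hsplit : ∑ f ∈ F, q ^ area (2 * m) f =
      ∑ f ∈ F1, q ^ area (2 * m) f + ∑ f ∈ F2, q ^ area (2 * m) f := by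
    rw [hF1, hF2, sum_filter_add_sum_filter_not]
  obtain ⟨s, hs⟩ : ∃ s, s = Nat.sqrt m := ⟨_, rfl⟩
  have hs1 : m < (s + 1) * (s + 1) := by rw [hs]; exact Nat.lt_succ_sqrt m
  have hs2 : s ^ 2 ≤ m := by rw [hs, sq]; exact Nat.sqrt_le m
  -- the near loops
  have hnear : ∑ f ∈ F1, q ^ area (2 * m) f ≤ C / τ * q ^ (m ^ 2 / 4) := by
    have g1 : ∀ f ∈ F1, q ^ area (2 * m) f ≤ q ^ (m ^ 2 / 4) * (τ ^ m / τ) := by
      intro f hf
      rw [hF1, mem_filter] at hf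
      obtain ⟨-, h2⟩ := hF f hf.1
      have h3 := sq_mod m
      obtain ⟨p, hp⟩ : ∃ p, m = p + 1 := ⟨m - 1, by omega⟩
      have e1 : m - 1 = p := by omega
      rw [e1] at h2
      have h4 : m ^ 2 = p ^ 2 + 2 * p + 1 := by rw [hp]; ring
      obtain ⟨j, hj⟩ : ∃ j, m ^ 2 / 4 = area (2 * m) f + j :=
        ⟨m ^ 2 / 4 - area (2 * m) f, by omega⟩
      rw [hj]
      have h5 : p ≤ 2 * j := by omega
      have h6 : τ ^ m / τ = τ ^ p := by
        rw [hp, pow_succ, mul_div_assoc, div_self hτ0.ne', mul_one]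
      rw [h6, pow_add]
      have h7 : q ^ j * τ ^ (2 * j) = 1 := by
        rw [pow_mul, ← mul_pow, hτq, one_pow]
      have h8 : τ ^ (2 * j) ≤ τ ^ p := pow_le_pow_of_le_one hτ0.le hτ1.le h5
      calc q ^ area (2 * m) f = q ^ area (2 * m) f * (q ^ j * τ ^ (2 * j)) := by rw [h7, mul_one]
        _ ≤ q ^ area (2 * m) f * (q ^ j * τ ^ p) := by
            apply mul_le_mul_of_nonneg_left _ (by positivity)
            exact mul_le_mul_of_nonneg_left h8 (by positivity)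
        _ = _ := by ring
    have g2 : (F1.card : ℝ) ≤ (3 * ((s + 1 : ℕ) : ℝ)) ^ (66 * (K + 1) * (s + 1)) := by
      have h1 := card_few (M := 2 * m) F1 (R := 32 * (K + 1) * (s + 1)) (by
        intro f hf
        rw [hF1, mem_filter] at hf
        refine ⟨(hF f hf.1).1, ?_⟩
        rw [hs]
        exact near_turns hm (hF f hf.1).1 hf.2)
      have h2 : 4 * (2 * m) + 1 ≤ (3 * (s + 1)) ^ 2 := by
        have e : (3 * (s + 1)) ^ 2 = 9 * ((s + 1) * (s + 1)) := by ring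
        rw [e]
        clear h1 hsplit hF1 hF2 hF hC
        obtain ⟨Q, hQ⟩ : ∃ Q, Q = (s + 1) * (s + 1) := ⟨_, rfl⟩
        rw [← hQ] at hs1 ⊢
        omega
      have h3 : F1.card ≤ (3 * (s + 1)) ^ (66 * (K + 1) * (s + 1)) := by
        refine h1.trans ((Nat.pow_le_pow_left h2 _).trans ?_)
        rw [← pow_mul]
        apply Nat.pow_le_pow_right (by omega)
        have e1 : 2 * (32 * (K + 1) * (s + 1) + 1) = 64 * ((K + 1) * (s + 1)) + 2 := by ring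
        have e2 : 66 * (K + 1) * (s + 1) = 66 * ((K + 1) * (s + 1)) := by ring
        have e3 : 1 ≤ (K + 1) * (s + 1) := Nat.mul_pos (Nat.succ_pos _) (Nat.succ_pos _)
        rw [e1, e2]
        clear h1 h2 e1 e2 hsplit hF1 hF2 hF hC
        omega
      exact_mod_cast h3
    refine (sum_le_sum g1).trans ?_
    rw [sum_const, nsmul_eq_mul]
    have g3 := hC (s + 1) (by omega)
    have e1 : s + 1 - 1 = s := by omega
    rw [e1] at g3
    have g4 : τ ^ m ≤ τ ^ (s ^ 2) := pow_le_pow_of_le_one hτ0.le hτ1.le hs2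
    have g5 : (F1.card : ℝ) * τ ^ m ≤ C := by
      calc (F1.card : ℝ) * τ ^ m
          ≤ (3 * ((s + 1 : ℕ) : ℝ)) ^ (66 * (K + 1) * (s + 1)) * τ ^ (s ^ 2) :=
            mul_le_mul g2 g4 (by positivity) (by positivity)
        _ ≤ C := g3
    calc (F1.card : ℝ) * (q ^ (m ^ 2 / 4) * (τ ^ m / τ))
        = ((F1.card : ℝ) * τ ^ m) * (q ^ (m ^ 2 / 4) / τ) := by ring
      _ ≤ C * (q ^ (m ^ 2 / 4) / τ) := mul_le_mul_of_nonneg_right g5 (by positivity)
      _ = _ := by ring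
  -- the far loops
  have hfar : ∑ f ∈ F2, q ^ area (2 * m) f ≤ 1 * q ^ (m ^ 2 / 4) := by
    have g1 : ∀ f ∈ F2, q ^ area (2 * m) f ≤ q ^ (m ^ 2 / 4) * (1 / 16) ^ m := by
      intro f hf
      rw [hF2, mem_filter] at hf
      obtain ⟨l, hl⟩ : ∃ l, m ^ 2 / 4 = area (2 * m) f + (K * m + l) :=
        ⟨m ^ 2 / 4 - area (2 * m) f - K * m, by omega⟩
      rw [hl, pow_add]
      have h1 : (1 : ℝ) ≤ q ^ (K * m + l) * (1 / 16) ^ m := by
        rw [pow_add, pow_mul]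
        have h2 : (16 : ℝ) ^ m ≤ (q ^ K) ^ m := pow_le_pow_left₀ (by norm_num) hK.le m
        have h3 : (1 : ℝ) ≤ q ^ l := one_le_pow₀ hq.le
        have h4 : (16 : ℝ) ^ m * (1 / 16) ^ m = 1 := by
          rw [← mul_pow]
          norm_num
        calc (1 : ℝ) = (16 : ℝ) ^ m * 1 * (1 / 16) ^ m := by rw [mul_one, h4]
          _ ≤ (q ^ K) ^ m * q ^ l * (1 / 16) ^ m := by
              apply mul_le_mul_of_nonneg_right _ (by positivity)
              exact mul_le_mul h2 h3 zero_le_one (by positivity)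
      calc q ^ area (2 * m) f = q ^ area (2 * m) f * 1 := (mul_one _).symm
        _ ≤ q ^ area (2 * m) f * (q ^ (K * m + l) * (1 / 16) ^ m) :=
            mul_le_mul_of_nonneg_left h1 (by positivity)
        _ = _ := by ring
    refine (sum_le_sum g1).trans ?_
    rw [sum_const, nsmul_eq_mul]
    have h2 : (F2.card : ℝ) ≤ 16 ^ m := by
      have := card_loops F2 (fun f hf => (hF f (mem_filter.1 (by rw [hF2] at hf; exact hf)).1).1)
      rw [pow_mul] at this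
      norm_num at this
      exact_mod_cast this
    have h3 : (16 : ℝ) ^ m * (1 / 16) ^ m = 1 := by
      rw [← mul_pow]
      norm_num
    calc (F2.card : ℝ) * (q ^ (m ^ 2 / 4) * (1 / 16) ^ m)
        ≤ 16 ^ m * (q ^ (m ^ 2 / 4) * (1 / 16) ^ m) :=
          mul_le_mul_of_nonneg_right h2 (by positivity)
      _ = q ^ (m ^ 2 / 4) * (16 ^ m * (1 / 16) ^ m) := by ring
      _ = _ := by rw [h3, mul_one, one_mul]
  rw [hsplit, add_mul]
  exact add_le_add hnear hfar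

end Pool.Agent.Helper365.AL
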