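import Pool.Agent.Helper365.AL.Gen

/-!
The loops that cross every column exactly twice, for all `q > 1`.
-/

set_option autoImplicit false

namespace Pool.Agent.Helper365.AL

open Pool.Agent.Y981.L2 H981 Finset

theorem q_gt {q τ : ℝ} (h0 : 0 < τ) (h1 : τ < 1) (hq : q * τ ^ 2 = 1) : 1 < q := by
  have h2 : τ ^ 2 < 1 := by nlinarith
  have h3 : 0 < τ ^ 2 := by positivity
  by_contra h
  push Not at h
  have : q * τ ^ 2 ≤ 1 * τ ^ 2 := mul_le_mul_of_nonneg_right h h3.le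
  linarith

theorem geo_gen {r : ℝ} (h0 : 0 ≤ r) (h1 : r < 1) (J : ℕ) : ∑ j ∈ range J, r ^ j ≤ 1 / (1 - r) := by
  have h2 : (∑ j ∈ range J, r ^ j) * (1 - r) = 1 - r ^ J := by
    induction J with
    | zero => simp
    | succ J ih => rw [sum_range_succ, add_mul, ih, pow_succ]; ring
  have h3 : 0 ≤ r ^ J := by positivity
  rw [le_div_iff₀ (by linarith)]
  linarith

theorem geo_two_gen {r : ℝ} (h0 : 0 ≤ r) (h1 : r < 1) (J : ℕ) :
    ∑ x ∈ Icc (-(J : ℤ)) J, r ^ x.natAbs ≤ 1 + 2 * r * (1 / (1 - r)) := by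
  have key : ∑ x ∈ Icc (-(J : ℤ)) J, r ^ x.natAbs = 1 + 2 * r * ∑ j ∈ range J, r ^ j := by
    induction J with
    | zero => simp
    | succ J ih =>
      have e1 : Icc (-((J + 1 : ℕ) : ℤ)) ((J + 1 : ℕ) : ℤ) =
          insert (((J + 1 : ℕ) : ℤ)) (insert (-((J + 1 : ℕ) : ℤ)) (Icc (-(J : ℤ)) J)) := by
        ext x
        simp only [mem_Icc, mem_insert]
        push_cast
        omega
      rw [e1, sum_insert, sum_insert, ih, sum_range_succ]
      · have e2 : (-((J + 1 : ℕ) : ℤ)).natAbs = J + 1 := by omega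
        have e3 : (((J + 1 : ℕ) : ℤ)).natAbs = J + 1 := by omega
        rw [e2, e3, pow_succ]
        ring
      · simp only [mem_Icc]
        push_cast
        omega
      · simp only [mem_insert, mem_Icc]
        push_cast
        omega
  rw [key]
  have := mul_le_mul_of_nonneg_left (geo_gen h0 h1 J) (show 0 ≤ 2 * r by linarith)
  linarith

theorem sides_gen {r : ℝ} (r0 : 0 ≤ r) (r1 : r < 1) (b : ℕ) :
    ∑ s ∈ Icc (-(b : ℤ)) b, r ^ ((b : ℤ) - |s|).toNat ≤ 2 * (1 / (1 - r)) := by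
  have h1 : ∀ s ∈ Icc (-(b : ℤ)) b, r ^ ((b : ℤ) - |s|).toNat ≤
      r ^ ((b : ℤ) - s).toNat + r ^ ((b : ℤ) + s).toNat := by
    intro s _
    have p1 : (0 : ℝ) ≤ r ^ ((b : ℤ) - s).toNat := by positivity
    have p2 : (0 : ℝ) ≤ r ^ ((b : ℤ) + s).toNat := by positivity
    rcases le_total 0 s with g | g
    · rw [abs_of_nonneg g]; linarith
    · rw [abs_of_nonpos g, sub_neg_eq_add]; linarith
  refine (sum_le_sum h1).trans ?_
  rw [sum_add_distrib]
  have h2 : ∑ s ∈ Icc (-(b : ℤ)) b, r ^ ((b : ℤ) - s).toNat =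
      ∑ j ∈ range (2 * b + 1), r ^ j := by
    refine sum_nbij' (fun s => ((b : ℤ) - s).toNat) (fun j => (b : ℤ) - j) ?_ ?_ ?_ ?_ ?_
    · intro s hs; rw [mem_Icc] at hs; rw [mem_range]; omega
    · intro j hj; rw [mem_range] at hj; rw [mem_Icc]; omega
    · intro s hs; rw [mem_Icc] at hs; omega
    · intro j hj; rw [mem_range] at hj; omega
    · intro s hs; rfl
  have h3 : ∑ s ∈ Icc (-(b : ℤ)) b, r ^ ((b : ℤ) + s).toNat =
      ∑ j ∈ range (2 * b + 1), r ^ j := by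
    refine sum_nbij' (fun s => ((b : ℤ) + s).toNat) (fun j => (j : ℤ) - b) ?_ ?_ ?_ ?_ ?_
    · intro s hs; rw [mem_Icc] at hs; rw [mem_range]; omega
    · intro j hj; rw [mem_range] at hj; rw [mem_Icc]; omega
    · intro s hs; rw [mem_Icc] at hs; omega
    · intro j hj; rw [mem_range] at hj; omega
    · intro s hs; rfl
  rw [h2, h3]
  have := geo_gen r0 r1 (2 * b + 1)
  linarith

/-- the sum over the increments -/
theorem incr_gen {τ : ℝ} (h0 : 0 < τ) (h1 : τ < 1) (n J : ℕ) :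
    ∑ G ∈ Fintype.piFinset (fun _ : Fin n × Bool => Icc (-(J : ℤ)) J),
      ∏ x : Fin n × Bool, (τ ^ (min ((x.1 : ℕ) + 1) (n - x.1))) ^ (G x).natAbs ≤
      Real.exp (8 * (1 / (1 - τ)) ^ 2) := by
  classical
  obtain ⟨κ, hκ⟩ : ∃ κ, κ = 1 / (1 - τ) := ⟨_, rfl⟩
  have hκ0 : 0 < κ := by
    rw [hκ]
    have : 0 < 1 - τ := by linarith
    positivity
  rw [← hκ]
  rw [← prod_univ_sum (fun _ : Fin n × Bool => Icc (-(J : ℤ)) J)
    (fun x y => (τ ^ (min ((x.1 : ℕ) + 1) (n - x.1))) ^ y.natAbs)]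
  have h2 : ∀ x ∈ (univ : Finset (Fin n × Bool)),
      ∑ y ∈ Icc (-(J : ℤ)) J, (τ ^ (min ((x.1 : ℕ) + 1) (n - x.1))) ^ y.natAbs ≤
        Real.exp (2 * κ * τ ^ (min ((x.1 : ℕ) + 1) (n - x.1))) := by
    intro x _
    obtain ⟨r, hr⟩ : ∃ r, r = τ ^ (min ((x.1 : ℕ) + 1) (n - x.1)) := ⟨_, rfl⟩
    rw [← hr]
    have g0 : 0 ≤ r := by rw [hr]; positivity
    have g1 : r ≤ τ := by
      rw [hr]
      have h3 : 1 ≤ min ((x.1 : ℕ) + 1) (n - x.1) := by
        have := x.1.2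
        omega
      have := pow_le_pow_of_le_one h0.le h1.le h3
      rw [pow_one] at this
      exact this
    refine (geo_two_gen g0 (by linarith) J).trans ?_
    have g2 : 1 / (1 - r) ≤ κ := by
      rw [hκ]
      exact one_div_le_one_div_of_le (by linarith) (by linarith)
    have g3 := mul_le_mul_of_nonneg_left g2 (show 0 ≤ 2 * r by linarith)
    have g4 := Real.add_one_le_exp (2 * κ * r)
    linarith
  refine (prod_le_prod (fun x _ => sum_nonneg (fun y _ => by positivity)) h2).trans ?_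
  rw [← Real.exp_sum, Fintype.sum_prod_type]
  apply Real.exp_le_exp.2
  have h3 : ∑ x : Fin n, ∑ _y : Bool, 2 * κ * τ ^ (min ((x : ℕ) + 1) (n - x)) =
      4 * κ * ∑ c ∈ range n, τ ^ (min (c + 1) (n - c)) := by
    rw [← Fin.sum_univ_eq_sum_range (fun c => τ ^ (min (c + 1) (n - c))), mul_sum]
    apply sum_congr rfl
    intro x _
    simp only [sum_const, card_univ, Fintype.card_bool, nsmul_eq_mul]
    push_cast
    ring
  simp only at h3 ⊢
  rw [h3]
  have h4 : ∑ c ∈ range n, τ ^ (min (c + 1) (n - c)) ≤ 2 * κ := by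
    have h5 : ∀ c ∈ range n, τ ^ (min (c + 1) (n - c)) ≤ τ ^ c + τ ^ (n - 1 - c) := by
      intro c hc
      rw [mem_range] at hc
      have p1 : (0 : ℝ) ≤ τ ^ c := by positivity
      have p2 : (0 : ℝ) ≤ τ ^ (n - 1 - c) := by positivity
      rcases le_total (c + 1) (n - c) with g | g
      · rw [min_eq_left g]
        have : τ ^ (c + 1) ≤ τ ^ c := pow_le_pow_of_le_one h0.le h1.le (by omega)
        linarith
      · rw [min_eq_right g]
        have : τ ^ (n - c) ≤ τ ^ (n - 1 - c) := pow_le_pow_of_le_one h0.le h1.le (by omega)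
        linarith
    refine (sum_le_sum h5).trans ?_
    rw [sum_add_distrib, sum_range_reflect (fun c => τ ^ c) n]
    have := geo_gen h0.le h1 n
    rw [← hκ] at this
    linarith
  have h5 := mul_le_mul_of_nonneg_left h4 (show 0 ≤ 4 * κ by linarith)
  calc 4 * κ * ∑ c ∈ range n, τ ^ (min (c + 1) (n - c)) ≤ 4 * κ * (2 * κ) := h5
    _ = _ := by ring

/-- the weight of a code -/
noncomputable def Hg (q τ : ℝ) (n B : ℕ) (s : ℤ) (G : Fin n × Bool → ℤ) : ℝ :=
  q ^ ((n + 1) * B) * (τ ^ ((B : ℤ) - |s|).toNat *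
    ∏ x : Fin n × Bool, (τ ^ (min ((x.1 : ℕ) + 1) (n - x.1))) ^ (G x).natAbs)

theorem weight_gen {q τ : ℝ} (hτ0 : 0 < τ) (hτ1 : τ < 1) (hq : q * τ ^ 2 = 1) {n B A : ℕ}
    (y z : ℕ → ℤ) (hy : y 0 = 0)
    (htv : |y 0 - z 0| + |y n - z n| +
      ∑ c ∈ range n, (|y (c + 1) - y c| + |z (c + 1) - z c|) ≤ 2 * (B : ℤ))
    (hA : (A : ℤ) ≤ ∑ c ∈ range (n + 1), |y c - z c|) :
    q ^ A ≤ Hg q τ n B (z 0) (inc n y z) := by
  have hq1' : 1 < q := q_gt hτ0 hτ1 hq
  have hq0 : 0 < q := by linarith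
  have hq1 : 1 ≤ q := by linarith
  obtain ⟨δ, hδ⟩ : ∃ δ : ℕ → ℤ, δ = fun c => |y (c + 1) - y c| + |z (c + 1) - z c| := ⟨_, rfl⟩
  have hδe : ∀ c, δ c = |y (c + 1) - y c| + |z (c + 1) - z c| := fun c => by rw [hδ]
  have hδs : ∑ c ∈ range n, (|y (c + 1) - y c| + |z (c + 1) - z c|) = ∑ c ∈ range n, δ c :=
    sum_congr rfl (fun c _ => (hδe c).symm)
  rw [hδs] at htv
  have hE := energy (n := n) (b := (B : ℤ)) y z δ hδe htv
  obtain ⟨V, hV⟩ : ∃ V, V = ∑ c ∈ range n, δ c := ⟨_, rfl⟩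
  obtain ⟨E2, hE2⟩ : ∃ E2, E2 = ∑ c ∈ range n, min ((c : ℤ) + 1) (n - c) * δ c := ⟨_, rfl⟩
  have hz0 : |y 0 - z 0| = |z 0| := by rw [hy, zero_sub, abs_neg]
  rw [← hV, ← hE2, hz0] at hE
  -- natural numbers
  obtain ⟨Vn, hVn⟩ : ∃ Vn : ℕ, Vn = ∑ x : Fin n × Bool, (inc n y z x).natAbs := ⟨_, rfl⟩
  obtain ⟨En, hEn⟩ : ∃ En : ℕ, En =
    ∑ x : Fin n × Bool, min ((x.1 : ℕ) + 1) (n - x.1) * (inc n y z x).natAbs := ⟨_, rfl⟩
  have hV2 : (Vn : ℤ) = V := by
    have h1 := inc_sum n y z (fun _ => 1)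
    simp only [one_mul] at h1
    rw [hδs, ← hV] at h1
    rw [hVn, ← h1]
    push_cast
    rfl
  have hEn2 : (En : ℤ) = E2 := by
    have h1 := inc_sum n y z (fun c => min ((c : ℤ) + 1) (n - c))
    have h2 : ∑ c ∈ range n, min ((c : ℤ) + 1) (n - c) *
        (|y (c + 1) - y c| + |z (c + 1) - z c|) = E2 := by
      rw [hE2]
      exact sum_congr rfl (fun c _ => by rw [hδe])
    rw [h2] at h1
    rw [hEn, ← h1]
    push_cast
    apply sum_congr rfl
    intro x _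
    have : ((n - (x.1 : ℕ) : ℕ) : ℤ) = (n : ℤ) - (x.1 : ℕ) := by
      rw [Nat.cast_sub x.1.2.le]
    rw [this]
  obtain ⟨E1, hE1⟩ : ∃ E1, E1 = (max ((B : ℤ) - |z 0| - V) 0).toNat := ⟨_, rfl⟩
  have hE1' : (E1 : ℤ) = max ((B : ℤ) - |z 0| - V) 0 := by
    rw [hE1, Int.toNat_of_nonneg (le_max_right _ _)]
  rw [← hE1', ← hEn2] at hE
  have htot : A + (E1 + En) ≤ (n + 1) * B := by
    have : (A : ℤ) + (E1 + En) ≤ (n + 1) * B := by linarith
    exact_mod_cast this
  have h1 : q ^ A ≤ q ^ ((n + 1) * B) * (1 / q) ^ (E1 + En) := by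
    have e1 : q ^ A = q ^ (A + (E1 + En)) * (1 / q) ^ (E1 + En) := by
      rw [pow_add, mul_assoc, ← mul_pow, mul_one_div_cancel hq0.ne', one_pow, mul_one]
    rw [e1]
    exact mul_le_mul_of_nonneg_right (pow_le_pow_right₀ hq1 htot) (by positivity)
  refine h1.trans ?_
  unfold Hg
  apply mul_le_mul_of_nonneg_left _ (by positivity)
  have hτq : 1 / q = τ ^ 2 := by
    rw [div_eq_iff hq0.ne', mul_comm]
    exact hq.symm
  rw [hτq, ← pow_mul]
  have h2 : ∏ x : Fin n × Bool,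
      (τ ^ (min ((x.1 : ℕ) + 1) (n - x.1))) ^ (inc n y z x).natAbs = τ ^ En := by
    rw [hEn, ← prod_pow_eq_pow_sum]
    apply prod_congr rfl
    intro x _
    rw [pow_mul]
  rw [h2, ← pow_add]
  apply pow_le_pow_of_le_one hτ0.le hτ1.le
  have h5 : ((B : ℤ) - |z 0|).toNat ≤ E1 + Vn := by
    have := le_max_left ((B : ℤ) - |z 0| - V) 0
    omega
  have h6 : Vn ≤ En := by
    rw [hVn, hEn]
    apply sum_le_sum
    intro x _
    have h7 : 1 ≤ min ((x.1 : ℕ) + 1) (n - x.1) := by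
      have := x.1.2
      omega
    exact Nat.le_mul_of_pos_left _ h7
  omega

/-- **the sum over the loops that cross every column exactly twice** -/
theorem fine_gen {q τ : ℝ} (hτ0 : 0 < τ) (hτ1 : τ < 1) (hq : q * τ ^ 2 = 1) {m n : ℕ}
    (hm : 1 ≤ m) [NeZero (2 * m)]
    (F : Finset (ZMod (2 * m) → ℤ × ℤ))
    (hF : ∀ f ∈ F, IsLoop (2 * m) f ∧ width (2 * m) f = n + 1 ∧ hz (2 * m) f = 2 * (n + 1)) :
    ∑ f ∈ F, q ^ area (2 * m) f ≤
      4 * (1 / (1 - τ)) * Real.exp (8 * (1 / (1 - τ)) ^ 2) * m *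
        q ^ ((n + 1) * (m - (n + 1))) := by
  classical
  have hq1 : 1 < q := q_gt hτ0 hτ1 hq
  have hq0 : 0 < q := by linarith
  have hk0 : 0 < 1 / (1 - τ) := by
    have : 0 < 1 - τ := by linarith
    positivity
  have hdata : ∀ f : ZMod (2 * m) → ℤ × ℤ, f ∈ F → ∃ (k : ZMod (2 * m)) (e w : ℕ → ℕ),
      Cy (2 * m) (n + 1) (pt f k) ∧ Sh (2 * m) (n + 1) (pt f k) e w := by
    intro f hf
    obtain ⟨h1, h2, h3⟩ := hF f hf
    obtain ⟨k, hk⟩ := root hm h1 (by omega)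
    rw [h2] at hk
    obtain ⟨e, w, hs⟩ := shape hk (by omega) (by rw [hz_eq, h3])
    exact ⟨k, e, w, hk, hs⟩
  choose! k e w hcy hsh using hdata
  obtain ⟨B, hB⟩ : ∃ B, B = m - (n + 1) := ⟨_, rfl⟩
  rw [← hB]
  let Y : (ZMod (2 * m) → ℤ × ℤ) → ℕ → ℤ := fun f c => (pt f (k f) (e f c)).2
  let Z : (ZMod (2 * m) → ℤ × ℤ) → ℕ → ℤ := fun f c => (pt f (k f) (w f c)).2
  have hY0 : ∀ f ∈ F, Y f 0 = 0 := by
    intro f hf
    simp only [Y]
    rw [(hsh f hf).e0, pt_zero]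
  have htv : ∀ f ∈ F, |Y f 0 - Z f 0| + |Y f n - Z f n| +
      ∑ c ∈ range n, (|Y f (c + 1) - Y f c| + |Z f (c + 1) - Z f c|) ≤ 2 * (B : ℤ) ∧
      n + 1 ≤ m := by
    intro f hf
    have h1 := tv (hcy f hf) (hsh f hf)
    have h2 : 0 ≤ |Y f 0 - Z f 0| + |Y f n - Z f n| +
      ∑ c ∈ range n, (|Y f (c + 1) - Y f c| + |Z f (c + 1) - Z f c|) := by positivity
    have h3 : (0 : ℤ) ≤ ((2 * m : ℕ) : ℤ) - 2 * (n + 1) := h2.trans h1
    have h4 : n + 1 ≤ m := by omega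
    refine ⟨h1.trans (le_of_eq ?_), h4⟩
    rw [hB, Nat.cast_sub h4]
    push_cast
    ring
  let code : (ZMod (2 * m) → ℤ × ℤ) → ZMod (2 * m) × ℤ × (Fin n × Bool → ℤ) :=
    fun f => (k f, Z f 0, inc n (Y f) (Z f))
  let T : Finset (ZMod (2 * m) × ℤ × (Fin n × Bool → ℤ)) :=
    univ ×ˢ Icc (-(B : ℤ)) B ×ˢ
      Fintype.piFinset (fun _ : Fin n × Bool => Icc (-((2 * m : ℕ) : ℤ)) (2 * m : ℕ))
  let H : ZMod (2 * m) × ℤ × (Fin n × Bool → ℤ) → ℝ := fun c => Hg q τ n B c.2.1 c.2.2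
  have hH0 : ∀ c, 0 ≤ H c := by
    intro c
    simp only [H, Hg]
    positivity
  have hle : ∀ f ∈ F, q ^ area (2 * m) f ≤ H (code f) := by
    intro f hf
    exact weight_gen hτ0 hτ1 hq (Y f) (Z f) (hY0 f hf) (htv f hf).1
      (area_sh (hF f hf).1 (hcy f hf) (hsh f hf))
  have hmem : ∀ f ∈ F, code f ∈ T := by
    intro f hf
    obtain ⟨h1, h2⟩ := htv f hf
    have h3 := tri (Y f) (Z f) n
    have h4 := hY0 f hf
    have h5 : |Y f 0 - Z f 0| = |Z f 0| := by rw [h4, zero_sub, abs_neg]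
    rw [h5] at h1 h3
    have h6 : |Z f 0| ≤ B := by omega
    rw [abs_le] at h6
    simp only [T, code]
    rw [mem_product, mem_product]
    refine ⟨mem_univ _, mem_Icc.2 h6, ?_⟩
    rw [Fintype.mem_piFinset]
    intro x
    rw [mem_Icc, ← abs_le]
    have h7 := inc_sum n (Y f) (Z f) (fun _ => 1)
    simp only [one_mul] at h7
    have h8 : |inc n (Y f) (Z f) x| ≤ ∑ x : Fin n × Bool, |inc n (Y f) (Z f) x| :=
      single_le_sum (f := fun x' => |inc n (Y f) (Z f) x'|) (fun x _ => abs_nonneg _) (mem_univ x)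
    have h9 := abs_nonneg (Z f 0)
    have h10 := abs_nonneg (Y f n - Z f n)
    rw [h7] at h8
    have h11 : (B : ℤ) ≤ m := by rw [hB]; omega
    push_cast
    omega
  have hinj : Set.InjOn code F := by
    intro f hf g hg hfg
    rw [Finset.mem_coe] at hf hg
    simp only [code, Prod.mk.injEq] at hfg
    obtain ⟨h1, h2, h3⟩ := hfg
    have hYY : ∀ c, c < n + 1 → Y f c = Y g c := by
      intro c
      induction c with
      | zero => intro _; rw [hY0 f hf, hY0 g hg]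
      | succ c ih =>
        intro hc
        have h4 := congrFun h3 (⟨c, by omega⟩, false)
        unfold inc at h4
        simp only [Bool.false_eq_true, if_false] at h4
        have := ih (by omega)
        omega
    have hZZ : ∀ c, c < n + 1 → Z f c = Z g c := by
      intro c
      induction c with
      | zero => intro _; exact h2
      | succ c ih =>
        intro hc
        have h4 := congrFun h3 (⟨c, by omega⟩, true)
        unfold inc at h4
        simp only [if_true] at h4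
        have := ih (by omega)
        omega
    have h5 := uniq (hcy f hf) (hcy g hg) (hsh f hf) (hsh g hg) (by omega) hYY hZZ
    have hf0 := (hF f hf).1.1
    have hg0 := (hF g hg).1.1
    have h6 : ∀ l : ZMod (2 * m), (f l).1 - (f (k f)).1 = (g l).1 - (g (k g)).1 ∧
        (f l).2 - (f (k f)).2 = (g l).2 - (g (k g)).2 := by
      intro l
      have h7 := h5 (l - k f).val (ZMod.val_lt _).le
      unfold pt at h7
      rw [ZMod.natCast_zmod_val, add_sub_cancel, ← h1, add_sub_cancel] at h7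
      simp only [Prod.mk.injEq] at h7
      rw [← h1]
      exact h7
    have h8 := h6 0
    rw [hf0, hg0] at h8
    funext l
    have h9 := h6 l
    apply Prod.ext <;> omega
  calc ∑ f ∈ F, q ^ area (2 * m) f ≤ ∑ f ∈ F, H (code f) := sum_le_sum hle
    _ = ∑ c ∈ F.image code, H c := (sum_image hinj).symm
    _ ≤ ∑ c ∈ T, H c := sum_le_sum_of_subset_of_nonneg
        (fun c hc => by
          rw [mem_image] at hc
          obtain ⟨f, hf, rfl⟩ := hc
          exact hmem f hf) (fun c _ _ => hH0 c)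
    _ = (2 * m : ℕ) * (q ^ ((n + 1) * B) *
        ((∑ s ∈ Icc (-(B : ℤ)) B, τ ^ ((B : ℤ) - |s|).toNat) *
          ∑ G ∈ Fintype.piFinset (fun _ : Fin n × Bool => Icc (-((2 * m : ℕ) : ℤ)) (2 * m : ℕ)),
            ∏ x : Fin n × Bool, (τ ^ (min ((x.1 : ℕ) + 1) (n - x.1))) ^ (G x).natAbs)) := by
        simp only [T, H, Hg]
        rw [sum_product]
        simp only
        rw [sum_const, card_univ, ZMod.card, nsmul_eq_mul, sum_product]
        congr 1
        rw [sum_mul_sum, mul_sum]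
        apply sum_congr rfl
        intro s _
        rw [mul_sum]
    _ ≤ (2 * m : ℕ) * (q ^ ((n + 1) * B) *
        (2 * (1 / (1 - τ)) * Real.exp (8 * (1 / (1 - τ)) ^ 2))) := by
        apply mul_le_mul_of_nonneg_left _ (Nat.cast_nonneg _)
        apply mul_le_mul_of_nonneg_left _ (by positivity)
        exact mul_le_mul (sides_gen hτ0.le hτ1 B) (incr_gen hτ0 hτ1 n (2 * m))
          (sum_nonneg (fun G _ => prod_nonneg (fun x _ => by positivity)))
          (by positivity)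
    _ = _ := by push_cast; ring

end Pool.Agent.Helper365.AL
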