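import Pool.Agent.Helper365.AL.Uni
import Pool.Agent.Y981.L2.Area5

/-!
From loops to closed paths: roots, horizontal steps, the area.
-/

set_option autoImplicit false

namespace Pool.Agent.Helper365.AL

open Pool.Agent.Y981.L2 H981

/-- the loop read from `k` -/
def pt {M : ℕ} (f : ZMod M → ℤ × ℤ) (k : ZMod M) (i : ℕ) : ℤ × ℤ :=
  ((f (k + i)).1 - (f k).1, (f (k + i)).2 - (f k).2)

/-- the number of horizontal steps -/
noncomputable def hz (M : ℕ) [NeZero M] (f : ZMod M → ℤ × ℤ) : ℕ :=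
  (Finset.univ.filter (fun k : ZMod M => (f (k + 1)).1 ≠ (f k).1)).card

variable {M : ℕ} {f : ZMod M → ℤ × ℤ}

theorem pt_zero (k : ZMod M) : pt f k 0 = (0, 0) := by
  unfold pt; simp

theorem pt_last (k : ZMod M) : pt f k M = (0, 0) := by
  unfold pt; simp

theorem pt_step (hf : IsLoop M f) (k : ZMod M) (i : ℕ) :
    |(pt f k (i + 1)).1 - (pt f k i).1| + |(pt f k (i + 1)).2 - (pt f k i).2| = 1 := by
  have := hf.2.2 (k + i)
  unfold pt
  simp only
  push_cast
  rw [← add_assoc]
  have e1 : (f (k + i + 1)).1 - (f k).1 - ((f (k + i)).1 - (f k).1) =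
      (f (k + i + 1)).1 - (f (k + i)).1 := by ring
  have e2 : (f (k + i + 1)).2 - (f k).2 - ((f (k + i)).2 - (f k).2) =
      (f (k + i + 1)).2 - (f (k + i)).2 := by ring
  rw [e1, e2]
  exact this

theorem pt_inj (hf : IsLoop M f) (k : ZMod M) {i j : ℕ} (hij : i < j) (hj : j < M) :
    pt f k i ≠ pt f k j := by
  intro h
  unfold pt at h
  simp only [Prod.mk.injEq] at h
  have h1 : f (k + i) = f (k + j) := Prod.ext (by omega) (by omega)
  have h2 := hf.2.1 h1
  have h3 : (i : ZMod M) = j := add_left_cancel h2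
  rw [ZMod.natCast_eq_natCast_iff'] at h3
  rw [Nat.mod_eq_of_lt (by omega), Nat.mod_eq_of_lt hj] at h3
  omega

theorem width_eq {n : ℕ} (hn : 1 ≤ n) {f : ZMod (2 * n) → ℤ × ℤ} (hf : IsLoop (2 * n) f) :
    ∃ i j, (∀ k, (f i).1 ≤ (f k).1) ∧ (∀ k, (f k).1 ≤ (f j).1) ∧
      (f j).1 = (f i).1 + width (2 * n) f := by
  have : NeZero (2 * n) := ⟨by omega⟩
  obtain ⟨j, h1⟩ := Finite.exists_max (fun k : ZMod (2 * n) => (f k).1)
  obtain ⟨i, h3⟩ := Finite.exists_min (fun k : ZMod (2 * n) => (f k).1)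
  refine ⟨i, j, h3, h1, ?_⟩
  have h4 := h3 j
  have h6 : ((f j).1 - (f i).1).natAbs ≤ width (2 * n) f :=
    le_csSup (width_set hn hf) ⟨j, i, rfl⟩
  have h7 : width (2 * n) f ≤ ((f j).1 - (f i).1).natAbs := by
    unfold width
    refine csSup_le (s := {w : ℕ | ∃ i j, w = ((f i).1 - (f j).1).natAbs}) ⟨_, 0, 0, rfl⟩ ?_
    rintro w ⟨i', j', rfl⟩
    have g1 := h1 i'
    have g2 := h3 i'
    have g3 := h1 j'
    have g4 := h3 j'
    omega
  omega

/-- there is a root -/
theorem root {n : ℕ} (hn : 1 ≤ n) {f : ZMod (2 * n) → ℤ × ℤ} (hf : IsLoop (2 * n) f)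
    (hw : 1 ≤ width (2 * n) f) :
    ∃ k, Cy (2 * n) (width (2 * n) f) (pt f k) := by
  have : NeZero (2 * n) := ⟨by omega⟩
  obtain ⟨i, j, h1, h2, h3⟩ := width_eq hn hf
  have hT : ∀ k : ZMod (2 * n), (f k).1 = (f i).1 → (pt f k (j - k).val).1 = width (2 * n) f := by
    intro k hk
    unfold pt
    rw [ZMod.natCast_zmod_val, add_sub_cancel]
    simp only
    omega
  obtain ⟨e, w, g1, -, -⟩ := passages (M := 2 * n) (a := width (2 * n) f)
    (x := fun l => (pt f i l).1) (by simp only [pt_zero]) (by simp only [pt_last])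
    (fun l _ => by
      have := pt_step hf i l
      have h2 := abs_nonneg ((pt f i (l + 1)).2 - (pt f i l).2)
      omega) (ZMod.val_lt (j - i)).le (hT i rfl)
  obtain ⟨-, k1, k2, -⟩ := g1 0 hw
  refine ⟨i + (e 0 : ZMod (2 * n)), pt_zero _, pt_last _, fun l _ => pt_step hf _ l,
    fun a b hab hb => pt_inj hf _ hab hb, ?_, ⟨_, (ZMod.val_lt (j - (i + (e 0 : ZMod (2 * n))))).le,
      hT _ ?_⟩⟩
  · unfold pt at k1 k2 ⊢
    simp only at k1 k2 ⊢
    push_cast at k1 k2 ⊢
    rw [← add_assoc] at k2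
    omega
  · unfold pt at k1
    simp only at k1
    push_cast at k1
    omega

theorem hz_eq {M : ℕ} [NeZero M] (f : ZMod M → ℤ × ℤ) (k : ZMod M) :
    ((Finset.range M).filter (fun i => (pt f k (i + 1)).1 ≠ (pt f k i).1)).card = hz M f := by
  classical
  unfold hz
  refine Finset.card_nbij' (fun i => k + (i : ZMod M)) (fun l => (l - k).val) ?_ ?_ ?_ ?_
  · intro i hi
    rw [Finset.mem_coe, Finset.mem_filter, Finset.mem_range] at hi
    rw [Finset.mem_coe, Finset.mem_filter]
    refine ⟨Finset.mem_univ _, ?_⟩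
    have := hi.2
    unfold pt at this
    simp only at this
    push_cast at this
    rw [← add_assoc] at this
    intro he
    apply this
    rw [he]
  · intro l hl
    rw [Finset.mem_coe, Finset.mem_filter] at hl
    rw [Finset.mem_coe, Finset.mem_filter, Finset.mem_range]
    refine ⟨ZMod.val_lt _, ?_⟩
    have := hl.2
    unfold pt
    simp only
    push_cast
    rw [ZMod.natCast_zmod_val, add_sub_cancel, ← add_assoc, add_sub_cancel]
    intro he
    apply this
    omega
  · intro i hi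
    rw [Finset.mem_coe, Finset.mem_filter, Finset.mem_range] at hi
    simp only [add_sub_cancel_left]
    exact ZMod.val_cast_of_lt hi.1
  · intro l hl
    simp only
    rw [ZMod.natCast_zmod_val, add_sub_cancel]

theorem hz_add {M : ℕ} [NeZero M] {f : ZMod M → ℤ × ℤ} (hf : IsLoop M f) :
    hz M f + hz M (swp f) = M := by
  classical
  unfold hz
  have h1 : (Finset.univ.filter (fun k : ZMod M => (swp f (k + 1)).1 ≠ (swp f k).1)) =
      Finset.univ.filter (fun k : ZMod M => ¬ ((f (k + 1)).1 ≠ (f k).1)) := by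
    ext k
    simp only [Finset.mem_filter, Finset.mem_univ, true_and, not_not]
    unfold swp
    simp only
    have := hf.2.2 k
    constructor
    · intro h
      have h2 : 1 ≤ |(f (k + 1)).2 - (f k).2| := by
        rw [← Int.zero_add 1, Int.add_one_le_iff, abs_pos]
        omega
      have h3 : |(f (k + 1)).1 - (f k).1| = 0 := by
        have := abs_nonneg ((f (k + 1)).1 - (f k).1)
        omega
      rw [abs_eq_zero] at h3
      omega
    · intro h h2
      rw [h, h2] at this
      simp at this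
  rw [h1, Finset.card_filter_add_card_filter_not, Finset.card_univ, ZMod.card]

theorem two_width_le {n : ℕ} (hn : 1 ≤ n) [NeZero (2 * n)] {f : ZMod (2 * n) → ℤ × ℤ}
    (hf : IsLoop (2 * n) f) : 2 * width (2 * n) f ≤ hz (2 * n) f := by
  rcases Nat.eq_zero_or_pos (width (2 * n) f) with h | h
  · omega
  · obtain ⟨k, hk⟩ := root hn hf h
    rw [← hz_eq f k]
    exact two_a_le hk

/-- loops are small or cross every column exactly twice -/
theorem dicho {m : ℕ} (hm : 1 ≤ m) [NeZero (2 * m)] {f : ZMod (2 * m) → ℤ × ℤ}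
    (hf : IsLoop (2 * m) f) : 4 * area (2 * m) f ≤ (m - 1) ^ 2 ∨
      (1 ≤ width (2 * m) f ∧ hz (2 * m) f = 2 * width (2 * m) f) := by
  have h1 := two_width_le hm hf
  have h2 := two_width_le hm (swp_loop hf)
  have h3 := hz_add hf
  have h4 := area_le_wh hm hf
  obtain ⟨a, ha⟩ : ∃ a, a = width (2 * m) f := ⟨_, rfl⟩
  obtain ⟨b, hb⟩ : ∃ b, b = width (2 * m) (swp f) := ⟨_, rfl⟩
  rw [← ha] at h1 h4 ⊢
  rw [← hb] at h2 h4
  rcases Nat.eq_zero_or_pos a with h | h
  · left
    rw [h, zero_mul] at h4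
    have : area (2 * m) f = 0 := by omega
    rw [this]
    positivity
  · rcases h1.eq_or_lt with g | g
    · exact Or.inr ⟨h, g.symm⟩
    · left
      have h5 : a + b ≤ m - 1 := by omega
      calc 4 * area (2 * m) f ≤ 4 * (a * b) := Nat.mul_le_mul_left _ h4
        _ ≤ (a + b) ^ 2 := by
            have h6 : 4 * ((a : ℤ) * b) ≤ ((a : ℤ) + b) ^ 2 := by
              nlinarith [sq_nonneg ((a : ℤ) - b)]
            exact_mod_cast h6
        _ ≤ _ := Nat.pow_le_pow_left h5 2

/-- the enclosed cells of a loop that crosses every column exactly twice -/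
theorem encl_sh {M a : ℕ} [NeZero M] {f : ZMod M → ℤ × ℤ} (hf : IsLoop M f) {k : ZMod M}
    {e w : ℕ → ℕ} (h : Cy M a (pt f k)) (s : Sh M a (pt f k) e w) {X Y : ℤ}
    (hE : Encl M f (X, Y)) : ∃ c, c < a ∧ X = (f k).1 + c ∧
      (f k).2 + min (pt f k (e c)).2 (pt f k (w c)).2 ≤ Y ∧
      Y < (f k).2 + max (pt f k (e c)).2 (pt f k (w c)).2 := by
  classical
  unfold Encl at hE
  simp only at hE
  have hcard : Nat.card {k' : ZMod M // Above M f X Y k'} =
      {k' : ZMod M | Above M f X Y k'}.ncard := rfl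
  rw [hcard] at hE
  have hval : ∀ k' : ZMod M, k + (((k' - k).val : ℕ) : ZMod M) = k' := by
    intro k'
    rw [ZMod.natCast_zmod_val, add_sub_cancel]
  -- members are crossings
  have hmem : ∀ k' : ZMod M, Above M f X Y k' → ∃ c, c < a ∧ X = (f k).1 + c ∧
      (k' = k + (e c : ZMod M) ∨ k' = k + (w c : ZMod M)) := by
    intro k' hk'
    obtain ⟨i, hi⟩ : ∃ i, i = (k' - k).val := ⟨_, rfl⟩
    have hk2 := hval k'
    rw [← hi] at hk2
    have hiM : i < M := by rw [hi]; exact ZMod.val_lt _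
    have e1 : (pt f k i).1 = (f k').1 - (f k).1 := by unfold pt; rw [hk2]
    have e2 : (pt f k (i + 1)).1 = (f (k' + 1)).1 - (f k).1 := by
      unfold pt
      push_cast
      rw [← add_assoc, hk2]
    unfold Above at hk'
    have hne : (pt f k (i + 1)).1 ≠ (pt f k i).1 := by
      rw [e1, e2]
      rcases hk'.1 with ⟨g1, g2⟩ | ⟨g1, g2⟩ <;> omega
    rcases s.hor i hiM hne with ⟨c, hc, hic⟩ | ⟨c, hc, hic⟩
    · obtain ⟨-, m1, m2, -⟩ := s.ee c hc
      rw [← hic] at m1 m2
      refine ⟨c, hc, ?_, Or.inl (by rw [← hic, hk2])⟩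
      rcases hk'.1 with ⟨g1, g2⟩ | ⟨g1, g2⟩ <;> omega
    · obtain ⟨-, -, -, -, m1, m2, -⟩ := s.ee c hc
      rw [← hic] at m1 m2
      refine ⟨c, hc, ?_, Or.inr (by rw [← hic, hk2])⟩
      rcases hk'.1 with ⟨g1, g2⟩ | ⟨g1, g2⟩ <;> omega
  have hne : {k' : ZMod M | Above M f X Y k'}.Nonempty := by
    by_contra hn
    rw [Set.not_nonempty_iff_eq_empty] at hn
    rw [hn, Set.ncard_empty] at hE
    exact absurd hE (by decide)
  obtain ⟨k1, hk1⟩ := hne
  obtain ⟨c, hc, hX, -⟩ := hmem k1 hk1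
  obtain ⟨a1, a2, a3, a4, a5, a6, a7⟩ := s.ee c hc
  refine ⟨c, hc, hX, ?_⟩
  have hE1 : Above M f X Y (k + (e c : ZMod M)) ↔ Y < (f k).2 + (pt f k (e c)).2 := by
    unfold Above
    unfold pt at a2 a3 ⊢
    simp only at a2 a3 ⊢
    push_cast at a3
    rw [← add_assoc] at a3
    constructor
    · rintro ⟨-, g⟩; omega
    · intro g
      exact ⟨Or.inl ⟨by omega, by omega⟩, by omega⟩
  have hW1 : Above M f X Y (k + (w c : ZMod M)) ↔ Y < (f k).2 + (pt f k (w c)).2 := by
    unfold Above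
    unfold pt at a5 a6 ⊢
    simp only at a5 a6 ⊢
    push_cast at a6
    rw [← add_assoc] at a6
    constructor
    · rintro ⟨-, g⟩; omega
    · intro g
      exact ⟨Or.inr ⟨by omega, by omega⟩, by omega⟩
  have hsub : ∀ k', Above M f X Y k' → k' = k + (e c : ZMod M) ∨ k' = k + (w c : ZMod M) := by
    intro k' hk'
    obtain ⟨c', hc', hX', g⟩ := hmem k' hk'
    have : c' = c := by omega
    rw [this] at g
    exact g
  constructor
  · by_contra hlt
    push Not at hlt
    have g1 : Above M f X Y (k + (e c : ZMod M)) := hE1.2 (by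
      have := min_le_left (pt f k (e c)).2 (pt f k (w c)).2
      omega)
    have g2 : Above M f X Y (k + (w c : ZMod M)) := hW1.2 (by
      have := min_le_right (pt f k (e c)).2 (pt f k (w c)).2
      omega)
    have hset : {k' : ZMod M | Above M f X Y k'} = {k + (e c : ZMod M), k + (w c : ZMod M)} := by
      ext k'
      simp only [Set.mem_setOf_eq, Set.mem_insert_iff, Set.mem_singleton_iff]
      constructor
      · exact hsub k'
      · rintro (rfl | rfl)
        · exact g1
        · exact g2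
    have hdist : k + (e c : ZMod M) ≠ k + (w c : ZMod M) := by
      intro he
      have h3 : ((e c : ℕ) : ZMod M) = (w c : ℕ) := add_left_cancel he
      rw [ZMod.natCast_eq_natCast_iff'] at h3
      rw [Nat.mod_eq_of_lt a1, Nat.mod_eq_of_lt a4] at h3
      omega
    rw [hset, Set.ncard_pair hdist] at hE
    exact absurd hE (by decide)
  · have hk2 := hk1
    rcases hsub k1 hk1 with rfl | rfl
    · have := hE1.1 hk2
      have := le_max_left (pt f k (e c)).2 (pt f k (w c)).2
      omega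
    · have := hW1.1 hk2
      have := le_max_right (pt f k (e c)).2 (pt f k (w c)).2
      omega

theorem area_sh {M a : ℕ} [NeZero M] {f : ZMod M → ℤ × ℤ} (hf : IsLoop M f) {k : ZMod M}
    {e w : ℕ → ℕ} (h : Cy M a (pt f k)) (s : Sh M a (pt f k) e w) :
    (area M f : ℤ) ≤ ∑ c ∈ Finset.range a, |(pt f k (e c)).2 - (pt f k (w c)).2| := by
  classical
  let S : Finset (ℤ × ℤ) := (Finset.range a).biUnion (fun c =>
    (Finset.Ico ((f k).2 + min (pt f k (e c)).2 (pt f k (w c)).2)
      ((f k).2 + max (pt f k (e c)).2 (pt f k (w c)).2)).image (fun y => ((f k).1 + (c : ℤ), y)))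
  have h1 : area M f ≤ S.card := by
    have e1 : area M f = {c : ℤ × ℤ | Encl M f c}.ncard := rfl
    rw [e1, ← Set.ncard_coe_finset]
    apply Set.ncard_le_ncard _ (Finset.finite_toSet S)
    rintro ⟨X, Y⟩ hE
    obtain ⟨c, hc, hX, hY1, hY2⟩ := encl_sh hf h s hE
    rw [Finset.mem_coe, Finset.mem_biUnion]
    refine ⟨c, Finset.mem_range.2 hc, ?_⟩
    rw [Finset.mem_image]
    exact ⟨Y, Finset.mem_Ico.2 ⟨hY1, hY2⟩, by rw [hX]⟩
  have h2 : S.card ≤ ∑ c ∈ Finset.range a, ((pt f k (e c)).2 - (pt f k (w c)).2).natAbs := by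
    refine Finset.card_biUnion_le.trans (Finset.sum_le_sum (fun c _ => ?_))
    refine Finset.card_image_le.trans ?_
    rw [Int.card_Ico]
    rcases le_total (pt f k (e c)).2 (pt f k (w c)).2 with g | g
    · rw [min_eq_left g, max_eq_right g]; omega
    · rw [min_eq_right g, max_eq_left g]; omega
  have h3 : (area M f : ℤ) ≤
      ((∑ c ∈ Finset.range a, ((pt f k (e c)).2 - (pt f k (w c)).2).natAbs : ℕ) : ℤ) := by
    exact_mod_cast h1.trans h2
  refine h3.trans (le_of_eq ?_)
  push_cast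
  rfl

end Pool.Agent.Helper365.AL
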