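import Pool.Agent.Helper365.AL.Tot

/-!
The rectangles, and the rotations of a loop.
-/

set_option autoImplicit false

namespace Pool.Agent.Helper365.AL

open Pool.Agent.Y981.L2 H981 Finset

/-- the rectangle with sides `s`, `m - s` -/
def rc (m s v : ℕ) : ℤ × ℤ :=
  if v ≤ s then (v, 0) else if v ≤ m then (s, (v : ℤ) - s) else
    if v ≤ m + s then ((m : ℤ) + s - v, (m : ℤ) - s) else (0, 2 * (m : ℤ) - v)

/-- the loop around the rectangle -/
def rect (m s : ℕ) (i : ZMod (2 * m)) : ℤ × ℤ := rc m s i.val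

theorem val_succ {M : ℕ} [NeZero M] (i : ZMod M) (h : i.val + 1 < M) : (i + 1).val = i.val + 1 := by
  have hM : 1 < M := by omega
  have : Fact (1 < M) := ⟨hM⟩
  rw [ZMod.val_add, ZMod.val_one, Nat.mod_eq_of_lt h]

theorem val_last {M : ℕ} [NeZero M] (i : ZMod M) (h : i.val + 1 = M) : (i + 1).val = 0 := by
  have h1 : ((i.val + 1 : ℕ) : ZMod M) = 0 := by rw [h, ZMod.natCast_self]
  push_cast at h1
  rw [ZMod.natCast_zmod_val] at h1
  rw [h1, ZMod.val_zero]

theorem rect_next {m s : ℕ} [NeZero (2 * m)] (h1 : 1 ≤ s) (h2 : s < m) (i : ZMod (2 * m)) :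
    rect m s (i + 1) = rc m s (i.val + 1) := by
  have hv := ZMod.val_lt i
  rcases Nat.lt_or_ge (i.val + 1) (2 * m) with h | h
  · unfold rect
    rw [val_succ i h]
  · have e1 : i.val + 1 = 2 * m := by omega
    unfold rect
    rw [val_last i e1, e1]
    unfold rc
    rw [if_pos (Nat.zero_le _), if_neg (by omega), if_neg (by omega), if_neg (by omega)]
    push_cast
    simp

theorem rect_loop {m s : ℕ} [NeZero (2 * m)] (h1 : 1 ≤ s) (h2 : s < m) :
    IsLoop (2 * m) (rect m s) := by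
  refine ⟨?_, ?_, ?_⟩
  · unfold rect rc
    rw [ZMod.val_zero, if_pos (Nat.zero_le _)]
    rfl
  · intro i j hij
    have hi := ZMod.val_lt i
    have hj := ZMod.val_lt j
    have h3 : i.val = j.val := by
      unfold rect rc at hij
      split_ifs at hij <;> simp only [Prod.mk.injEq] at hij <;> omega
    exact ZMod.val_injective _ h3
  · intro i
    rw [rect_next h1 h2]
    have hi := ZMod.val_lt i
    unfold rect rc
    split_ifs <;> simp only <;> push_cast <;> simp only [Int.abs_eq_natAbs] <;> omega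

theorem rect_above {m s : ℕ} [NeZero (2 * m)] (h1 : 1 ≤ s) (h2 : s < m) {X Y : ℤ} (hX0 : 0 ≤ X)
    (hX : X < s) (hY0 : 0 ≤ Y) (hY : Y < (m : ℤ) - s) (k : ZMod (2 * m)) :
    Above (2 * m) (rect m s) X Y k ↔ (k.val : ℤ) = m + s - X - 1 := by
  unfold Above
  rw [rect_next h1 h2]
  have hk := ZMod.val_lt k
  unfold rect rc
  split_ifs <;> simp only <;> push_cast <;> omega

theorem rect_area {m s : ℕ} [NeZero (2 * m)] (h1 : 1 ≤ s) (h2 : s < m) :
    s * (m - s) ≤ area (2 * m) (rect m s) := by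
  classical
  have hl := rect_loop h1 h2
  have hfin := finite_encl hl.2.2
  have e1 : area (2 * m) (rect m s) = {c : ℤ × ℤ | Encl (2 * m) (rect m s) c}.ncard := rfl
  rw [e1]
  have h3 : ((Finset.Ico (0 : ℤ) s ×ˢ Finset.Ico (0 : ℤ) ((m : ℤ) - s) : Finset (ℤ × ℤ)) :
      Set (ℤ × ℤ)).ncard ≤ {c : ℤ × ℤ | Encl (2 * m) (rect m s) c}.ncard := by
    apply Set.ncard_le_ncard _ hfin
    rintro ⟨X, Y⟩ hc
    rw [Finset.mem_coe, Finset.mem_product, Finset.mem_Ico, Finset.mem_Ico] at hc
    obtain ⟨⟨a1, a2⟩, a3, a4⟩ := hc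
    simp only at a1 a2 a3 a4
    show Encl (2 * m) (rect m s) (X, Y)
    unfold Encl
    have e2 : Nat.card {k : ZMod (2 * m) // Above (2 * m) (rect m s) X Y k} = 1 := by
      rw [Nat.card_eq_one_iff_unique]
      obtain ⟨v, hv⟩ : ∃ v : ℕ, (v : ℤ) = m + s - X - 1 := ⟨(m + s - X - 1).toNat, by omega⟩
      have hvl : v < 2 * m := by omega
      refine ⟨⟨?_⟩, ⟨⟨(v : ZMod (2 * m)), ?_⟩⟩⟩
      · rintro ⟨k, hk⟩ ⟨l, hl'⟩
        rw [rect_above h1 h2 a1 a2 a3 a4] at hk hl'
        apply Subtype.ext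
        apply ZMod.val_injective
        show k.val = l.val
        omega
      · rw [rect_above h1 h2 a1 a2 a3 a4, ZMod.val_natCast_of_lt hvl]
        exact hv
    simp only
    rw [e2]
    exact odd_one
  refine le_trans (le_of_eq ?_) h3
  rw [Set.ncard_coe_finset, Finset.card_product, Int.card_Ico, Int.card_Ico]
  have e3 : ((s : ℤ) - 0).toNat = s := by omega
  have e4 : ((m : ℤ) - s - 0).toNat = m - s := by omega
  rw [e3, e4]

/-! ### rotations -/

/-- the loop read from `k` -/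
def rot {M : ℕ} (f : ZMod M → ℤ × ℤ) (k : ZMod M) (i : ZMod M) : ℤ × ℤ :=
  ((f (i + k)).1 - (f k).1, (f (i + k)).2 - (f k).2)

theorem rot_loop {M : ℕ} {f : ZMod M → ℤ × ℤ} (hf : IsLoop M f) (k : ZMod M) :
    IsLoop M (rot f k) := by
  refine ⟨?_, ?_, ?_⟩
  · unfold rot
    rw [zero_add, sub_self, sub_self]
    rfl
  · intro i j hij
    unfold rot at hij
    simp only [Prod.mk.injEq] at hij
    have h1 : f (i + k) = f (j + k) := Prod.ext (by omega) (by omega)
    exact add_right_cancel (hf.2.1 h1)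
  · intro i
    have := hf.2.2 (i + k)
    unfold rot
    simp only
    have e : i + 1 + k = i + k + 1 := by ring
    rw [e]
    have e1 : (f (i + k + 1)).1 - (f k).1 - ((f (i + k)).1 - (f k).1) =
      (f (i + k + 1)).1 - (f (i + k)).1 := by ring
    have e2 : (f (i + k + 1)).2 - (f k).2 - ((f (i + k)).2 - (f k).2) =
      (f (i + k + 1)).2 - (f (i + k)).2 := by ring
    rw [e1, e2]
    exact this

theorem rot_above {M : ℕ} (f : ZMod M → ℤ × ℤ) (k : ZMod M) (X Y : ℤ) (i : ZMod M) :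
    Above M (rot f k) X Y i ↔ Above M f (X + (f k).1) (Y + (f k).2) (i + k) := by
  unfold Above rot
  simp only
  have e : i + 1 + k = i + k + 1 := by ring
  rw [e]
  constructor
  · rintro ⟨h1, h2⟩
    refine ⟨?_, by omega⟩
    rcases h1 with ⟨g1, g2⟩ | ⟨g1, g2⟩
    · exact Or.inl ⟨by omega, by omega⟩
    · exact Or.inr ⟨by omega, by omega⟩
  · rintro ⟨h1, h2⟩
    refine ⟨?_, by omega⟩
    rcases h1 with ⟨g1, g2⟩ | ⟨g1, g2⟩
    · exact Or.inl ⟨by omega, by omega⟩
    · exact Or.inr ⟨by omega, by omega⟩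

theorem rot_encl {M : ℕ} (f : ZMod M → ℤ × ℤ) (k : ZMod M) (c : ℤ × ℤ) :
    Encl M (rot f k) c ↔ Encl M f (c + f k) := by
  unfold Encl
  have e : Nat.card {i : ZMod M // Above M (rot f k) c.1 c.2 i} =
      Nat.card {i : ZMod M // Above M f (c + f k).1 (c + f k).2 i} := by
    apply Nat.card_congr
    exact (Equiv.addRight k).subtypeEquiv (fun i => rot_above f k c.1 c.2 i)
  rw [e]

theorem rot_area {M : ℕ} (f : ZMod M → ℤ × ℤ) (k : ZMod M) : area M (rot f k) = area M f := by
  unfold area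
  apply Nat.card_congr
  exact (Equiv.addRight (f k)).subtypeEquiv (fun c => rot_encl f k c)

theorem rot_inj {M : ℕ} [NeZero M] {f : ZMod M → ℤ × ℤ} (hf : IsLoop M f) :
    Function.Injective (rot f) := by
  intro k l hkl
  have h1 : ∀ j : ZMod M, (f (j + (l - k))).1 = (f j).1 + ((f l).1 - (f k).1) ∧
      (f (j + (l - k))).2 = (f j).2 + ((f l).2 - (f k).2) := by
    intro j
    have h2 := congrFun hkl (j - k)
    unfold rot at h2
    rw [sub_add_cancel] at h2
    have e : j - k + l = j + (l - k) := by ring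
    rw [e] at h2
    simp only [Prod.mk.injEq] at h2
    constructor <;> omega
  have h2 : ∀ n : ℕ, (f (n * (l - k))).1 = (f 0).1 + n * ((f l).1 - (f k).1) ∧
      (f (n * (l - k))).2 = (f 0).2 + n * ((f l).2 - (f k).2) := by
    intro n
    induction n with
    | zero => simp
    | succ n ih =>
      have h3 := h1 (n * (l - k))
      have e : ((n + 1 : ℕ) : ZMod M) * (l - k) = n * (l - k) + (l - k) := by push_cast; ring
      rw [e, h3.1, h3.2, ih.1, ih.2]
      push_cast
      constructor <;> ring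
  have h3 := h2 M
  rw [ZMod.natCast_self, zero_mul] at h3
  have hM : (M : ℤ) ≠ 0 := by exact_mod_cast NeZero.ne M
  have h4 : (f l).1 - (f k).1 = 0 := by
    have : (M : ℤ) * ((f l).1 - (f k).1) = 0 := by linarith [h3.1]
    rcases mul_eq_zero.1 this with h | h
    · exact absurd h hM
    · exact h
  have h5 : (f l).2 - (f k).2 = 0 := by
    have : (M : ℤ) * ((f l).2 - (f k).2) = 0 := by linarith [h3.2]
    rcases mul_eq_zero.1 this with h | h
    · exact absurd h hM
    · exact h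
  exact hf.2.1 (Prod.ext (by omega) (by omega))

/-- the number of loops of the largest area -/
theorem card_top {m : ℕ} (hm : 2 ≤ m) [NeZero (2 * m)] :
    2 * m ≤ {f : ZMod (2 * m) → ℤ × ℤ | IsLoop (2 * m) f ∧ area (2 * m) f = m ^ 2 / 4}.ncard := by
  classical
  have h1 : 1 ≤ m / 2 := by omega
  have h2 : m / 2 < m := by omega
  have hl := rect_loop (m := m) (s := m / 2) h1 h2
  have ha : area (2 * m) (rect m (m / 2)) = m ^ 2 / 4 := by
    apply le_antisymm (area_top (by omega) hl)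
    refine le_trans (le_of_eq ?_) (rect_area h1 h2)
    obtain ⟨r, hr⟩ : ∃ r, r = m / 2 := ⟨_, rfl⟩
    rcases Nat.even_or_odd m with ⟨t, ht⟩ | ⟨t, ht⟩
    · have : m / 2 = t := by omega
      rw [this, ht]
      have e1 : t + t - t = t := by omega
      have e2 : (t + t) ^ 2 = 4 * (t * t) := by ring
      rw [e1, e2, Nat.mul_div_cancel_left _ (by norm_num)]
    · have : m / 2 = t := by omega
      rw [this, ht]
      have e1 : 2 * t + 1 - t = t + 1 := by omega
      have e2 : (2 * t + 1) ^ 2 = 4 * (t * (t + 1)) + 1 := by ring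
      rw [e1, e2]
      omega
  have hfin : {f : ZMod (2 * m) → ℤ × ℤ | IsLoop (2 * m) f ∧ area (2 * m) f = m ^ 2 / 4}.Finite :=
    (loops_finite (n := m) (by omega)).subset (fun f hf => hf.1)
  have h3 : (Set.range (rot (rect m (m / 2)))).ncard ≤
      {f : ZMod (2 * m) → ℤ × ℤ | IsLoop (2 * m) f ∧ area (2 * m) f = m ^ 2 / 4}.ncard := by
    apply Set.ncard_le_ncard _ hfin
    rintro g ⟨k, rfl⟩
    exact ⟨rot_loop hl k, by rw [rot_area, ha]⟩
  refine le_trans (le_of_eq ?_) h3
  rw [← Set.image_univ, Set.ncard_image_of_injective _ (rot_inj hl), Set.ncard_univ,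
    Nat.card_zmod]

end Pool.Agent.Helper365.AL
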