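import Pool.Agent.Helper365.AL.Loop

/-!
Enclosed cells of a column against the vertical edges on both sides.
-/

set_option autoImplicit false

namespace Pool.Agent.Helper365.AL

open Pool.Agent.Y981.L2 H981 Finset

variable {M : ℕ} [NeZero M] {f : ZMod M → ℤ × ℤ}

theorem even_bdry (φ : ZMod M → Bool) :
    Even (Nat.card {k : ZMod M // φ k ≠ φ (k + 1)}) := by
  classical
  rw [Nat.card_eq_fintype_card, Fintype.card_subtype, ← ZMod.natCast_eq_zero_iff_even,
    Finset.card_filter, Nat.cast_sum]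
  let ψ : ZMod M → ZMod 2 := fun k => if φ k then 1 else 0
  have h1 : ∀ k, (((if φ k ≠ φ (k + 1) then 1 else 0 : ℕ)) : ZMod 2) = ψ k + ψ (k + 1) := by
    intro k
    simp only [ψ]
    cases φ k <;> cases φ (k + 1) <;> decide
  rw [Finset.sum_congr rfl (fun k _ => h1 k), Finset.sum_add_distrib]
  have h2 : ∑ k : ZMod M, ψ (k + 1) = ∑ k : ZMod M, ψ k :=
    Fintype.sum_equiv (Equiv.addRight 1) _ _ (fun k => rfl)
  rw [h2]
  exact CharTwo.add_self_eq_zero _

/-- the edge from `f k` to `f (k+1)` is vertical, at the level `Y` -/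
def Ver (M : ℕ) (f : ZMod M → ℤ × ℤ) (Y : ℤ) (k : ZMod M) : Prop :=
  (f (k + 1)).1 = (f k).1 ∧ (((f k).2 = Y ∧ (f (k + 1)).2 = Y + 1) ∨
    ((f k).2 = Y + 1 ∧ (f (k + 1)).2 = Y))

theorem ver_left (hf : IsLoop M f) {c Y : ℤ} (hE : Encl M f (c, Y)) :
    ∃ k, (f k).1 ≤ c ∧ Ver M f Y k := by
  classical
  by_contra hcon
  push Not at hcon
  unfold Encl at hE
  have h1 := even_bdry (M := M) (fun k => decide ((f k).1 ≤ c ∧ Y < (f k).2))
  have h2 : Nat.card {k : ZMod M // decide ((f k).1 ≤ c ∧ Y < (f k).2) ≠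
      decide ((f (k + 1)).1 ≤ c ∧ Y < (f (k + 1)).2)} =
      Nat.card {k : ZMod M // Above M f (c, Y).1 (c, Y).2 k} := by
    apply Nat.card_congr
    apply Equiv.subtypeEquivRight
    intro k
    have h3 := hcon k
    have h4 := hf.2.2 k
    rw [Int.abs_eq_natAbs, Int.abs_eq_natAbs] at h4
    unfold Above
    unfold Ver at h3
    simp only [ne_eq, decide_eq_decide]
    obtain ⟨x, hx⟩ : ∃ x, x = (f k).1 := ⟨_, rfl⟩
    obtain ⟨y, hy⟩ : ∃ y, y = (f k).2 := ⟨_, rfl⟩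
    obtain ⟨x', hx'⟩ : ∃ x', x' = (f (k + 1)).1 := ⟨_, rfl⟩
    obtain ⟨y', hy'⟩ : ∃ y', y' = (f (k + 1)).2 := ⟨_, rfl⟩
    rw [← hx, ← hy, ← hx', ← hy'] at h3 h4 ⊢
    omega
  rw [h2] at h1
  exact (Nat.not_odd_iff_even.2 h1) hE

theorem ver_right (hf : IsLoop M f) {c Y : ℤ} (hE : Encl M f (c, Y)) :
    ∃ k, c < (f k).1 ∧ Ver M f Y k := by
  classical
  by_contra hcon
  push Not at hcon
  unfold Encl at hE
  have h1 := even_bdry (M := M) (fun k => decide (c < (f k).1 ∧ Y < (f k).2))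
  have h2 : Nat.card {k : ZMod M // decide (c < (f k).1 ∧ Y < (f k).2) ≠
      decide (c < (f (k + 1)).1 ∧ Y < (f (k + 1)).2)} =
      Nat.card {k : ZMod M // Above M f (c, Y).1 (c, Y).2 k} := by
    apply Nat.card_congr
    apply Equiv.subtypeEquivRight
    intro k
    have h3 := hcon k
    have h4 := hf.2.2 k
    rw [Int.abs_eq_natAbs, Int.abs_eq_natAbs] at h4
    unfold Above
    unfold Ver at h3
    simp only [ne_eq, decide_eq_decide]
    obtain ⟨x, hx⟩ : ∃ x, x = (f k).1 := ⟨_, rfl⟩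
    obtain ⟨y, hy⟩ : ∃ y, y = (f k).2 := ⟨_, rfl⟩
    obtain ⟨x', hx'⟩ : ∃ x', x' = (f (k + 1)).1 := ⟨_, rfl⟩
    obtain ⟨y', hy'⟩ : ∃ y', y' = (f (k + 1)).2 := ⟨_, rfl⟩
    rw [← hx, ← hy, ← hx', ← hy'] at h3 h4 ⊢
    omega
  rw [h2] at h1
  exact (Nat.not_odd_iff_even.2 h1) hE

/-- the vertical edges on the left of the column `c` -/
noncomputable def TL (M : ℕ) [NeZero M] (f : ZMod M → ℤ × ℤ) (c : ℤ) : ℕ :=
  (univ.filter (fun k : ZMod M => (f k).1 ≤ c ∧ (f (k + 1)).1 = (f k).1)).card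

/-- the vertical edges on the right of the column `c` -/
noncomputable def TR (M : ℕ) [NeZero M] (f : ZMod M → ℤ × ℤ) (c : ℤ) : ℕ :=
  (univ.filter (fun k : ZMod M => c < (f k).1 ∧ (f (k + 1)).1 = (f k).1)).card

theorem TL_add_TR (c : ℤ) : TL M f c + TR M f c + hz M f = M := by
  classical
  unfold TL TR hz
  have h1 : (univ.filter (fun k : ZMod M => (f k).1 ≤ c ∧ (f (k + 1)).1 = (f k).1)).card +
      (univ.filter (fun k : ZMod M => c < (f k).1 ∧ (f (k + 1)).1 = (f k).1)).card =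
      (univ.filter (fun k : ZMod M => ¬ ((f (k + 1)).1 ≠ (f k).1))).card := by
    rw [← card_union_of_disjoint]
    · congr 1
      ext k
      simp only [mem_union, mem_filter, mem_univ, true_and]
      have := le_or_gt (f k).1 c
      constructor
      · rintro (h | h)
        · exact not_not.2 h.2
        · exact not_not.2 h.2
      · intro h
        rw [not_not] at h
        rcases this with g | g
        · exact Or.inl ⟨g, h⟩
        · exact Or.inr ⟨g, h⟩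
    · rw [disjoint_left]
      intro k h h'
      rw [mem_filter] at h h'
      have := h.2.1
      have := h'.2.1
      omega
  rw [h1, add_comm, card_filter_add_card_filter_not, card_univ, ZMod.card]

/-- the enclosed cells of a column -/
noncomputable def hc (M : ℕ) (f : ZMod M → ℤ × ℤ) (c : ℤ) : ℕ := {Y : ℤ | Encl M f (c, Y)}.ncard

theorem hc_le_TL (hf : IsLoop M f) (c : ℤ) : hc M f c ≤ TL M f c := by
  classical
  unfold hc TL
  have hch : ∀ Y : ℤ, Y ∈ {Y : ℤ | Encl M f (c, Y)} → ∃ k, (f k).1 ≤ c ∧ Ver M f Y k :=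
    fun Y hY => ver_left hf hY
  choose! g hg1 hg2 using hch
  rw [← Set.ncard_coe_finset]
  apply Set.ncard_le_ncard_of_injOn g
  · intro Y hY
    rw [mem_coe, mem_filter]
    exact ⟨mem_univ _, hg1 Y hY, (hg2 Y hY).1⟩
  · intro Y hY Z hZ hYZ
    have h1 := (hg2 Y hY).2
    have h2 := (hg2 Z hZ).2
    rw [hYZ] at h1
    omega

theorem hc_le_TR (hf : IsLoop M f) (c : ℤ) : hc M f c ≤ TR M f c := by
  classical
  unfold hc TR
  have hch : ∀ Y : ℤ, Y ∈ {Y : ℤ | Encl M f (c, Y)} → ∃ k, c < (f k).1 ∧ Ver M f Y k :=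
    fun Y hY => ver_right hf hY
  choose! g hg1 hg2 using hch
  rw [← Set.ncard_coe_finset]
  apply Set.ncard_le_ncard_of_injOn g
  · intro Y hY
    rw [mem_coe, mem_filter]
    exact ⟨mem_univ _, hg1 Y hY, (hg2 Y hY).1⟩
  · intro Y hY Z hZ hYZ
    have h1 := (hg2 Y hY).2
    have h2 := (hg2 Z hZ).2
    rw [hYZ] at h1
    omega

theorem area_le_hc (hf : IsLoop M f) {x0 x1 : ℤ} (hx : ∀ i, x0 ≤ (f i).1 ∧ (f i).1 ≤ x1) :
    area M f ≤ ∑ c ∈ Ico x0 x1, hc M f c := by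
  classical
  have hfin := finite_encl hf.2.2
  obtain ⟨j1, h2⟩ := Finite.exists_max (fun k : ZMod M => (f k).2)
  obtain ⟨j2, h4⟩ := Finite.exists_min (fun k : ZMod M => (f k).2)
  have hcf : ∀ c : ℤ, {Y : ℤ | Encl M f (c, Y)}.Finite := by
    intro c
    apply Set.Finite.subset (Set.finite_Ico (f j2).2 (f j1).2)
    intro Y hY
    have := encl_box hf.2.2 hx (fun i => ⟨h4 i, h2 i⟩) (c := (c, Y)) hY
    exact this.2
  have e1 : area M f = {c : ℤ × ℤ | Encl M f c}.ncard := rfl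
  let S : Finset (ℤ × ℤ) := (Ico x0 x1).biUnion (fun c =>
    (hcf c).toFinset.image (fun y => (c, y)))
  rw [e1]
  have h1 : {c : ℤ × ℤ | Encl M f c}.ncard ≤ S.card := by
    rw [← Set.ncard_coe_finset]
    apply Set.ncard_le_ncard _ (finite_toSet S)
    rintro ⟨X, Y⟩ hE
    have hE' : Encl M f (X, Y) := hE
    have := encl_box hf.2.2 hx (fun i => ⟨h4 i, h2 i⟩) hE'
    rw [mem_coe, mem_biUnion]
    refine ⟨X, mem_Ico.2 this.1, ?_⟩
    rw [mem_image]
    exact ⟨Y, by rw [Set.Finite.mem_toFinset]; exact hE', rfl⟩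
  refine h1.trans (card_biUnion_le.trans (sum_le_sum (fun c _ => ?_)))
  refine card_image_le.trans (le_of_eq ?_)
  unfold hc
  rw [Set.ncard_eq_toFinset_card _ (hcf c)]

/-- the energy of a loop -/
theorem energy_loop (hf : IsLoop M f) {x0 x1 : ℤ} (hx : ∀ i, x0 ≤ (f i).1 ∧ (f i).1 ≤ x1) :
    2 * (area M f : ℤ) + ∑ c ∈ Ico x0 x1, |(TL M f c : ℤ) - TR M f c| ≤
      (Ico x0 x1).card * ((M : ℤ) - hz M f) := by
  have h1 := area_le_hc hf hx
  have h2 : ∑ c ∈ Ico x0 x1, (2 * (hc M f c : ℤ) + |(TL M f c : ℤ) - TR M f c|) ≤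
      ∑ _c ∈ Ico x0 x1, ((M : ℤ) - hz M f) := by
    apply sum_le_sum
    intro c _
    have h3 := hc_le_TL hf c
    have h4 := hc_le_TR hf c
    have h5 := TL_add_TR (f := f) c
    rw [Int.abs_eq_natAbs]
    omega
  rw [sum_add_distrib, ← mul_sum, sum_const, nsmul_eq_mul] at h2
  have h3 : (area M f : ℤ) ≤ ∑ c ∈ Ico x0 x1, (hc M f c : ℤ) := by exact_mod_cast h1
  linarith

end Pool.Agent.Helper365.AL
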