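import Mathlib

/-!
Closed lattice paths: first and last passages, the total variation of the heights, and the energy
inequality.
-/

set_option autoImplicit false

namespace Pool.Agent.Helper365.AL

/-- discrete intermediate value theorem -/
theorem ivt {x : ℕ → ℤ} {i j : ℕ} (hij : i ≤ j) (hs : ∀ k, i ≤ k → k < j → |x (k + 1) - x k| ≤ 1)
    {v : ℤ} (h1 : x i ≤ v) (h2 : v ≤ x j) : ∃ k, i ≤ k ∧ k ≤ j ∧ x k = v := by
  induction j, hij using Nat.le_induction with
  | base => exact ⟨i, le_rfl, le_rfl, by omega⟩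
  | succ j hij ih =>
    rcases le_or_gt v (x j) with h | h
    · obtain ⟨k, h3, h4, h5⟩ := ih (fun k hk hk' => hs k hk (by omega)) h
      exact ⟨k, h3, by omega, h5⟩
    · have := hs j hij (by omega)
      rw [abs_le] at this
      exact ⟨j + 1, by omega, le_rfl, by omega⟩

/-- first and last passages -/
theorem passages {M a : ℕ} {x : ℕ → ℤ} (h0 : x 0 = 0) (hM : x M = 0)
    (hs : ∀ i, i < M → |x (i + 1) - x i| ≤ 1) {T : ℕ} (hT : T ≤ M) (hxT : x T = a) :
    ∃ e w : ℕ → ℕ,
      (∀ c, c < a → e c < M ∧ x (e c) = c ∧ x (e c + 1) = c + 1 ∧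
        w c < M ∧ x (w c) = c + 1 ∧ x (w c + 1) = c ∧ e c < w c) ∧
      (∀ c, c + 1 < a → e c < e (c + 1) ∧ w (c + 1) < w c) ∧
      (x 1 = 1 → 0 < a → e 0 = 0) := by
  classical
  have hex : ∀ c : ℕ, c < a → ∃ i, i < T ∧ x (i + 1) = c + 1 := by
    intro c hc
    obtain ⟨k, h1, h2, h3⟩ := ivt (x := x) (i := 0) (j := T) (Nat.zero_le _)
      (fun k _ hk => hs k (by omega)) (v := (c : ℤ) + 1) (by omega) (by omega)
    rcases Nat.eq_zero_or_pos k with h | h
    · subst h; omega
    · exact ⟨k - 1, by omega, by rw [Nat.sub_add_cancel h]; exact h3⟩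
  have hwx : ∀ c : ℕ, c < a → ∃ i, T ≤ i ∧ i < M ∧ x i = c + 1 := by
    intro c hc
    obtain ⟨k, h1, h2, h3⟩ := ivt (x := fun i => - x i) (i := T) (j := M) hT
      (fun k _ hk => by
        have := hs k (by omega)
        rw [abs_le] at this ⊢
        constructor <;> omega) (v := -((c : ℤ) + 1)) (by omega)
      (by omega)
    have hkM : k ≠ M := by rintro rfl; omega
    exact ⟨k, h1, by omega, by omega⟩
  let P : ℕ → ℕ → Prop := fun c i => x (i + 1) = c + 1
  let e : ℕ → ℕ := fun c => if h : ∃ i, P c i then Nat.find h else 0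
  let w : ℕ → ℕ := fun c => Nat.findGreatest (fun i => i < M ∧ x i = c + 1) M
  have he : ∀ c, c < a → (e c < T ∧ x (e c + 1) = c + 1) ∧
      ∀ i, x (i + 1) = c + 1 → e c ≤ i := by
    intro c hc
    obtain ⟨i, hi, hi'⟩ := hex c hc
    have h : ∃ i, P c i := ⟨i, hi'⟩
    have e1 : e c = Nat.find h := by simp only [e]; rw [dif_pos h]
    refine ⟨⟨?_, ?_⟩, ?_⟩
    · rw [e1]
      exact lt_of_le_of_lt (Nat.find_min' h hi') hi
    · rw [e1]
      exact Nat.find_spec h
    · intro j hj
      rw [e1]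
      exact Nat.find_min' h hj
  have hw : ∀ c, c < a → (T ≤ w c ∧ w c < M ∧ x (w c) = c + 1) ∧
      ∀ i, i < M → x i = c + 1 → i ≤ w c := by
    intro c hc
    obtain ⟨i, hi, hi', hi''⟩ := hwx c hc
    have h3 : i ≤ w c := Nat.le_findGreatest hi'.le ⟨hi', hi''⟩
    have h4 : w c < M ∧ x (w c) = c + 1 :=
      Nat.findGreatest_spec (P := fun i => i < M ∧ x i = c + 1) hi'.le ⟨hi', hi''⟩
    exact ⟨⟨by omega, h4⟩, fun j hj hj' => Nat.le_findGreatest hj.le ⟨hj, hj'⟩⟩
  have hxe : ∀ c, c < a → x (e c) = c := by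
    intro c hc
    obtain ⟨⟨h1, h2⟩, h3⟩ := he c hc
    have h4 := hs (e c) (by omega)
    rw [h2, abs_le] at h4
    by_contra hne
    have h5 : (c : ℤ) + 1 ≤ x (e c) := by omega
    obtain ⟨k, g1, g2, g3⟩ := ivt (x := x) (i := 0) (j := e c) (Nat.zero_le _)
      (fun k _ hk => hs k (by omega)) (v := (c : ℤ) + 1) (by omega) h5
    rcases Nat.eq_zero_or_pos k with h | h
    · subst h; omega
    · have := h3 (k - 1) (by rw [Nat.sub_add_cancel h]; exact g3)
      omega
  have hxw : ∀ c, c < a → x (w c + 1) = c := by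
    intro c hc
    obtain ⟨⟨h0', h1, h2⟩, h3⟩ := hw c hc
    have h4 := hs (w c) h1
    rw [h2, abs_le] at h4
    by_contra hne
    have h5 : (c : ℤ) + 1 ≤ x (w c + 1) := by omega
    obtain ⟨k, g1, g2, g3⟩ := ivt (x := fun i => - x i) (i := w c + 1) (j := M) (by omega)
      (fun k _ hk => by
        have := hs k (by omega)
        rw [abs_le] at this ⊢
        constructor <;> omega) (v := -((c : ℤ) + 1)) (by omega)
      (by omega)
    have hkM : k ≠ M := by rintro rfl; omega
    have := h3 k (by omega) (by omega)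
    omega
  refine ⟨e, w, ?_, ?_, ?_⟩
  · intro c hc
    obtain ⟨⟨h1, h2⟩, h3⟩ := he c hc
    obtain ⟨⟨g0, g1, g2⟩, g3⟩ := hw c hc
    exact ⟨by omega, hxe c hc, h2, g1, g2, hxw c hc, by omega⟩
  · intro c hc
    obtain ⟨⟨h1, h2⟩, h3⟩ := he c (by omega)
    obtain ⟨⟨g0, g1, g2⟩, g3⟩ := hw c (by omega)
    obtain ⟨⟨k1, k2⟩, k3⟩ := he (c + 1) hc
    obtain ⟨⟨l0, l1, l2⟩, l3⟩ := hw (c + 1) hc
    have m1 := hxe (c + 1) hc
    have m2 := hxw (c + 1) hc
    constructor
    · have h5 : e (c + 1) ≠ 0 := by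
        intro h
        rw [h, h0] at m1
        push_cast at m1
        omega
      have := h3 (e (c + 1) - 1) (by
        rw [Nat.sub_add_cancel (Nat.pos_of_ne_zero h5), m1]; push_cast; ring)
      omega
    · have h5 : w (c + 1) + 1 ≠ M := by
        intro h
        rw [h, hM] at m2
        push_cast at m2
        omega
      have := g3 (w (c + 1) + 1) (by omega) (by rw [m2]; push_cast; ring)
      omega
  · intro hx1 ha
    obtain ⟨⟨h1, h2⟩, h3⟩ := he 0 ha
    have := h3 0 (by rw [zero_add, hx1]; norm_num)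
    omega

/-- **the energy inequality** -/
theorem energy {n : ℕ} {b : ℤ} (y z : ℕ → ℤ) (δ : ℕ → ℤ)
    (hδ : ∀ c, δ c = |y (c + 1) - y c| + |z (c + 1) - z c|)
    (htv : |y 0 - z 0| + |y n - z n| + ∑ c ∈ Finset.range n, δ c ≤ 2 * b) :
    (∑ c ∈ Finset.range (n + 1), |y c - z c|) +
      (max (b - |y 0 - z 0| - ∑ c ∈ Finset.range n, δ c) 0 +
        ∑ c ∈ Finset.range n, min ((c : ℤ) + 1) (n - c) * δ c) ≤ (n + 1) * b := by
  have hδ0 : ∀ c, 0 ≤ δ c := by intro c; rw [hδ]; positivity
  obtain ⟨v, hv⟩ : ∃ v : ℕ → ℤ, v = fun c => ∑ k ∈ Finset.range c, δ k := ⟨_, rfl⟩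
  have hv0 : v 0 = 0 := by rw [hv]; simp
  have hvs : ∀ c, v (c + 1) = v c + δ c := by
    intro c; rw [hv]; simp only [Finset.sum_range_succ]
  obtain ⟨D, hD⟩ : ∃ D : ℤ, D = b - |y 0 - z 0| := ⟨_, rfl⟩
  have hvn : v n = ∑ c ∈ Finset.range n, δ c := by rw [hv]
  rw [← hvn] at htv
  rw [← hD, ← hvn]
  obtain ⟨L, hL⟩ : ∃ L : ℕ → ℤ, L = fun c => max (D - v c) 0 := ⟨_, rfl⟩
  obtain ⟨R, hR⟩ : ∃ R : ℕ → ℤ, R = fun c => max (v c - D) 0 := ⟨_, rfl⟩
  have hLe : ∀ c, L c = max (D - v c) 0 := fun c => by rw [hL]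
  have hRe : ∀ c, R c = max (v c - D) 0 := fun c => by rw [hR]
  -- lower bounds for the deficits
  have h1 : ∀ c, |y c - z c| ≤ |y 0 - z 0| + v c := by
    intro c
    induction c with
    | zero => rw [hv0]; simp
    | succ c ih =>
      have h2 : |y (c + 1) - z (c + 1)| ≤ |y c - z c| + δ c := by
        rw [hδ]
        have e : y (c + 1) - z (c + 1) = (y c - z c) + (y (c + 1) - y c) - (z (c + 1) - z c) := by
          ring
        rw [e]
        have g1 := abs_sub (y c - z c + (y (c + 1) - y c)) (z (c + 1) - z c)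
        have g2 := abs_add_le (y c - z c) (y (c + 1) - y c)
        omega
      rw [hvs]
      omega
  have h2 : ∀ k c, c + k = n → |y c - z c| ≤ |y n - z n| + (v n - v c) := by
    intro k
    induction k with
    | zero =>
      intro c hc
      rw [add_zero] at hc
      subst hc
      simp
    | succ k ih =>
      intro c hc
      have h3 := ih (c + 1) (by omega)
      have h4 : |y c - z c| ≤ |y (c + 1) - z (c + 1)| + δ c := by
        rw [hδ]
        have e : y c - z c = (y (c + 1) - z (c + 1)) + (z (c + 1) - z c) - (y (c + 1) - y c) := by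
          ring
        rw [e]
        have g1 := abs_sub (y (c + 1) - z (c + 1) + (z (c + 1) - z c)) (y (c + 1) - y c)
        have g2 := abs_add_le (y (c + 1) - z (c + 1)) (z (c + 1) - z c)
        omega
      rw [hvs] at h3
      omega
  have h3 : ∀ c, c ≤ n → |y c - z c| + (L c + R c) ≤ b := by
    intro c hc
    have g1 := h1 c
    have g2 := h2 (n - c) c (by omega)
    rw [hLe, hRe]
    rcases le_total (D - v c) 0 with h | h
    · rw [max_eq_right h, max_eq_left (by omega : (0 : ℤ) ≤ v c - D)]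
      omega
    · rw [max_eq_left h, max_eq_right (by omega : v c - D ≤ 0)]
      omega
  -- summation by parts
  have h4 : ∀ m : ℕ, ∑ c ∈ Finset.range (m + 1), L c =
      ∑ c ∈ Finset.range m, ((c : ℤ) + 1) * (L c - L (c + 1)) + (m + 1) * L m := by
    intro m
    induction m with
    | zero => simp
    | succ m ih =>
      rw [Finset.sum_range_succ, ih, Finset.sum_range_succ]
      push_cast
      ring
  have h5 : ∀ m : ℕ, ∑ c ∈ Finset.range (m + 1), R c =
      ∑ c ∈ Finset.range m, ((m : ℤ) - c) * (R (c + 1) - R c) + (m + 1) * R 0 := by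
    intro m
    induction m with
    | zero => simp
    | succ m ih =>
      have e1 : ∑ c ∈ Finset.range (m + 1), (((m + 1 : ℕ) : ℤ) - c) * (R (c + 1) - R c) =
          ∑ c ∈ Finset.range m, ((m : ℤ) - c) * (R (c + 1) - R c) +
            ∑ c ∈ Finset.range (m + 1), (R (c + 1) - R c) := by
        rw [Finset.sum_range_succ (fun c => (((m + 1 : ℕ) : ℤ) - c) * (R (c + 1) - R c)),
          Finset.sum_range_succ (fun c => (R (c + 1) - R c))]
        have : ∑ c ∈ Finset.range m, (((m + 1 : ℕ) : ℤ) - c) * (R (c + 1) - R c) =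
            ∑ c ∈ Finset.range m, (((m : ℤ) - c) * (R (c + 1) - R c) + (R (c + 1) - R c)) := by
          apply Finset.sum_congr rfl
          intro c _
          push_cast
          ring
        rw [this, Finset.sum_add_distrib]
        push_cast
        ring
      rw [Finset.sum_range_succ, ih, e1, Finset.sum_range_sub]
      push_cast
      ring
  have h6 : ∀ c, c < n → min ((c : ℤ) + 1) (n - c) * δ c ≤
      ((c : ℤ) + 1) * (L c - L (c + 1)) + ((n : ℤ) - c) * (R (c + 1) - R c) := by
    intro c hc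
    have g0 := hδ0 c
    have g1 : L c - L (c + 1) + (R (c + 1) - R c) = δ c := by
      rw [hLe, hLe, hRe, hRe, hvs]
      rcases le_total (D - v c) 0 with h | h <;> rcases le_total (D - (v c + δ c)) 0 with h' | h'
      · rw [max_eq_right h, max_eq_right h', max_eq_left (by omega : (0 : ℤ) ≤ v c + δ c - D),
          max_eq_left (by omega : (0 : ℤ) ≤ v c - D)]
        ring
      · rw [max_eq_right h, max_eq_left h', max_eq_right (by omega : v c + δ c - D ≤ 0),
          max_eq_left (by omega : (0 : ℤ) ≤ v c - D)]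
        omega
      · rw [max_eq_left h, max_eq_right h', max_eq_left (by omega : (0 : ℤ) ≤ v c + δ c - D),
          max_eq_right (by omega : v c - D ≤ 0)]
        omega
      · rw [max_eq_left h, max_eq_left h', max_eq_right (by omega : v c + δ c - D ≤ 0),
          max_eq_right (by omega : v c - D ≤ 0)]
        ring
    have g2 : 0 ≤ L c - L (c + 1) := by
      rw [hLe, hLe, hvs, sub_nonneg]
      exact max_le_max (by omega) le_rfl
    have g3 : 0 ≤ R (c + 1) - R c := by
      rw [hRe, hRe, hvs, sub_nonneg]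
      exact max_le_max (by omega) le_rfl
    rw [← g1, mul_add]
    exact add_le_add (mul_le_mul_of_nonneg_right (min_le_left _ _) g2)
      (mul_le_mul_of_nonneg_right (min_le_right _ _) g3)
  have h7 : ∑ c ∈ Finset.range (n + 1), (|y c - z c| + (L c + R c)) ≤
      ∑ c ∈ Finset.range (n + 1), b :=
    Finset.sum_le_sum (fun c hc => h3 c (by rw [Finset.mem_range] at hc; omega))
  rw [Finset.sum_add_distrib, Finset.sum_add_distrib, Finset.sum_const, Finset.card_range, h4 n,
    h5 n, nsmul_eq_mul] at h7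
  have h8 := Finset.sum_le_sum (fun c (hc : c ∈ Finset.range n) => h6 c (Finset.mem_range.1 hc))
  rw [Finset.sum_add_distrib] at h8
  have h9 : 0 ≤ R 0 := by rw [hRe]; exact le_max_right _ _
  have h10 : 0 ≤ L n := by rw [hLe]; exact le_max_right _ _
  have h11 : L n ≤ ((n : ℤ) + 1) * L n := by nlinarith
  have h12 : 0 ≤ ((n : ℤ) + 1) * R 0 := by positivity
  rw [← hLe n]
  push_cast at h7
  linarith

end Pool.Agent.Helper365.AL
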