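import Mathlib

/-!
Geometric sums.
-/

set_option autoImplicit false

namespace Pool.Agent.Helper365.AL

open Finset

theorem geo {r : ℝ} (h0 : 0 ≤ r) (h1 : r ≤ 1 / 2) (J : ℕ) : ∑ j ∈ range J, r ^ j ≤ 2 := by
  have h2 : (∑ j ∈ range J, r ^ j) * (1 - r) = 1 - r ^ J := by
    induction J with
    | zero => simp
    | succ J ih => rw [sum_range_succ, add_mul, ih, pow_succ]; ring
  have h3 : 0 ≤ r ^ J := by positivity
  have h4 : 0 ≤ ∑ j ∈ range J, r ^ j := sum_nonneg (fun j _ => by positivity)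
  nlinarith

theorem geo_two {r : ℝ} (h0 : 0 ≤ r) (h1 : r ≤ 1 / 2) (J : ℕ) :
    ∑ x ∈ Icc (-(J : ℤ)) J, r ^ x.natAbs ≤ 1 + 4 * r := by
  have key : ∑ x ∈ Icc (-(J : ℤ)) J, r ^ x.natAbs = 1 + 2 * r * ∑ j ∈ range J, r ^ j := by
    induction J with
    | zero => simp
    | succ J ih =>
      have e1 : Icc (-((J + 1 : ℕ) : ℤ)) ((J + 1 : ℕ) : ℤ) =
          insert (((J + 1 : ℕ) : ℤ)) (insert (-((J + 1 : ℕ) : ℤ)) (Icc (-(J : ℤ)) J)) := by
        ext x
        simp only [mem_Icc, mem_insert]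
        push_cast
        omega
      rw [e1, sum_insert, sum_insert, ih, sum_range_succ]
      · have e2 : (-((J + 1 : ℕ) : ℤ)).natAbs = J + 1 := by omega
        have e3 : (((J + 1 : ℕ) : ℤ)).natAbs = J + 1 := by omega
        rw [e2, e3, pow_succ]
        ring
      · simp only [mem_Icc]
        push_cast
        omega
      · simp only [mem_insert, mem_Icc]
        push_cast
        omega
  rw [key]
  have := geo h0 h1 J
  nlinarith

theorem sides (b : ℕ) : ∑ s ∈ Icc (-(b : ℤ)) b, (1 / 2 : ℝ) ^ ((b : ℤ) - |s|).toNat ≤ 4 := by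
  have h1 : ∀ s ∈ Icc (-(b : ℤ)) b, (1 / 2 : ℝ) ^ ((b : ℤ) - |s|).toNat ≤
      (1 / 2 : ℝ) ^ ((b : ℤ) - s).toNat + (1 / 2 : ℝ) ^ ((b : ℤ) + s).toNat := by
    intro s _
    have p1 : (0 : ℝ) ≤ (1 / 2 : ℝ) ^ ((b : ℤ) - s).toNat := by positivity
    have p2 : (0 : ℝ) ≤ (1 / 2 : ℝ) ^ ((b : ℤ) + s).toNat := by positivity
    rcases le_total 0 s with g | g
    · rw [abs_of_nonneg g]; linarith
    · rw [abs_of_nonpos g, sub_neg_eq_add]; linarith
  refine (sum_le_sum h1).trans ?_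
  rw [sum_add_distrib]
  have h2 : ∑ s ∈ Icc (-(b : ℤ)) b, (1 / 2 : ℝ) ^ ((b : ℤ) - s).toNat =
      ∑ j ∈ range (2 * b + 1), (1 / 2 : ℝ) ^ j := by
    refine sum_nbij' (fun s => ((b : ℤ) - s).toNat) (fun j => (b : ℤ) - j) ?_ ?_ ?_ ?_ ?_
    · intro s hs; rw [mem_Icc] at hs; rw [mem_range]; omega
    · intro j hj; rw [mem_range] at hj; rw [mem_Icc]; omega
    · intro s hs; rw [mem_Icc] at hs; omega
    · intro j hj; rw [mem_range] at hj; omega
    · intro s hs; rfl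
  have h3 : ∑ s ∈ Icc (-(b : ℤ)) b, (1 / 2 : ℝ) ^ ((b : ℤ) + s).toNat =
      ∑ j ∈ range (2 * b + 1), (1 / 2 : ℝ) ^ j := by
    refine sum_nbij' (fun s => ((b : ℤ) + s).toNat) (fun j => (j : ℤ) - b) ?_ ?_ ?_ ?_ ?_
    · intro s hs; rw [mem_Icc] at hs; rw [mem_range]; omega
    · intro j hj; rw [mem_range] at hj; rw [mem_Icc]; omega
    · intro s hs; rw [mem_Icc] at hs; omega
    · intro j hj; rw [mem_range] at hj; omega
    · intro s hs; rfl
  rw [h2, h3]
  have := geo (r := 1 / 2) (by norm_num) le_rfl (2 * b + 1)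
  linarith

/-- the weight of the increments -/
noncomputable def wt (q : ℝ) (n : ℕ) (c : ℕ) : ℝ := 2 * (1 / q) ^ (min (c + 1) (n - c))

theorem wt_nonneg {q : ℝ} (hq : 256 ≤ q) (n c : ℕ) : 0 ≤ wt q n c := by
  unfold wt
  have : 0 < q := by linarith
  positivity

theorem inv_le {q : ℝ} (hq : 256 ≤ q) : 1 / q ≤ 1 / 256 :=
  one_div_le_one_div_of_le (by norm_num) hq

theorem wt_le {q : ℝ} (hq : 256 ≤ q) {n c : ℕ} (hc : c < n) : wt q n c ≤ 1 / 128 := by
  unfold wt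
  have h0 : 0 < q := by linarith
  have h1 := inv_le hq
  have h2 : (1 / q) ^ (min (c + 1) (n - c)) ≤ (1 / q) ^ 1 :=
    pow_le_pow_of_le_one (by positivity) (by linarith) (by omega)
  rw [pow_one] at h2
  linarith

theorem wt_sum {q : ℝ} (hq : 256 ≤ q) (n : ℕ) : ∑ c ∈ range n, wt q n c ≤ 1 / 32 := by
  have h0 : 0 < q := by linarith
  have h1 := inv_le hq
  have h2 : ∀ c ∈ range n, wt q n c ≤ 2 * (1 / q) * (1 / q) ^ c +
      2 * (1 / q) * (1 / q) ^ (n - 1 - c) := by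
    intro c hc
    rw [mem_range] at hc
    unfold wt
    have p1 : (0 : ℝ) ≤ 2 * (1 / q) * (1 / q) ^ c := by positivity
    have p2 : (0 : ℝ) ≤ 2 * (1 / q) * (1 / q) ^ (n - 1 - c) := by positivity
    rcases le_total (c + 1) (n - c) with g | g
    · rw [min_eq_left g, pow_succ]
      linarith
    · rw [min_eq_right g, show n - c = n - 1 - c + 1 by omega, pow_succ]
      linarith
  refine (sum_le_sum h2).trans ?_
  rw [sum_add_distrib, ← mul_sum, ← mul_sum, sum_range_reflect (fun c => (1 / q) ^ c) n]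
  have h3 := geo (r := 1 / q) (by positivity) (by linarith) n
  have h4 : 2 * (1 / q) * ∑ j ∈ range n, (1 / q) ^ j ≤ 2 * (1 / 256) * 2 := by
    apply mul_le_mul (by linarith) h3 (sum_nonneg (fun j _ => by positivity)) (by norm_num)
  linarith

/-- the sum over the increments -/
theorem incr {q : ℝ} (hq : 256 ≤ q) (n J : ℕ) :
    ∑ G ∈ Fintype.piFinset (fun _ : Fin n × Bool => Icc (-(J : ℤ)) J),
      ∏ x : Fin n × Bool, wt q n x.1 ^ (G x).natAbs ≤ 3 := by
  classical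
  rw [← prod_univ_sum (fun _ : Fin n × Bool => Icc (-(J : ℤ)) J)
    (fun x y => wt q n x.1 ^ y.natAbs)]
  have h1 : ∀ x ∈ (univ : Finset (Fin n × Bool)),
      ∑ y ∈ Icc (-(J : ℤ)) J, wt q n x.1 ^ y.natAbs ≤ Real.exp (4 * wt q n x.1) := by
    intro x _
    have g1 := wt_le hq (n := n) (c := x.1) x.1.2
    refine (geo_two (wt_nonneg hq n x.1) (by linarith) J).trans ?_
    have := Real.add_one_le_exp (4 * wt q n x.1)
    linarith
  refine (prod_le_prod (fun x _ => sum_nonneg (fun y _ => pow_nonneg (wt_nonneg hq _ _) _)) h1).trans ?_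
  rw [← Real.exp_sum, Fintype.sum_prod_type]
  have h2 : ∑ x : Fin n, ∑ _y : Bool, 4 * wt q n x = 8 * ∑ c ∈ range n, wt q n c := by
    rw [← Fin.sum_univ_eq_sum_range, mul_sum]
    apply sum_congr rfl
    intro x _
    simp only [sum_const, card_univ, Fintype.card_bool, nsmul_eq_mul]
    push_cast
    ring
  simp only at h2 ⊢
  rw [h2]
  have h3 := wt_sum hq n
  refine (Real.exp_le_exp.2 (show 8 * ∑ c ∈ range n, wt q n c ≤ 1 by linarith)).trans ?_
  have := Real.exp_one_lt_d9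
  linarith

end Pool.Agent.Helper365.AL
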