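import Pool.Agent.Helper365.AL.Pas

/-!
Closed lattice paths that cross every column exactly twice.
-/

set_option autoImplicit false

namespace Pool.Agent.Helper365.AL

/-- a closed path, rooted at the step that enters the first column -/
structure Cy (M a : ℕ) (p : ℕ → ℤ × ℤ) : Prop where
  zero : p 0 = (0, 0)
  last : p M = (0, 0)
  step : ∀ i, i < M → |(p (i + 1)).1 - (p i).1| + |(p (i + 1)).2 - (p i).2| = 1
  inj : ∀ i j, i < j → j < M → p i ≠ p j
  first : (p 1).1 = 1
  top : ∃ T, T ≤ M ∧ (p T).1 = a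

/-- the horizontal steps -/
structure Sh (M a : ℕ) (p : ℕ → ℤ × ℤ) (e w : ℕ → ℕ) : Prop where
  e0 : e 0 = 0
  ee : ∀ c, c < a → e c < M ∧ (p (e c)).1 = c ∧ (p (e c + 1)).1 = c + 1 ∧
        w c < M ∧ (p (w c)).1 = c + 1 ∧ (p (w c + 1)).1 = c ∧ e c < w c
  mono : ∀ c, c + 1 < a → e c < e (c + 1) ∧ w (c + 1) < w c
  hor : ∀ i, i < M → (p (i + 1)).1 ≠ (p i).1 → (∃ c, c < a ∧ i = e c) ∨ (∃ c, c < a ∧ i = w c)

variable {M a : ℕ} {p : ℕ → ℤ × ℤ}

theorem Cy.hs (h : Cy M a p) {i : ℕ} (hi : i < M) : |(p (i + 1)).1 - (p i).1| ≤ 1 := by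
  have := h.step i hi
  have h2 := abs_nonneg ((p (i + 1)).2 - (p i).2)
  omega

/-- the passages of the path -/
theorem Cy.pas (h : Cy M a p) (ha : 1 ≤ a) : ∃ e w : ℕ → ℕ,
      (∀ c, c < a → e c < M ∧ (p (e c)).1 = c ∧ (p (e c + 1)).1 = c + 1 ∧
        w c < M ∧ (p (w c)).1 = c + 1 ∧ (p (w c + 1)).1 = c ∧ e c < w c) ∧
      (∀ c, c + 1 < a → e c < e (c + 1) ∧ w (c + 1) < w c) ∧ e 0 = 0 := by
  obtain ⟨T, hT, hxT⟩ := h.top
  obtain ⟨e, w, h1, h2, h3⟩ := passages (M := M) (a := a) (x := fun i => (p i).1)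
    (by simp only [h.zero]) (by simp only [h.last]) (fun i hi => h.hs hi) hT hxT
  exact ⟨e, w, h1, h2, h3 h.first (by omega)⟩

theorem two_a_le (h : Cy M a p) :
    2 * a ≤ ((Finset.range M).filter (fun i => (p (i + 1)).1 ≠ (p i).1)).card := by
  classical
  rcases Nat.eq_zero_or_pos a with ha | ha
  · subst ha; omega
  obtain ⟨e, w, h1, h2, h3⟩ := h.pas ha
  have hinj1 : Set.InjOn e (Finset.range a) := by
    intro c hc c' hc' he
    rw [Finset.mem_coe, Finset.mem_range] at hc hc'
    have g1 := (h1 c hc).2.1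
    have g2 := (h1 c' hc').2.1
    rw [he] at g1
    omega
  have hinj2 : Set.InjOn w (Finset.range a) := by
    intro c hc c' hc' he
    rw [Finset.mem_coe, Finset.mem_range] at hc hc'
    have g1 := (h1 c hc).2.2.2.2.1
    have g2 := (h1 c' hc').2.2.2.2.1
    rw [he] at g1
    omega
  have hdis : Disjoint ((Finset.range a).image e) ((Finset.range a).image w) := by
    rw [Finset.disjoint_left]
    intro i hi hi'
    rw [Finset.mem_image] at hi hi'
    obtain ⟨c, hc, hc1⟩ := hi
    obtain ⟨c', hc', hc1'⟩ := hi'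
    rw [Finset.mem_range] at hc hc'
    obtain ⟨-, g1, g2, -⟩ := h1 c hc
    obtain ⟨-, -, -, -, k1, k2, -⟩ := h1 c' hc'
    rw [hc1] at g1 g2
    rw [hc1'] at k1 k2
    omega
  have hsub : (Finset.range a).image e ∪ (Finset.range a).image w ⊆
      (Finset.range M).filter (fun i => (p (i + 1)).1 ≠ (p i).1) := by
    intro i hi
    rw [Finset.mem_union, Finset.mem_image, Finset.mem_image] at hi
    rw [Finset.mem_filter, Finset.mem_range]
    rcases hi with ⟨c, hc, rfl⟩ | ⟨c, hc, rfl⟩
    · rw [Finset.mem_range] at hc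
      obtain ⟨g0, g1, g2, -⟩ := h1 c hc
      exact ⟨g0, by omega⟩
    · rw [Finset.mem_range] at hc
      obtain ⟨-, -, -, g0, g1, g2, -⟩ := h1 c hc
      exact ⟨g0, by omega⟩
  have hcard := Finset.card_le_card hsub
  rw [Finset.card_union_of_disjoint hdis, Finset.card_image_of_injOn hinj1,
    Finset.card_image_of_injOn hinj2, Finset.card_range] at hcard
  omega

theorem shape (h : Cy M a p) (ha : 1 ≤ a)
    (hor : ((Finset.range M).filter (fun i => (p (i + 1)).1 ≠ (p i).1)).card = 2 * a) :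
    ∃ e w : ℕ → ℕ, Sh M a p e w := by
  classical
  obtain ⟨e, w, h1, h2, h3⟩ := h.pas ha
  refine ⟨e, w, h3, h1, h2, ?_⟩
  have hinj1 : Set.InjOn e (Finset.range a) := by
    intro c hc c' hc' he
    rw [Finset.mem_coe, Finset.mem_range] at hc hc'
    have g1 := (h1 c hc).2.1
    have g2 := (h1 c' hc').2.1
    rw [he] at g1
    omega
  have hinj2 : Set.InjOn w (Finset.range a) := by
    intro c hc c' hc' he
    rw [Finset.mem_coe, Finset.mem_range] at hc hc'
    have g1 := (h1 c hc).2.2.2.2.1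
    have g2 := (h1 c' hc').2.2.2.2.1
    rw [he] at g1
    omega
  have hdis : Disjoint ((Finset.range a).image e) ((Finset.range a).image w) := by
    rw [Finset.disjoint_left]
    intro i hi hi'
    rw [Finset.mem_image] at hi hi'
    obtain ⟨c, hc, hc1⟩ := hi
    obtain ⟨c', hc', hc1'⟩ := hi'
    rw [Finset.mem_range] at hc hc'
    obtain ⟨-, g1, g2, -⟩ := h1 c hc
    obtain ⟨-, -, -, -, k1, k2, -⟩ := h1 c' hc'
    rw [hc1] at g1 g2
    rw [hc1'] at k1 k2
    omega
  have hsub : (Finset.range a).image e ∪ (Finset.range a).image w ⊆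
      (Finset.range M).filter (fun i => (p (i + 1)).1 ≠ (p i).1) := by
    intro i hi
    rw [Finset.mem_union, Finset.mem_image, Finset.mem_image] at hi
    rw [Finset.mem_filter, Finset.mem_range]
    rcases hi with ⟨c, hc, rfl⟩ | ⟨c, hc, rfl⟩
    · rw [Finset.mem_range] at hc
      obtain ⟨g0, g1, g2, -⟩ := h1 c hc
      exact ⟨g0, by omega⟩
    · rw [Finset.mem_range] at hc
      obtain ⟨-, -, -, g0, g1, g2, -⟩ := h1 c hc
      exact ⟨g0, by omega⟩
  have heq := Finset.eq_of_subset_of_card_le hsub (by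
    rw [Finset.card_union_of_disjoint hdis, Finset.card_image_of_injOn hinj1,
      Finset.card_image_of_injOn hinj2, Finset.card_range, hor]
    omega)
  intro i hi hne
  have : i ∈ (Finset.range a).image e ∪ (Finset.range a).image w := by
    rw [heq, Finset.mem_filter, Finset.mem_range]
    exact ⟨hi, hne⟩
  rw [Finset.mem_union, Finset.mem_image, Finset.mem_image] at this
  rcases this with ⟨c, hc, rfl⟩ | ⟨c, hc, rfl⟩
  · exact Or.inl ⟨c, Finset.mem_range.1 hc, rfl⟩
  · exact Or.inr ⟨c, Finset.mem_range.1 hc, rfl⟩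

/-- the path moves by at most the time -/
theorem Cy.lip (h : Cy M a p) {i j : ℕ} (hij : i ≤ j) (hj : j ≤ M) :
    |(p j).1 - (p i).1| + |(p j).2 - (p i).2| ≤ (j : ℤ) - i := by
  induction j, hij using Nat.le_induction with
  | base => simp
  | succ j hij ih =>
    have h1 := ih (by omega)
    have h2 := h.step j (by omega)
    have g1 := abs_sub_le (p (j + 1)).1 (p j).1 (p i).1
    have g2 := abs_sub_le (p (j + 1)).2 (p j).2 (p i).2
    push_cast
    omega

/-- horizontal steps keep the height -/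
theorem Cy.hgt (h : Cy M a p) {i : ℕ} (hi : i < M) (hx : (p (i + 1)).1 ≠ (p i).1) :
    (p (i + 1)).2 = (p i).2 := by
  have h1 := h.step i hi
  have h2 : 1 ≤ |(p (i + 1)).1 - (p i).1| := by
    rw [← Int.zero_add 1, Int.add_one_le_iff, abs_pos]
    omega
  have h3 : |(p (i + 1)).2 - (p i).2| = 0 := by
    have := abs_nonneg ((p (i + 1)).2 - (p i).2)
    omega
  rw [abs_eq_zero] at h3
  omega

/-- the total variation of the heights -/
theorem tv {n : ℕ} {e w : ℕ → ℕ} (h : Cy M (n + 1) p) (s : Sh M (n + 1) p e w) :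
    |(p (e 0)).2 - (p (w 0)).2| + |(p (e n)).2 - (p (w n)).2| +
      ∑ c ∈ Finset.range n, (|(p (e (c + 1))).2 - (p (e c)).2| +
        |(p (w (c + 1))).2 - (p (w c)).2|) ≤ (M : ℤ) - 2 * (n + 1) := by
  have hye : ∀ c, c < n + 1 → (p (e c + 1)).2 = (p (e c)).2 := by
    intro c hc
    obtain ⟨g1, g2, g3, -⟩ := s.ee c hc
    exact h.hgt g1 (by omega)
  have hyw : ∀ c, c < n + 1 → (p (w c + 1)).2 = (p (w c)).2 := by
    intro c hc
    obtain ⟨-, -, -, g1, g2, g3, -⟩ := s.ee c hc
    exact h.hgt g1 (by omega)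
  have key : ∀ m : ℕ, m ≤ n → ∑ c ∈ Finset.range m, (|(p (e (c + 1))).2 - (p (e c)).2| +
        |(p (w (c + 1))).2 - (p (w c)).2|) ≤ (e m : ℤ) + w 0 - w m - 2 * m := by
    intro m
    induction m with
    | zero => intro _; rw [s.e0]; simp
    | succ m ih =>
      intro hm
      have h1 := ih (by omega)
      rw [Finset.sum_range_succ]
      obtain ⟨g1, g2⟩ := s.mono m (by omega)
      obtain ⟨k1, -, -, k2, -⟩ := s.ee m (by omega)
      obtain ⟨l1, -, -, l2, -⟩ := s.ee (m + 1) (by omega)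
      have h2 := h.lip (i := e m + 1) (j := e (m + 1)) (by omega) (by omega)
      have h3 := h.lip (i := w (m + 1) + 1) (j := w m) (by omega) (by omega)
      rw [hye m (by omega)] at h2
      rw [hyw (m + 1) (by omega)] at h3
      have h4 := abs_nonneg ((p (e (m + 1))).1 - (p (e m + 1)).1)
      have h5 := abs_nonneg ((p (w m)).1 - (p (w (m + 1) + 1)).1)
      have h6 := abs_sub_comm (p (w (m + 1))).2 (p (w m)).2
      push_cast at h2 h3 ⊢
      omega
  have h1 := key n le_rfl
  obtain ⟨k1, -, -, k2, -, -, k3⟩ := s.ee n (by omega)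
  obtain ⟨l1, -, -, l2, -⟩ := s.ee 0 (by omega)
  have h2 := h.lip (i := e n + 1) (j := w n) (by omega) (by omega)
  have h3 := h.lip (i := w 0 + 1) (j := M) (by omega) le_rfl
  rw [hye n (by omega)] at h2
  rw [hyw 0 (by omega), h.last] at h3
  have e1 : (p (e 0)).2 = 0 := by rw [s.e0, h.zero]
  rw [e1]
  have h4 := abs_nonneg ((p (w n)).1 - (p (e n + 1)).1)
  have h5 := abs_nonneg ((0 : ℤ) - (p (w 0 + 1)).1)
  have h6 := abs_sub_comm (p (w n)).2 (p (e n)).2
  push_cast at h2 h3
  omega

/-- vertical runs are straight -/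
theorem run {s t : ℕ} (hst : s ≤ t)
    (hv : ∀ i, s ≤ i → i < t → (p (i + 1)).1 = (p i).1 ∧ |(p (i + 1)).2 - (p i).2| = 1)
    (hinj : ∀ i, s ≤ i → i + 2 ≤ t → p i ≠ p (i + 2)) :
    ((t : ℤ) - s = |(p t).2 - (p s).2|) ∧
      ∀ k : ℕ, s + k ≤ t → p (s + k) = ((p s).1, (p s).2 + ((p t).2 - (p s).2).sign * k) := by
  rcases hst.eq_or_lt with h | h
  · subst h
    refine ⟨by simp, fun k hk => ?_⟩
    have : k = 0 := by omega
    subst this
    simp
  · obtain ⟨ε, hε⟩ : ∃ ε, ε = (p (s + 1)).2 - (p s).2 := ⟨_, rfl⟩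
    have hε1 : |ε| = 1 := by rw [hε]; exact (hv s le_rfl h).2
    have key : ∀ k : ℕ, s + k ≤ t → p (s + k) = ((p s).1, (p s).2 + ε * k) ∧
        (s + k + 1 ≤ t → p (s + (k + 1)) = ((p s).1, (p s).2 + ε * (k + 1 : ℕ))) := by
      intro k
      induction k with
      | zero =>
        intro _
        refine ⟨by simp, fun _ => ?_⟩
        have h1 := (hv s le_rfl h).1
        apply Prod.ext
        · simp only [zero_add]
          exact h1
        · simp only [zero_add, Nat.cast_one, mul_one]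
          omega
      | succ k ih =>
        intro hk
        obtain ⟨h1, h2⟩ := ih (by omega)
        have h3 := h2 (by omega)
        refine ⟨h3, fun hk2 => ?_⟩
        have h4 := hv (s + (k + 1)) (by omega) (by omega)
        have h5 := hinj (s + k) (by omega) (by omega)
        rw [h3] at h4
        simp only at h4
        have e1 : s + (k + 1) + 1 = s + (k + 1 + 1) := by ring
        have e2 : s + k + 2 = s + (k + 1 + 1) := by ring
        rw [e1] at h4
        rw [e2, h1] at h5
        apply Prod.ext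
        · exact h4.1
        · simp only
          push_cast at h4 ⊢
          by_contra hne
          apply h5
          apply Prod.ext
          · exact h4.1.symm
          · simp only
            rcases abs_eq (by norm_num : (0 : ℤ) ≤ 1) |>.1 h4.2 with g | g <;>
              rcases abs_eq (by norm_num : (0 : ℤ) ≤ 1) |>.1 hε1 with g' | g' <;>
              rw [g'] at g hne ⊢ <;> (try exact absurd (by linarith) hne) <;> linarith
    have h1 := (key (t - s) (by omega)).1
    rw [Nat.add_sub_cancel' hst] at h1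
    have h2 := congrArg Prod.snd h1
    simp only at h2
    rw [Nat.cast_sub hst] at h2
    have h3 : (p t).2 - (p s).2 = ε * ((t : ℤ) - s) := by linarith
    have h4 : (0 : ℤ) < (t : ℤ) - s := by omega
    constructor
    · rw [h3, abs_mul, hε1, one_mul, abs_of_pos h4]
    · intro k hk
      rw [(key k hk).1, h3]
      have : (ε * ((t : ℤ) - s)).sign = ε := by
        rw [Int.sign_mul, Int.sign_eq_one_of_pos h4, mul_one]
        rcases abs_eq (by norm_num : (0 : ℤ) ≤ 1) |>.1 hε1 with g | g <;> rw [g] <;> rfl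
      rw [this]

end Pool.Agent.Helper365.AL
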