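import Pool.Agent.Helper365.AL.Loop
import Pool.Agent.Helper365.AL.Ser

/-!
The weighted number of the loops that cross every column exactly twice.
-/

set_option autoImplicit false

namespace Pool.Agent.Helper365.AL

open Pool.Agent.Y981.L2 H981 Finset

theorem tri (y z : ℕ → ℤ) (n : ℕ) : |y 0 - z 0| ≤ |y n - z n| +
    ∑ c ∈ range n, (|y (c + 1) - y c| + |z (c + 1) - z c|) := by
  induction n with
  | zero => simp
  | succ n ih =>
    rw [sum_range_succ]
    have e : y n - z n = (y (n + 1) - z (n + 1)) + (z (n + 1) - z n) - (y (n + 1) - y n) := by ring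
    have g1 := abs_sub (y (n + 1) - z (n + 1) + (z (n + 1) - z n)) (y (n + 1) - y n)
    have g2 := abs_add_le (y (n + 1) - z (n + 1)) (z (n + 1) - z n)
    rw [← e] at g1
    omega

/-- the increments of the heights -/
def inc (n : ℕ) (y z : ℕ → ℤ) (x : Fin n × Bool) : ℤ :=
  if x.2 then z (x.1 + 1) - z x.1 else y (x.1 + 1) - y x.1

theorem inc_sum (n : ℕ) (y z : ℕ → ℤ) (g : ℕ → ℤ) :
    ∑ x : Fin n × Bool, g x.1 * |inc n y z x| =
      ∑ c ∈ range n, g c * (|y (c + 1) - y c| + |z (c + 1) - z c|) := by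
  rw [Fintype.sum_prod_type, ← Fin.sum_univ_eq_sum_range
    (fun c => g c * (|y (c + 1) - y c| + |z (c + 1) - z c|))]
  apply sum_congr rfl
  intro x _
  simp only [Fintype.sum_bool, inc, if_true, Bool.false_eq_true, if_false]
  ring

/-- the weight of a code -/
noncomputable def Hw (q : ℝ) (n B : ℕ) (s : ℤ) (G : Fin n × Bool → ℤ) : ℝ :=
  q ^ ((n + 1) * B) * ((1 / 2 : ℝ) ^ ((B : ℤ) - |s|).toNat *
    ∏ x : Fin n × Bool, wt q n x.1 ^ (G x).natAbs)

theorem weight {q : ℝ} (hq : 256 ≤ q) {n B A : ℕ} (y z : ℕ → ℤ) (hy : y 0 = 0)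
    (htv : |y 0 - z 0| + |y n - z n| +
      ∑ c ∈ range n, (|y (c + 1) - y c| + |z (c + 1) - z c|) ≤ 2 * (B : ℤ))
    (hA : (A : ℤ) ≤ ∑ c ∈ range (n + 1), |y c - z c|) :
    q ^ A ≤ Hw q n B (z 0) (inc n y z) := by
  have hq0 : 0 < q := by linarith
  have hq1 : 1 ≤ q := by linarith
  obtain ⟨δ, hδ⟩ : ∃ δ : ℕ → ℤ, δ = fun c => |y (c + 1) - y c| + |z (c + 1) - z c| := ⟨_, rfl⟩
  have hδe : ∀ c, δ c = |y (c + 1) - y c| + |z (c + 1) - z c| := fun c => by rw [hδ]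
  have hδs : ∑ c ∈ range n, (|y (c + 1) - y c| + |z (c + 1) - z c|) = ∑ c ∈ range n, δ c :=
    sum_congr rfl (fun c _ => (hδe c).symm)
  rw [hδs] at htv
  have hE := energy (n := n) (b := (B : ℤ)) y z δ hδe htv
  obtain ⟨V, hV⟩ : ∃ V, V = ∑ c ∈ range n, δ c := ⟨_, rfl⟩
  obtain ⟨E2, hE2⟩ : ∃ E2, E2 = ∑ c ∈ range n, min ((c : ℤ) + 1) (n - c) * δ c := ⟨_, rfl⟩
  have hz0 : |y 0 - z 0| = |z 0| := by rw [hy, zero_sub, abs_neg]
  rw [← hV, ← hE2, hz0] at hE
  -- natural numbers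
  obtain ⟨Vn, hVn⟩ : ∃ Vn : ℕ, Vn = ∑ x : Fin n × Bool, (inc n y z x).natAbs := ⟨_, rfl⟩
  obtain ⟨En, hEn⟩ : ∃ En : ℕ, En =
    ∑ x : Fin n × Bool, min ((x.1 : ℕ) + 1) (n - x.1) * (inc n y z x).natAbs := ⟨_, rfl⟩
  have hV2 : (Vn : ℤ) = V := by
    have h1 := inc_sum n y z (fun _ => 1)
    simp only [one_mul] at h1
    rw [hδs, ← hV] at h1
    rw [hVn, ← h1]
    push_cast
    rfl
  have hEn2 : (En : ℤ) = E2 := by
    have h1 := inc_sum n y z (fun c => min ((c : ℤ) + 1) (n - c))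
    have h2 : ∑ c ∈ range n, min ((c : ℤ) + 1) (n - c) *
        (|y (c + 1) - y c| + |z (c + 1) - z c|) = E2 := by
      rw [hE2]
      exact sum_congr rfl (fun c _ => by rw [hδe])
    rw [h2] at h1
    rw [hEn, ← h1]
    push_cast
    apply sum_congr rfl
    intro x _
    have : ((n - (x.1 : ℕ) : ℕ) : ℤ) = (n : ℤ) - (x.1 : ℕ) := by
      rw [Nat.cast_sub x.1.2.le]
    rw [this]
  obtain ⟨E1, hE1⟩ : ∃ E1, E1 = (max ((B : ℤ) - |z 0| - V) 0).toNat := ⟨_, rfl⟩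
  have hE1' : (E1 : ℤ) = max ((B : ℤ) - |z 0| - V) 0 := by
    rw [hE1, Int.toNat_of_nonneg (le_max_right _ _)]
  rw [← hE1', ← hEn2] at hE
  have htot : A + (E1 + En) ≤ (n + 1) * B := by
    have : (A : ℤ) + (E1 + En) ≤ (n + 1) * B := by linarith
    exact_mod_cast this
  have h1 : q ^ A ≤ q ^ ((n + 1) * B) * (1 / q) ^ (E1 + En) := by
    have e1 : q ^ A = q ^ (A + (E1 + En)) * (1 / q) ^ (E1 + En) := by
      rw [pow_add, mul_assoc, ← mul_pow, mul_one_div_cancel hq0.ne', one_pow, mul_one]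
    rw [e1]
    exact mul_le_mul_of_nonneg_right (pow_le_pow_right₀ hq1 htot) (by positivity)
  refine h1.trans ?_
  unfold Hw
  apply mul_le_mul_of_nonneg_left _ (by positivity)
  rw [pow_add]
  have h2 : (1 / q) ^ En = ∏ x : Fin n × Bool,
      ((1 / q) ^ (min ((x.1 : ℕ) + 1) (n - x.1))) ^ (inc n y z x).natAbs := by
    rw [hEn, ← prod_pow_eq_pow_sum]
    apply prod_congr rfl
    intro x _
    rw [pow_mul]
  have h3 : (1 / q) ^ E1 ≤ 2 ^ Vn * (1 / 2 : ℝ) ^ ((B : ℤ) - |z 0|).toNat := by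
    have h4 : (1 / q) ^ E1 ≤ (1 / 2 : ℝ) ^ E1 := by
      apply pow_le_pow_left₀ (by positivity)
      have := inv_le hq
      linarith
    have h5 : ((B : ℤ) - |z 0|).toNat ≤ E1 + Vn := by
      have := le_max_left ((B : ℤ) - |z 0| - V) 0
      omega
    have h6 : (1 / 2 : ℝ) ^ (E1 + Vn) ≤ (1 / 2 : ℝ) ^ ((B : ℤ) - |z 0|).toNat :=
      pow_le_pow_of_le_one (by norm_num) (by norm_num) h5
    have h7 : (1 / 2 : ℝ) ^ E1 = 2 ^ Vn * (1 / 2 : ℝ) ^ (E1 + Vn) := by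
      rw [pow_add, mul_comm ((1 / 2 : ℝ) ^ E1), ← mul_assoc, ← mul_pow]
      norm_num
    calc (1 / q) ^ E1 ≤ (1 / 2 : ℝ) ^ E1 := h4
      _ = 2 ^ Vn * (1 / 2 : ℝ) ^ (E1 + Vn) := h7
      _ ≤ _ := mul_le_mul_of_nonneg_left h6 (by positivity)
  have h8 : (2 : ℝ) ^ Vn = ∏ x : Fin n × Bool, (2 : ℝ) ^ (inc n y z x).natAbs := by
    rw [hVn, ← prod_pow_eq_pow_sum]
  have h9 : (∏ x : Fin n × Bool, (2 : ℝ) ^ (inc n y z x).natAbs) *
      ∏ x : Fin n × Bool,
        ((1 / q) ^ (min ((x.1 : ℕ) + 1) (n - x.1))) ^ (inc n y z x).natAbs =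
      ∏ x : Fin n × Bool, wt q n x.1 ^ (inc n y z x).natAbs := by
    rw [← prod_mul_distrib]
    apply prod_congr rfl
    intro x _
    unfold wt
    rw [mul_pow]
  rw [← h9, ← h8, ← h2]
  have h10 : 0 ≤ (1 / q) ^ En := by positivity
  calc (1 / q) ^ E1 * (1 / q) ^ En
      ≤ (2 ^ Vn * (1 / 2 : ℝ) ^ ((B : ℤ) - |z 0|).toNat) * (1 / q) ^ En :=
        mul_le_mul_of_nonneg_right h3 h10
    _ = _ := by ring

/-- **the sum over the loops that cross every column exactly twice** -/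
theorem fine {q : ℝ} (hq : 256 ≤ q) {m n : ℕ} (hm : 1 ≤ m) [NeZero (2 * m)]
    (F : Finset (ZMod (2 * m) → ℤ × ℤ))
    (hF : ∀ f ∈ F, IsLoop (2 * m) f ∧ width (2 * m) f = n + 1 ∧ hz (2 * m) f = 2 * (n + 1)) :
    ∑ f ∈ F, q ^ area (2 * m) f ≤ 24 * m * q ^ ((n + 1) * (m - (n + 1))) := by
  classical
  have hq0 : 0 < q := by linarith
  have hdata : ∀ f : ZMod (2 * m) → ℤ × ℤ, f ∈ F → ∃ (k : ZMod (2 * m)) (e w : ℕ → ℕ),
      Cy (2 * m) (n + 1) (pt f k) ∧ Sh (2 * m) (n + 1) (pt f k) e w := by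
    intro f hf
    obtain ⟨h1, h2, h3⟩ := hF f hf
    obtain ⟨k, hk⟩ := root hm h1 (by omega)
    rw [h2] at hk
    obtain ⟨e, w, hs⟩ := shape hk (by omega) (by rw [hz_eq, h3])
    exact ⟨k, e, w, hk, hs⟩
  choose! k e w hcy hsh using hdata
  obtain ⟨B, hB⟩ : ∃ B, B = m - (n + 1) := ⟨_, rfl⟩
  rw [← hB]
  let Y : (ZMod (2 * m) → ℤ × ℤ) → ℕ → ℤ := fun f c => (pt f (k f) (e f c)).2
  let Z : (ZMod (2 * m) → ℤ × ℤ) → ℕ → ℤ := fun f c => (pt f (k f) (w f c)).2
  have hY0 : ∀ f ∈ F, Y f 0 = 0 := by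
    intro f hf
    simp only [Y]
    rw [(hsh f hf).e0, pt_zero]
  have htv : ∀ f ∈ F, |Y f 0 - Z f 0| + |Y f n - Z f n| +
      ∑ c ∈ range n, (|Y f (c + 1) - Y f c| + |Z f (c + 1) - Z f c|) ≤ 2 * (B : ℤ) ∧
      n + 1 ≤ m := by
    intro f hf
    have h1 := tv (hcy f hf) (hsh f hf)
    have h2 : 0 ≤ |Y f 0 - Z f 0| + |Y f n - Z f n| +
      ∑ c ∈ range n, (|Y f (c + 1) - Y f c| + |Z f (c + 1) - Z f c|) := by positivity
    have h3 : (0 : ℤ) ≤ ((2 * m : ℕ) : ℤ) - 2 * (n + 1) := h2.trans h1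
    have h4 : n + 1 ≤ m := by omega
    refine ⟨h1.trans (le_of_eq ?_), h4⟩
    rw [hB, Nat.cast_sub h4]
    push_cast
    ring
  let code : (ZMod (2 * m) → ℤ × ℤ) → ZMod (2 * m) × ℤ × (Fin n × Bool → ℤ) :=
    fun f => (k f, Z f 0, inc n (Y f) (Z f))
  let T : Finset (ZMod (2 * m) × ℤ × (Fin n × Bool → ℤ)) :=
    univ ×ˢ Icc (-(B : ℤ)) B ×ˢ
      Fintype.piFinset (fun _ : Fin n × Bool => Icc (-((2 * m : ℕ) : ℤ)) (2 * m : ℕ))
  let H : ZMod (2 * m) × ℤ × (Fin n × Bool → ℤ) → ℝ := fun c => Hw q n B c.2.1 c.2.2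
  have hH0 : ∀ c, 0 ≤ H c := by
    intro c
    simp only [H, Hw]
    have : 0 ≤ ∏ x : Fin n × Bool, wt q n x.1 ^ (c.2.2 x).natAbs :=
      prod_nonneg (fun x _ => pow_nonneg (wt_nonneg hq _ _) _)
    positivity
  have hle : ∀ f ∈ F, q ^ area (2 * m) f ≤ H (code f) := by
    intro f hf
    exact weight hq (Y f) (Z f) (hY0 f hf) (htv f hf).1
      (area_sh (hF f hf).1 (hcy f hf) (hsh f hf))
  have hmem : ∀ f ∈ F, code f ∈ T := by
    intro f hf
    obtain ⟨h1, h2⟩ := htv f hf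
    have h3 := tri (Y f) (Z f) n
    have h4 := hY0 f hf
    have h5 : |Y f 0 - Z f 0| = |Z f 0| := by rw [h4, zero_sub, abs_neg]
    rw [h5] at h1 h3
    have h6 : |Z f 0| ≤ B := by omega
    rw [abs_le] at h6
    simp only [T, code]
    rw [mem_product, mem_product]
    refine ⟨mem_univ _, mem_Icc.2 h6, ?_⟩
    rw [Fintype.mem_piFinset]
    intro x
    rw [mem_Icc, ← abs_le]
    have h7 := inc_sum n (Y f) (Z f) (fun _ => 1)
    simp only [one_mul] at h7
    have h8 : |inc n (Y f) (Z f) x| ≤ ∑ x : Fin n × Bool, |inc n (Y f) (Z f) x| :=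
      single_le_sum (f := fun x' => |inc n (Y f) (Z f) x'|) (fun x _ => abs_nonneg _) (mem_univ x)
    have h9 := abs_nonneg (Z f 0)
    have h10 := abs_nonneg (Y f n - Z f n)
    rw [h7] at h8
    have h11 : (B : ℤ) ≤ m := by rw [hB]; omega
    push_cast
    omega
  have hinj : Set.InjOn code F := by
    intro f hf g hg hfg
    rw [Finset.mem_coe] at hf hg
    simp only [code, Prod.mk.injEq] at hfg
    obtain ⟨h1, h2, h3⟩ := hfg
    have hYY : ∀ c, c < n + 1 → Y f c = Y g c := by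
      intro c
      induction c with
      | zero => intro _; rw [hY0 f hf, hY0 g hg]
      | succ c ih =>
        intro hc
        have h4 := congrFun h3 (⟨c, by omega⟩, false)
        unfold inc at h4
        simp only [Bool.false_eq_true, if_false] at h4
        have := ih (by omega)
        omega
    have hZZ : ∀ c, c < n + 1 → Z f c = Z g c := by
      intro c
      induction c with
      | zero => intro _; exact h2
      | succ c ih =>
        intro hc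
        have h4 := congrFun h3 (⟨c, by omega⟩, true)
        unfold inc at h4
        simp only [if_true] at h4
        have := ih (by omega)
        omega
    have h5 := uniq (hcy f hf) (hcy g hg) (hsh f hf) (hsh g hg) (by omega) hYY hZZ
    have hf0 := (hF f hf).1.1
    have hg0 := (hF g hg).1.1
    have h6 : ∀ l : ZMod (2 * m), (f l).1 - (f (k f)).1 = (g l).1 - (g (k g)).1 ∧
        (f l).2 - (f (k f)).2 = (g l).2 - (g (k g)).2 := by
      intro l
      have h7 := h5 (l - k f).val (ZMod.val_lt _).le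
      unfold pt at h7
      rw [ZMod.natCast_zmod_val, add_sub_cancel, ← h1, add_sub_cancel] at h7
      simp only [Prod.mk.injEq] at h7
      rw [← h1]
      exact h7
    have h8 := h6 0
    rw [hf0, hg0] at h8
    funext l
    have h9 := h6 l
    apply Prod.ext <;> omega
  calc ∑ f ∈ F, q ^ area (2 * m) f ≤ ∑ f ∈ F, H (code f) := sum_le_sum hle
    _ = ∑ c ∈ F.image code, H c := (sum_image hinj).symm
    _ ≤ ∑ c ∈ T, H c := sum_le_sum_of_subset_of_nonneg
        (fun c hc => by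
          rw [mem_image] at hc
          obtain ⟨f, hf, rfl⟩ := hc
          exact hmem f hf) (fun c _ _ => hH0 c)
    _ = (2 * m : ℕ) * (q ^ ((n + 1) * B) *
        ((∑ s ∈ Icc (-(B : ℤ)) B, (1 / 2 : ℝ) ^ ((B : ℤ) - |s|).toNat) *
          ∑ G ∈ Fintype.piFinset (fun _ : Fin n × Bool => Icc (-((2 * m : ℕ) : ℤ)) (2 * m : ℕ)),
            ∏ x : Fin n × Bool, wt q n x.1 ^ (G x).natAbs)) := by
        simp only [T, H, Hw]
        rw [sum_product]
        simp only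
        rw [sum_const, card_univ, ZMod.card, nsmul_eq_mul, sum_product]
        congr 1
        rw [sum_mul_sum, mul_sum]
        apply sum_congr rfl
        intro s _
        rw [mul_sum]
    _ ≤ (2 * m : ℕ) * (q ^ ((n + 1) * B) * (4 * 3)) := by
        apply mul_le_mul_of_nonneg_left _ (Nat.cast_nonneg _)
        apply mul_le_mul_of_nonneg_left _ (by positivity)
        exact mul_le_mul (sides B) (incr hq n (2 * m))
          (sum_nonneg (fun G _ => prod_nonneg (fun x _ => pow_nonneg (wt_nonneg hq _ _) _)))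
          (by norm_num)
    _ = _ := by push_cast; ring

end Pool.Agent.Helper365.AL
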