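import Pool.Agent.Helper365.AL.Gen2
import Pool.Agent.Helper365.AL.Low

/-!
The upper bound of the partition function, for all `q > 1`.
-/

set_option autoImplicit false

namespace Pool.Agent.Helper365.AL

open Pool.Agent.Y981.L2 H981 Finset

theorem prod_le_gen {q u : ℝ} (h0 : 0 < u) (h1 : u < 1) (hq : q * u ^ 4 = 1) {m a : ℕ}
    (ha : a ≤ m) :
    q ^ (a * (m - a)) ≤ 1 / u * q ^ (m ^ 2 / 4) * u ^ ((m : ℤ) - 2 * a).natAbs := by
  have hq0 : 0 < q := by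
    by_contra h
    push Not at h
    have h2 : 0 < u ^ 4 := by positivity
    have : q * u ^ 4 ≤ 0 := mul_nonpos_of_nonpos_of_nonneg h h2.le
    linarith
  obtain ⟨d, hd⟩ : ∃ d, d = ((m : ℤ) - 2 * a).natAbs := ⟨_, rfl⟩
  rw [← hd]
  have hd2 : (d : ℤ) ^ 2 = ((m : ℤ) - 2 * a) ^ 2 := by rw [hd, Int.natAbs_sq]
  obtain ⟨b, hb⟩ : ∃ b, m = a + b := ⟨m - a, by omega⟩
  have e1 : m - a = b := by omega
  rw [e1]
  have h2 : 4 * (a * b) + d ^ 2 = m ^ 2 := by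
    have : 4 * ((a : ℤ) * b) + (d : ℤ) ^ 2 = (m : ℤ) ^ 2 := by
      rw [hd2, hb]
      push_cast
      ring
    exact_mod_cast this
  have h3 := sq_mod m
  have h4 : d ≤ d ^ 2 := by
    rcases Nat.eq_zero_or_pos d with h | h
    · rw [h]; norm_num
    · exact Nat.le_self_pow (by norm_num) d
  obtain ⟨j, hj⟩ : ∃ j, m ^ 2 / 4 = a * b + j := ⟨m ^ 2 / 4 - a * b, by omega⟩
  rw [hj]
  have h5 : d ≤ 4 * j + 1 := by omega
  have h6 : u ^ (4 * j + 1) ≤ u ^ d := pow_le_pow_of_le_one h0.le h1.le h5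
  have h7 : q ^ j * u ^ (4 * j) = 1 := by
    rw [pow_mul, ← mul_pow, hq, one_pow]
  rw [pow_add]
  calc q ^ (a * b) = 1 / u * (q ^ (a * b) * q ^ j) * u ^ (4 * j + 1) := by
        rw [pow_succ]
        calc q ^ (a * b) = q ^ (a * b) * (q ^ j * u ^ (4 * j)) := by rw [h7, mul_one]
          _ = _ := by field_simp
    _ ≤ _ := mul_le_mul_of_nonneg_left h6 (by positivity)

theorem sum_prod_le_gen {q u : ℝ} (h0 : 0 < u) (h1 : u < 1) (hq : q * u ^ 4 = 1) (hq0 : 0 < q)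
    (m : ℕ) : ∑ n ∈ range m, q ^ ((n + 1) * (m - (n + 1))) ≤
      1 / u * (1 + 2 * u * (1 / (1 - u))) * q ^ (m ^ 2 / 4) := by
  classical
  have h2 : ∑ n ∈ range m, q ^ ((n + 1) * (m - (n + 1))) ≤
      ∑ n ∈ range m, 1 / u * q ^ (m ^ 2 / 4) * u ^ ((m : ℤ) - 2 * ((n + 1 : ℕ) : ℤ)).natAbs := by
    apply sum_le_sum
    intro n hn
    rw [mem_range] at hn
    exact prod_le_gen h0 h1 hq (by omega)
  refine h2.trans ?_
  rw [← mul_sum]
  have h3 : ∑ n ∈ range m, u ^ ((m : ℤ) - 2 * ((n + 1 : ℕ) : ℤ)).natAbs ≤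
      1 + 2 * u * (1 / (1 - u)) := by
    have h3 : ∑ n ∈ range m, u ^ ((m : ℤ) - 2 * ((n + 1 : ℕ) : ℤ)).natAbs =
        ∑ x ∈ (range m).image (fun n : ℕ => (m : ℤ) - 2 * ((n + 1 : ℕ) : ℤ)), u ^ x.natAbs := by
      rw [sum_image]
      intro a _ b _ hab
      simp only at hab
      omega
    rw [h3]
    refine le_trans (sum_le_sum_of_subset_of_nonneg ?_ (fun _ _ _ => by positivity))
      (geo_two_gen h0.le h1 m)
    intro x hx
    rw [mem_image] at hx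
    obtain ⟨n, hn, rfl⟩ := hx
    rw [mem_range] at hn
    rw [mem_Icc]
    omega
  have h5 : 0 ≤ 1 / u * q ^ (m ^ 2 / 4) := by positivity
  calc 1 / u * q ^ (m ^ 2 / 4) * ∑ n ∈ range m, u ^ ((m : ℤ) - 2 * ((n + 1 : ℕ) : ℤ)).natAbs
      ≤ 1 / u * q ^ (m ^ 2 / 4) * (1 + 2 * u * (1 / (1 - u))) := mul_le_mul_of_nonneg_left h3 h5
    _ = _ := by ring

/-- **the partition function, for all `q > 1`** -/
theorem total_gen {q : ℝ} (hq : 1 < q) : ∃ C : ℝ, 0 < C ∧ ∀ m : ℕ, 2 ≤ m → ∀ [NeZero (2 * m)]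
    (F : Finset (ZMod (2 * m) → ℤ × ℤ)), (∀ f ∈ F, IsLoop (2 * m) f) →
    ∑ f ∈ F, q ^ area (2 * m) f ≤ C * m * q ^ (m ^ 2 / 4) := by
  classical
  have hq0 : 0 < q := by linarith
  obtain ⟨τ, hτ0, hτ1, hτq⟩ : ∃ τ : ℝ, 0 < τ ∧ τ < 1 ∧ q * τ ^ 2 = 1 := by
    refine ⟨1 / √q, by positivity, ?_, ?_⟩
    · rw [div_lt_one (by positivity)]
      exact Real.lt_sqrt_of_sq_lt (by linarith)
    · rw [div_pow, Real.sq_sqrt hq0.le]
      field_simp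
  obtain ⟨u, hu0, hu1, huq⟩ : ∃ u : ℝ, 0 < u ∧ u < 1 ∧ q * u ^ 4 = 1 := by
    refine ⟨√τ, by positivity, ?_, ?_⟩
    · rw [Real.sqrt_lt' one_pos]
      linarith
    · have : (√τ) ^ 4 = τ ^ 2 := by
        rw [show (4 : ℕ) = 2 * 2 by norm_num, pow_mul, Real.sq_sqrt hτ0.le]
      rw [this]
      exact hτq
  obtain ⟨C0, hC0, hcr⟩ := crude_gen hq
  obtain ⟨C1, hC1⟩ : ∃ C1, C1 = 4 * (1 / (1 - τ)) * Real.exp (8 * (1 / (1 - τ)) ^ 2) := ⟨_, rfl⟩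
  obtain ⟨C2, hC2⟩ : ∃ C2, C2 = 1 / u * (1 + 2 * u * (1 / (1 - u))) := ⟨_, rfl⟩
  have hC10 : 0 < C1 := by
    rw [hC1]
    have : 0 < 1 - τ := by linarith
    positivity
  have hC20 : 0 < C2 := by
    rw [hC2]
    have : 0 < 1 - u := by linarith
    positivity
  refine ⟨C0 + C1 * C2, by positivity, ?_⟩
  intro m hm _ F hF
  have hm1 : 1 ≤ m := by omega
  obtain ⟨F0, hF0⟩ : ∃ F0, F0 = F.filter (fun f => 4 * area (2 * m) f ≤ (m - 1) ^ 2) := ⟨_, rfl⟩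
  obtain ⟨F1, hF1⟩ : ∃ F1 : ℕ → Finset (ZMod (2 * m) → ℤ × ℤ), F1 = fun n =>
    F.filter (fun f => width (2 * m) f = n + 1 ∧ hz (2 * m) f = 2 * (n + 1)) := ⟨_, rfl⟩
  have hsub : F ⊆ F0 ∪ (range m).biUnion F1 := by
    intro f hf
    rw [mem_union]
    rcases dicho hm1 (hF f hf) with h | ⟨h1, h2⟩
    · left
      rw [hF0, mem_filter]
      exact ⟨hf, h⟩
    · right
      rw [mem_biUnion]
      have h3 := hz_add (hF f hf)
      refine ⟨width (2 * m) f - 1, ?_, ?_⟩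
      · rw [mem_range]
        omega
      · rw [hF1]
        simp only
        rw [mem_filter]
        exact ⟨hf, by omega, by omega⟩
  have h0 : ∀ f : ZMod (2 * m) → ℤ × ℤ, 0 ≤ q ^ area (2 * m) f := fun f => by positivity
  have h1 : ∑ f ∈ F, q ^ area (2 * m) f ≤ ∑ f ∈ F0, q ^ area (2 * m) f +
      ∑ n ∈ range m, ∑ f ∈ F1 n, q ^ area (2 * m) f := by
    refine (sum_le_sum_of_subset_of_nonneg hsub (fun f _ _ => h0 f)).trans ?_
    refine (sum_union_le h0 _ _).trans ?_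
    exact add_le_add le_rfl (sum_biUnion_le h0 _ _)
  have h2 : ∑ f ∈ F0, q ^ area (2 * m) f ≤ C0 * q ^ (m ^ 2 / 4) := by
    apply hcr m hm
    intro f hf
    rw [hF0, mem_filter] at hf
    exact ⟨hF f hf.1, hf.2⟩
  have h3 : ∑ n ∈ range m, ∑ f ∈ F1 n, q ^ area (2 * m) f ≤
      ∑ n ∈ range m, C1 * m * q ^ ((n + 1) * (m - (n + 1))) := by
    apply sum_le_sum
    intro n _
    rw [hC1]
    apply fine_gen hτ0 hτ1 hτq hm1
    intro f hf
    rw [hF1] at hf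
    simp only at hf
    rw [mem_filter] at hf
    exact ⟨hF f hf.1, hf.2⟩
  rw [← mul_sum] at h3
  have h4 := sum_prod_le_gen hu0 hu1 huq hq0 m
  rw [← hC2] at h4
  have hm' : (1 : ℝ) ≤ m := by exact_mod_cast hm1
  have h5 : C1 * m * ∑ n ∈ range m, q ^ ((n + 1) * (m - (n + 1))) ≤
      C1 * m * (C2 * q ^ (m ^ 2 / 4)) := mul_le_mul_of_nonneg_left h4 (by positivity)
  have h6 : C0 * q ^ (m ^ 2 / 4) ≤ C0 * m * q ^ (m ^ 2 / 4) := by
    apply mul_le_mul_of_nonneg_right _ (by positivity)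
    nlinarith
  calc ∑ f ∈ F, q ^ area (2 * m) f ≤ C0 * m * q ^ (m ^ 2 / 4) + C1 * m * (C2 * q ^ (m ^ 2 / 4)) := by
        linarith
    _ = _ := by ring

end Pool.Agent.Helper365.AL
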