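import Pool.Agent.Helper365.AL.Par

/-!
The number of turns of a loop.
-/

set_option autoImplicit false

namespace Pool.Agent.Helper365.AL

open Pool.Agent.Y981.L2 H981 Finset

variable {M : ℕ} [NeZero M] {f : ZMod M → ℤ × ℤ}

/-- the lines that contain vertical edges -/
noncomputable def Xp (M : ℕ) [NeZero M] (f : ZMod M → ℤ × ℤ) : Finset ℤ :=
  (univ.filter (fun k : ZMod M => (f (k + 1)).1 = (f k).1)).image (fun k => (f k).1)

/-- the edges that cross the column `c` -/
noncomputable def Gc (M : ℕ) [NeZero M] (f : ZMod M → ℤ × ℤ) (c : ℤ) : Finset (ZMod M) :=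
  univ.filter (fun k : ZMod M => ((f k).1 = c ∧ (f (k + 1)).1 = c + 1) ∨
    ((f k).1 = c + 1 ∧ (f (k + 1)).1 = c))

theorem two_le_Gc (hf : IsLoop M f) {x0 x1 : ℤ} {i j : ZMod M} (hi : (f i).1 = x0)
    (hj : (f j).1 = x1) {c : ℤ} (hc : c ∈ Ico x0 x1) : 2 ≤ (Gc M f c).card := by
  classical
  rw [mem_Ico] at hc
  have h1 : Even (Gc M f c).card := by
    have := even_cross f hf.2.2 c
    rw [Nat.card_eq_fintype_card, Fintype.card_subtype] at this
    exact this
  have h2 : (Gc M f c).card ≠ 0 := by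
    intro h0
    rw [card_eq_zero] at h0
    have h3 : ∀ k : ZMod M, (f k).1 ≤ c → (f (k + 1)).1 ≤ c := by
      intro k hk
      by_contra hlt
      push Not at hlt
      have h4 := hf.2.2 k
      rw [Int.abs_eq_natAbs, Int.abs_eq_natAbs] at h4
      have h5 : k ∈ Gc M f c := by
        unfold Gc
        rw [mem_filter]
        exact ⟨mem_univ _, Or.inl ⟨by omega, by omega⟩⟩
      rw [h0] at h5
      exact absurd h5 (notMem_empty _)
    have h4 : ∀ n : ℕ, (f (i + n)).1 ≤ c := by
      intro n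
      induction n with
      | zero => rw [Nat.cast_zero, add_zero, hi]; exact hc.1
      | succ n ih =>
        have := h3 _ ih
        push_cast
        rw [← add_assoc]
        exact this
    have h5 := h4 (j - i).val
    rw [ZMod.natCast_zmod_val, add_sub_cancel, hj] at h5
    omega
  obtain ⟨r, hr⟩ := h1
  omega

theorem few_lines (hf : IsLoop M f) {x0 x1 : ℤ} (hx : ∀ i, x0 ≤ (f i).1 ∧ (f i).1 ≤ x1)
    {S : ℤ} (hS : ∑ c ∈ Ico x0 x1, |(TL M f c : ℤ) - TR M f c| ≤ S) (s : ℕ) :
    ((Xp M f).card : ℤ) * (s + 1) ≤ (2 * s + 2) * (s + 1) + S := by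
  classical
  obtain ⟨X, hX⟩ : ∃ X, X = (Xp M f).filter (fun c => c ∈ Ico x0 x1) := ⟨_, rfl⟩
  have h1 : (Xp M f).card ≤ X.card + 1 := by
    have : Xp M f ⊆ insert x1 X := by
      intro c hc
      rw [mem_insert, hX, mem_filter, mem_Ico]
      have h2 := hc
      unfold Xp at h2
      rw [mem_image] at h2
      obtain ⟨k, -, rfl⟩ := h2
      have := hx k
      by_cases h3 : (f k).1 = x1
      · exact Or.inl h3
      · exact Or.inr ⟨hc, by omega, by omega⟩
    exact (card_le_card this).trans (card_insert_le _ _)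
  have hmono : ∀ c ∈ X, ∀ c' ∈ X, c < c' →
      (TL M f c : ℤ) - TR M f c < (TL M f c' : ℤ) - TR M f c' := by
    intro c _ c' hc' hcc
    rw [hX, mem_filter] at hc'
    have h2 := hc'.1
    unfold Xp at h2
    rw [mem_image] at h2
    obtain ⟨k, hk, hkc⟩ := h2
    rw [mem_filter] at hk
    have h3 : TL M f c < TL M f c' := by
      unfold TL
      apply card_lt_card
      rw [ssubset_iff_of_subset]
      · refine ⟨k, ?_, ?_⟩
        · rw [mem_filter]
          exact ⟨mem_univ _, by omega, hk.2⟩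
        · rw [mem_filter]
          rintro ⟨-, h, -⟩
          omega
      · intro l hl
        rw [mem_filter] at hl ⊢
        exact ⟨hl.1, by have := hl.2.1; omega, hl.2.2⟩
    have h4 : TR M f c' ≤ TR M f c := by
      unfold TR
      apply card_le_card
      intro l hl
      rw [mem_filter] at hl ⊢
      exact ⟨hl.1, by have := hl.2.1; omega, hl.2.2⟩
    omega
  have hinj : Set.InjOn (fun c => (TL M f c : ℤ) - TR M f c) X := by
    intro c hc c' hc' he
    rw [mem_coe] at hc hc'
    simp only at he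
    rcases lt_trichotomy c c' with h | h | h
    · have := hmono c hc c' hc' h
      omega
    · exact h
    · have := hmono c' hc' c hc h
      omega
  obtain ⟨A, hA⟩ : ∃ A, A = X.filter (fun c => |(TL M f c : ℤ) - TR M f c| ≤ s) := ⟨_, rfl⟩
  obtain ⟨B, hB⟩ : ∃ B, B = X.filter (fun c => ¬ |(TL M f c : ℤ) - TR M f c| ≤ s) := ⟨_, rfl⟩
  have hAB : A.card + B.card = X.card := by
    rw [hA, hB]
    exact card_filter_add_card_filter_not _
  have h2 : A.card ≤ 2 * s + 1 := by
    have h3 : A.card ≤ (Icc (-(s : ℤ)) s).card := by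
      apply card_le_card_of_injOn (fun c => (TL M f c : ℤ) - TR M f c)
      · intro c hc
        rw [mem_coe, hA, mem_filter] at hc
        rw [mem_coe, mem_Icc, ← abs_le]
        exact hc.2
      · intro c hc c' hc' he
        rw [mem_coe, hA, mem_filter] at hc hc'
        exact hinj hc.1 hc'.1 he
    rw [Int.card_Icc] at h3
    omega
  have h3 : (B.card : ℤ) * (s + 1) ≤ S := by
    refine le_trans ?_ hS
    have h4 : ∑ c ∈ B, ((s : ℤ) + 1) ≤ ∑ c ∈ B, |(TL M f c : ℤ) - TR M f c| := by
      apply sum_le_sum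
      intro c hc
      rw [hB, mem_filter] at hc
      have := hc.2
      omega
    rw [sum_const, nsmul_eq_mul] at h4
    refine h4.trans (sum_le_sum_of_subset_of_nonneg ?_ (fun _ _ _ => abs_nonneg _))
    intro c hc
    rw [hB, mem_filter, hX, mem_filter] at hc
    exact hc.1.2
  have h4 : ((Xp M f).card : ℤ) ≤ (2 * s + 2) + B.card := by
    have : (Xp M f).card ≤ (2 * s + 2) + B.card := by omega
    exact_mod_cast this
  nlinarith

/-- the direction of an edge -/
def sd {M : ℕ} (f : ZMod M → ℤ × ℤ) (k : ZMod M) : ℤ × ℤ :=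
  ((f (k + 1)).1 - (f k).1, (f (k + 1)).2 - (f k).2)

/-- the turns -/
noncomputable def Tn (M : ℕ) [NeZero M] (f : ZMod M → ℤ × ℤ) : Finset (ZMod M) :=
  univ.filter (fun k : ZMod M => sd f k ≠ sd f (k + 1))

theorem turn_cases (hM : 3 ≤ M) (hf : IsLoop M f) {k : ZMod M} (hk : k ∈ Tn M f) :
    ((f (k + 1)).1 ≠ (f k).1 ∧ (f (k + 1 + 1)).1 = (f (k + 1)).1) ∨
    ((f (k + 1)).1 = (f k).1 ∧ (f (k + 1 + 1)).1 ≠ (f (k + 1)).1) := by
  classical
  unfold Tn at hk
  rw [mem_filter] at hk
  have h1 := hk.2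
  unfold sd at h1
  rw [ne_eq, Prod.mk.injEq] at h1
  have h2 := hf.2.2 k
  have h3 := hf.2.2 (k + 1)
  rw [Int.abs_eq_natAbs, Int.abs_eq_natAbs] at h2 h3
  have h4 : ¬ ((f (k + 1 + 1)).1 = (f k).1 ∧ (f (k + 1 + 1)).2 = (f k).2) := by
    rintro ⟨e1, e2⟩
    have h5 : k + 1 + 1 = k := hf.2.1 (Prod.ext e1 e2)
    have h6 : ((2 : ℕ) : ZMod M) = 0 := by
      have : k + 1 + 1 - k = ((2 : ℕ) : ZMod M) := by push_cast; ring
      rw [← this, h5, sub_self]
    rw [ZMod.natCast_eq_zero_iff] at h6
    have := Nat.le_of_dvd (by norm_num) h6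
    omega
  omega

theorem turns (hM : 3 ≤ M) (hf : IsLoop M f) {x0 x1 : ℤ} {i j : ZMod M} (hi : (f i).1 = x0)
    (hj : (f j).1 = x1) :
    (Tn M f).card + 4 * (Ico x0 x1).card ≤ 2 * hz M f + 8 * (Xp M f).card := by
  classical
  obtain ⟨C, hC⟩ : ∃ C, C = Xp M f ∪ (Xp M f).image (fun x => x - 1) := ⟨_, rfl⟩
  have hCc : C.card ≤ 2 * (Xp M f).card := by
    rw [hC]
    have h1 := card_union_le (Xp M f) ((Xp M f).image (fun x => x - 1))
    have h2 : ((Xp M f).image (fun x => x - 1)).card ≤ (Xp M f).card := card_image_le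
    omega
  obtain ⟨H, hH⟩ : ∃ H, H = univ.filter (fun k : ZMod M => (f (k + 1)).1 ≠ (f k).1 ∧
    min (f k).1 (f (k + 1)).1 ∈ C) := ⟨_, rfl⟩
  obtain ⟨H', hH'⟩ : ∃ H', H' = univ.filter (fun k : ZMod M => (f (k + 1)).1 ≠ (f k).1 ∧
    min (f k).1 (f (k + 1)).1 ∉ C) := ⟨_, rfl⟩
  have h1 : H.card + H'.card = hz M f := by
    rw [hH, hH', ← card_union_of_disjoint]
    · unfold hz
      congr 1
      ext k
      simp only [mem_union, mem_filter, mem_univ, true_and]
      tauto
    · rw [disjoint_left]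
      intro k h h'
      rw [mem_filter] at h h'
      exact h'.2.2 h.2.2
  have h2 : (Tn M f).card ≤ 2 * H.card := by
    have h3 : Tn M f ⊆ H ∪ H.image (fun k => k - 1) := by
      intro k hk
      rw [mem_union, mem_image, hH]
      have s1 := hf.2.2 k
      have s2 := hf.2.2 (k + 1)
      rw [Int.abs_eq_natAbs, Int.abs_eq_natAbs] at s1 s2
      rcases turn_cases hM hf hk with ⟨g1, g2⟩ | ⟨g1, g2⟩
      · left
        have g3 : (f (k + 1)).1 ∈ Xp M f := by
          unfold Xp
          rw [mem_image]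
          exact ⟨k + 1, by rw [mem_filter]; exact ⟨mem_univ _, g2⟩, rfl⟩
        rw [mem_filter]
        refine ⟨mem_univ _, g1, ?_⟩
        rw [hC, mem_union, mem_image]
        rcases le_total (f k).1 (f (k + 1)).1 with g4 | g4
        · right
          exact ⟨_, g3, by rw [min_eq_left g4]; omega⟩
        · left
          rw [min_eq_right g4]
          exact g3
      · right
        have g3 : (f (k + 1)).1 ∈ Xp M f := by
          unfold Xp
          rw [mem_image]
          exact ⟨k, by rw [mem_filter]; exact ⟨mem_univ _, g1⟩, g1.symm⟩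
        refine ⟨k + 1, ?_, by ring⟩
        rw [mem_filter]
        refine ⟨mem_univ _, g2, ?_⟩
        rw [hC, mem_union, mem_image]
        rcases le_total (f (k + 1)).1 (f (k + 1 + 1)).1 with g4 | g4
        · left
          rw [min_eq_left g4]
          exact g3
        · right
          exact ⟨_, g3, by rw [min_eq_right g4]; omega⟩
    have h4 := card_le_card h3
    have h5 := card_union_le H (H.image (fun k => k - 1))
    have h6 : (H.image (fun k => k - 1)).card ≤ H.card := card_image_le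
    omega
  have h3 : 2 * ((Ico x0 x1) \ C).card ≤ H'.card := by
    have h4 : ((Ico x0 x1) \ C).biUnion (Gc M f) ⊆ H' := by
      intro k hk
      rw [mem_biUnion] at hk
      obtain ⟨c, hc, hkc⟩ := hk
      unfold Gc at hkc
      rw [mem_filter] at hkc
      rw [mem_sdiff] at hc
      rw [hH', mem_filter]
      refine ⟨mem_univ _, ?_, ?_⟩
      · rcases hkc.2 with ⟨e1, e2⟩ | ⟨e1, e2⟩ <;> omega
      · have : min (f k).1 (f (k + 1)).1 = c := by
          rcases hkc.2 with ⟨e1, e2⟩ | ⟨e1, e2⟩ <;> omega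
        rw [this]
        exact hc.2
    refine le_trans ?_ (card_le_card h4)
    rw [card_biUnion]
    · calc 2 * ((Ico x0 x1) \ C).card = ∑ _c ∈ (Ico x0 x1) \ C, 2 := by
            rw [sum_const, smul_eq_mul, mul_comm]
        _ ≤ _ := by
            apply sum_le_sum
            intro c hc
            rw [mem_sdiff] at hc
            exact two_le_Gc hf hi hj hc.1
    · intro c _ c' _ hcc
      show Disjoint (Gc M f c) (Gc M f c')
      rw [disjoint_left]
      intro k h h'
      unfold Gc at h h'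
      rw [mem_filter] at h h'
      apply hcc
      rcases h.2 with ⟨e1, e2⟩ | ⟨e1, e2⟩ <;> rcases h'.2 with ⟨e3, e4⟩ | ⟨e3, e4⟩ <;> omega
  have h4 : (Ico x0 x1).card ≤ ((Ico x0 x1) \ C).card + C.card := by
    have := card_le_card_sdiff_add_card (s := Ico x0 x1) (t := C)
    omega
  omega

end Pool.Agent.Helper365.AL
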