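import Pool.Agent.Helper365.AL.Sha

/-!
A closed path that crosses every column exactly twice is determined by the heights of its
horizontal steps.
-/

set_option autoImplicit false

namespace Pool.Agent.Helper365.AL

variable {M a : ℕ} {p p' : ℕ → ℤ × ℤ} {e w e' w' : ℕ → ℕ}

theorem Cy.inj2 (h : Cy M a p) {i : ℕ} (h1 : 1 ≤ i) (h2 : i + 2 ≤ M) : p i ≠ p (i + 2) := by
  rcases h2.eq_or_lt with g | g
  · rw [g, h.last, ← h.zero]
    exact (h.inj 0 i (by omega) (by omega)).symm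
  · exact h.inj i (i + 2) (by omega) g

theorem glue (h : Cy M a p) (h' : Cy M a p') {s0 t t' : ℕ} (hs0 : 1 ≤ s0) (hst : s0 ≤ t)
    (hst' : s0 ≤ t') (ht : t ≤ M) (ht' : t' ≤ M)
    (hv : ∀ i, s0 ≤ i → i < t → (p (i + 1)).1 = (p i).1)
    (hv' : ∀ i, s0 ≤ i → i < t' → (p' (i + 1)).1 = (p' i).1)
    (hag : ∀ i, i ≤ s0 → p i = p' i) (hend : (p t).2 = (p' t').2) :
    t = t' ∧ ∀ i, i ≤ t → p i = p' i := by
  have hvv : ∀ i, s0 ≤ i → i < t → (p (i + 1)).1 = (p i).1 ∧ |(p (i + 1)).2 - (p i).2| = 1 := by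
    intro i h1 h2
    have h3 := hv i h1 h2
    have h4 := h.step i (by omega)
    rw [h3, sub_self, abs_zero, zero_add] at h4
    exact ⟨h3, h4⟩
  have hvv' : ∀ i, s0 ≤ i → i < t' →
      (p' (i + 1)).1 = (p' i).1 ∧ |(p' (i + 1)).2 - (p' i).2| = 1 := by
    intro i h1 h2
    have h3 := hv' i h1 h2
    have h4 := h'.step i (by omega)
    rw [h3, sub_self, abs_zero, zero_add] at h4
    exact ⟨h3, h4⟩
  obtain ⟨r1, r2⟩ := run hst hvv (fun i h1 h2 => h.inj2 (by omega) (by omega))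
  obtain ⟨r1', r2'⟩ := run hst' hvv' (fun i h1 h2 => h'.inj2 (by omega) (by omega))
  have hs := hag s0 le_rfl
  rw [← hs, ← hend] at r1' r2'
  have htt : t = t' := by omega
  refine ⟨htt, fun i hi => ?_⟩
  rcases le_total i s0 with g | g
  · exact hag i g
  · obtain ⟨k, rfl⟩ : ∃ k, i = s0 + k := ⟨i - s0, by omega⟩
    rw [r2 k hi, r2' k (by omega)]

theorem Sh.e_le (s : Sh M a p e w) {c d : ℕ} (hcd : c ≤ d) (hd : d < a) : e c ≤ e d := by
  induction d, hcd using Nat.le_induction with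
  | base => exact le_rfl
  | succ d hcd ih => exact (ih (by omega)).trans (s.mono d hd).1.le

theorem Sh.w_le (s : Sh M a p e w) {c d : ℕ} (hcd : c ≤ d) (hd : d < a) : w d ≤ w c := by
  induction d, hcd using Nat.le_induction with
  | base => exact le_rfl
  | succ d hcd ih => exact (s.mono d hd).2.le.trans (ih (by omega))

theorem Sh.e_lt (s : Sh M a p e w) {c d : ℕ} (hcd : c < d) (hd : d < a) : e c < e d :=
  lt_of_lt_of_le (s.mono c (by omega)).1 (s.e_le (by omega) hd)

theorem Sh.w_lt (s : Sh M a p e w) {c d : ℕ} (hcd : c < d) (hd : d < a) : w d < w c :=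
  lt_of_le_of_lt (s.w_le (by omega) hd) (s.mono c (by omega)).2

theorem Sh.e_lt_w (s : Sh M a p e w) {c d : ℕ} (hc : c < a) (hd : d < a) : e c < w d := by
  have h1 := s.e_le (show c ≤ a - 1 by omega) (by omega)
  have h2 := s.w_le (show d ≤ a - 1 by omega) (by omega)
  have h3 := (s.ee (a - 1) (by omega)).2.2.2.2.2.2
  omega

/-- the steps between two horizontal steps are vertical -/
theorem Sh.ver_e (s : Sh M a p e w) {c : ℕ} (hc : c + 1 < a) {i : ℕ} (h1 : e c + 1 ≤ i)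
    (h2 : i < e (c + 1)) : (p (i + 1)).1 = (p i).1 := by
  by_contra hne
  have hM := (s.ee (c + 1) hc).1
  rcases s.hor i (by omega) hne with ⟨d, hd, rfl⟩ | ⟨d, hd, rfl⟩
  · rcases le_or_gt d c with g | g
    · have := s.e_le g (by omega)
      omega
    · have := s.e_le (show c + 1 ≤ d from g) hd
      omega
  · have := s.e_lt_w hc hd
    omega

theorem Sh.ver_r (s : Sh M a p e w) (ha : 1 ≤ a) {i : ℕ} (h1 : e (a - 1) + 1 ≤ i)
    (h2 : i < w (a - 1)) : (p (i + 1)).1 = (p i).1 := by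
  by_contra hne
  have hM := (s.ee (a - 1) (by omega)).2.2.2.1
  rcases s.hor i (by omega) hne with ⟨d, hd, rfl⟩ | ⟨d, hd, rfl⟩
  · have := s.e_le (show d ≤ a - 1 by omega) (by omega)
    omega
  · have := s.w_le (show d ≤ a - 1 by omega) (by omega)
    omega

theorem Sh.ver_w (s : Sh M a p e w) {c : ℕ} (hc : c + 1 < a) {i : ℕ} (h1 : w (c + 1) + 1 ≤ i)
    (h2 : i < w c) : (p (i + 1)).1 = (p i).1 := by
  by_contra hne
  have hM := (s.ee c (by omega)).2.2.2.1
  rcases s.hor i (by omega) hne with ⟨d, hd, rfl⟩ | ⟨d, hd, rfl⟩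
  · have := s.e_lt_w hd hc
    omega
  · rcases le_or_gt d c with g | g
    · have := s.w_le g (by omega)
      omega
    · have := s.w_le (show c + 1 ≤ d from g) hd
      omega

theorem Sh.ver_l (s : Sh M a p e w) (ha : 1 ≤ a) {i : ℕ} (h1 : w 0 + 1 ≤ i)
    (h2 : i < M) : (p (i + 1)).1 = (p i).1 := by
  by_contra hne
  rcases s.hor i (by omega) hne with ⟨d, hd, rfl⟩ | ⟨d, hd, rfl⟩
  · have := s.e_lt_w hd (show 0 < a by omega)
    omega
  · have := s.w_le (show 0 ≤ d by omega) hd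
    omega

/-- **uniqueness** -/
theorem uniq (h : Cy M a p) (h' : Cy M a p') (s : Sh M a p e w) (s' : Sh M a p' e' w')
    (ha : 1 ≤ a) (hE : ∀ c, c < a → (p (e c)).2 = (p' (e' c)).2)
    (hW : ∀ c, c < a → (p (w c)).2 = (p' (w' c)).2) : ∀ i, i ≤ M → p i = p' i := by
  have ext_e : ∀ c, c < a → e c = e' c → (∀ i, i ≤ e c → p i = p' i) →
      ∀ i, i ≤ e c + 1 → p i = p' i := by
    intro c hc hee hag i hi
    rcases hi.eq_or_lt with g | g
    · obtain ⟨k1, k2, k3, -⟩ := s.ee c hc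
      obtain ⟨l1, l2, l3, -⟩ := s'.ee c hc
      have m1 := h.hgt k1 (by omega)
      have m2 := h'.hgt l1 (by omega)
      rw [g]
      apply Prod.ext
      · rw [k3, hee, l3]
      · rw [m1, hE c hc, ← m2, hee]
    · exact hag i (by omega)
  have ext_w : ∀ c, c < a → w c = w' c → (∀ i, i ≤ w c → p i = p' i) →
      ∀ i, i ≤ w c + 1 → p i = p' i := by
    intro c hc hee hag i hi
    rcases hi.eq_or_lt with g | g
    · obtain ⟨-, -, -, k1, k2, k3, -⟩ := s.ee c hc
      obtain ⟨-, -, -, l1, l2, l3, -⟩ := s'.ee c hc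
      have m1 := h.hgt k1 (by omega)
      have m2 := h'.hgt l1 (by omega)
      rw [g]
      apply Prod.ext
      · rw [k3, hee, l3]
      · rw [m1, hW c hc, ← m2, hee]
    · exact hag i (by omega)
  have hEp : ∀ c, c < a → e c = e' c ∧ ∀ i, i ≤ e c + 1 → p i = p' i := by
    intro c
    induction c with
    | zero =>
      intro hc
      have h0 : e 0 = e' 0 := by rw [s.e0, s'.e0]
      refine ⟨h0, ext_e 0 hc h0 ?_⟩
      intro i hi
      rw [s.e0] at hi
      have : i = 0 := by omega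
      rw [this, h.zero, h'.zero]
    | succ c ih =>
      intro hc
      obtain ⟨h1, h2⟩ := ih (by omega)
      obtain ⟨g1, g2⟩ := glue h h' (s0 := e c + 1) (t := e (c + 1)) (t' := e' (c + 1)) (by omega)
        (s.mono c hc).1 (by rw [h1]; exact (s'.mono c hc).1) (s.ee _ hc).1.le (s'.ee _ hc).1.le
        (fun i k1 k2 => s.ver_e hc k1 k2) (fun i k1 k2 => s'.ver_e hc (by omega) k2) h2
        (hE _ hc)
      exact ⟨g1, ext_e _ hc g1 g2⟩
  have hR : w (a - 1) = w' (a - 1) ∧ ∀ i, i ≤ w (a - 1) + 1 → p i = p' i := by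
    obtain ⟨h1, h2⟩ := hEp (a - 1) (by omega)
    obtain ⟨g1, g2⟩ := glue h h' (s0 := e (a - 1) + 1) (t := w (a - 1)) (t' := w' (a - 1))
        (by omega) (s.e_lt_w (by omega) (by omega))
        (by rw [h1]; exact s'.e_lt_w (by omega) (by omega))
        (s.ee (a - 1) (by omega)).2.2.2.1.le (s'.ee (a - 1) (by omega)).2.2.2.1.le
        (fun i k1 k2 => s.ver_r ha k1 k2) (fun i k1 k2 => s'.ver_r ha (by omega) k2) h2
        (hW _ (by omega))
    exact ⟨g1, ext_w _ (by omega) g1 g2⟩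
  have hWp : ∀ k c, c + k + 1 = a → w c = w' c ∧ ∀ i, i ≤ w c + 1 → p i = p' i := by
    intro k
    induction k with
    | zero =>
      intro c hc
      have : c = a - 1 := by omega
      rw [this]
      exact hR
    | succ k ih =>
      intro c hc
      obtain ⟨h1, h2⟩ := ih (c + 1) (by omega)
      have hc1 : c + 1 < a := by omega
      obtain ⟨g1, g2⟩ := glue h h' (s0 := w (c + 1) + 1) (t := w c) (t' := w' c) (by omega)
        (s.mono c hc1).2 (by rw [h1]; exact (s'.mono c hc1).2)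
        (s.ee c (by omega)).2.2.2.1.le (s'.ee c (by omega)).2.2.2.1.le
        (fun i k1 k2 => s.ver_w hc1 k1 k2) (fun i k1 k2 => s'.ver_w hc1 (by omega) k2) h2
        (hW _ (by omega))
      exact ⟨g1, ext_w _ (by omega) g1 g2⟩
  obtain ⟨h1, h2⟩ := hWp (a - 1) 0 (by omega)
  have hw0 := (s.ee 0 (by omega)).2.2.2.1
  have hw0' := (s'.ee 0 (by omega)).2.2.2.1
  exact (glue h h' (s0 := w 0 + 1) (t := M) (t' := M) (by omega) hw0 (by omega) le_rfl le_rfl
    (fun i k1 k2 => s.ver_l ha k1 k2) (fun i k1 k2 => s'.ver_l ha (by omega) k2) h2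
    (by rw [h.last, h'.last])).2

end Pool.Agent.Helper365.AL
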